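import Pool.Agent.H23.RG.Stm

set_option autoImplicit false
open Classical Filter

namespace Pool.Agent.H23.RG

theorem all_part : S_ALL := by
  intro n S
  rw [← Finset.card_powersetCard]
  unfold eS inS
  refine Finset.card_bij (fun z _ => ({z.1.1, z.1.2} : Finset (Fin n))) ?_ ?_ ?_
  · intro z hz
    rw [Finset.mem_filter] at hz
    rw [Finset.mem_powersetCard]
    refine ⟨?_, Finset.card_pair (ne_of_lt z.2)⟩
    intro x hx
    rw [Finset.mem_insert, Finset.mem_singleton] at hx
    rcases hx with rfl | rfl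
    · exact hz.2.1
    · exact hz.2.2
  · intro z hz w hw hzw
    have hz1 : z.1.1 ∈ ({w.1.1, w.1.2} : Finset (Fin n)) := by
      rw [← hzw]; exact Finset.mem_insert_self _ _
    have hz2 : z.1.2 ∈ ({w.1.1, w.1.2} : Finset (Fin n)) := by
      rw [← hzw]; exact Finset.mem_insert_of_mem (Finset.mem_singleton_self _)
    rw [Finset.mem_insert, Finset.mem_singleton] at hz1 hz2
    have hlz := z.2
    have hlw := w.2
    have : z.1 = w.1 := by
      rcases hz1 with h1 | h1 <;> rcases hz2 with h2 | h2
      · rw [h1, h2] at hlz; exact absurd hlz (lt_irrefl _)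
      · exact Prod.ext h1 h2
      · rw [h1, h2] at hlz; exact absurd (hlz.trans hlw) (lt_irrefl _)
      · rw [h1, h2] at hlz; exact absurd hlz (lt_irrefl _)
    exact Subtype.ext this
  · intro B hB
    rw [Finset.mem_powersetCard] at hB
    obtain ⟨a, b, hab, rfl⟩ := Finset.card_eq_two.mp hB.2
    have ha : a ∈ S := hB.1 (Finset.mem_insert_self _ _)
    have hb : b ∈ S := hB.1 (Finset.mem_insert_of_mem (Finset.mem_singleton_self _))
    rcases lt_or_gt_of_ne hab with h | h
    · refine ⟨⟨(a, b), h⟩, ?_, rfl⟩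
      rw [Finset.mem_filter]
      exact ⟨Finset.mem_univ _, ha, hb⟩
    · refine ⟨⟨(b, a), h⟩, ?_, ?_⟩
      · rw [Finset.mem_filter]
        exact ⟨Finset.mem_univ _, hb, ha⟩
      · exact Finset.pair_comm b a

end Pool.Agent.H23.RG
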