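import Pool.Agent.H23.RG.Stm

/-! Crew RG, part CON. -/

set_option autoImplicit false
open Classical Filter

namespace Pool.Agent.H23.RG

theorem con_part (hMON : S_MON) (hDIC : S_DIC) (hPEEL : S_PEEL) : S_CON := by
  intro d c hd hc
  obtain ⟨ε, hε, hlim⟩ := hDIC d c hd hc
  have hp : ∀ᶠ n : ℕ in atTop, 0 ≤ c / (n : ℝ) ∧ c / (n : ℝ) ≤ 1 := by
    filter_upwards [eventually_ge_atTop (⌈c⌉₊ + 1)] with n hn
    have h1 : c ≤ (n : ℝ) := by
      have h2 : (⌈c⌉₊ : ℝ) ≤ (n : ℝ) := by exact_mod_cast (by omega : ⌈c⌉₊ ≤ n)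
      exact (Nat.le_ceil c).trans h2
    have h2 : 0 < (n : ℝ) := hc.trans_le h1
    exact ⟨by positivity, (div_le_one h2).2 h1⟩
  have hM : ∀ᶠ n : ℕ in atTop, d + 5 ≤ ⌊ε * (n : ℝ)⌋₊ := by
    have h1 : Tendsto (fun n : ℕ => ε * (n : ℝ)) atTop atTop :=
      Tendsto.const_mul_atTop hε tendsto_natCast_atTop_atTop
    filter_upwards [h1.eventually_ge_atTop ((d + 5 : ℕ) : ℝ)] with n hn
    exact Nat.le_floor hn
  refine squeeze_zero' ?_ ?_ hlim
  · filter_upwards [hp] with n hn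
    have h1 := hMON (E n) (c / (n : ℝ)) hn.1 hn.2 (fun _ => False) (fun A : Finset (E n) =>
      ∃ S : Finset (Fin n), Rig d (gr A) S ∧ 4 ≤ S.card ∧ ¬ (∀ v ∈ S, Hat d (gr A) v))
      (fun A h => h.elim)
    have h2 : mu (X := E n) (c / (n : ℝ)) (fun _ => False) = 0 := by
      simp [mu]
    rw [h2] at h1
    exact h1
  · filter_upwards [hp, hM] with n hn hMn
    refine hMON (E n) (c / (n : ℝ)) hn.1 hn.2 _ _ ?_
    rintro A ⟨S, hS, hS4, hSh⟩
    by_contra hcon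
    push Not at hcon
    apply hSh
    refine hPEEL d n (⌊ε * (n : ℝ)⌋₊ + 1) (gr A) (by omega) (by omega) ?_ S hS hS4
    intro S' hS'
    by_cases h4 : S'.card ≤ 3
    · exact Or.inl h4
    · right
      have h5 := hcon S' hS' (by omega)
      have h6 := (Nat.floor_lt (by positivity : 0 ≤ ε * (n : ℝ))).2 h5
      omega

end Pool.Agent.H23.RG
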