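import Pool.Agent.H23.RG.Stm

/-! Crew RG, part CPL (helper55) -/

set_option autoImplicit false
open Classical Filter

namespace Pool.Agent.H23.RG

theorem cpl_part (hALL : S_ALL) : S_CPL := by
  intro n A S
  have hsub : inS A S ⊆ inS (Finset.univ : Finset (E n)) S := by
    intro z hz
    unfold inS at hz ⊢
    rw [Finset.mem_filter] at hz ⊢
    exact ⟨Finset.mem_univ z, hz.2⟩
  constructor
  · intro h u hu v hv hne
    have hcard : (inS (Finset.univ : Finset (E n)) S).card ≤ (inS A S).card := by
      have := hALL n S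
      unfold eS at this h
      rw [this]
      exact h
    have heq : inS A S = inS (Finset.univ : Finset (E n)) S :=
      Finset.eq_of_subset_of_card_le hsub hcard
    rcases lt_or_gt_of_ne hne with hlt | hlt
    · left
      refine ⟨hlt, ?_⟩
      have : (⟨(u, v), hlt⟩ : E n) ∈ inS (Finset.univ : Finset (E n)) S :=
        Finset.mem_filter.2 ⟨Finset.mem_univ _, hu, hv⟩
      rw [← heq] at this
      exact (Finset.mem_filter.1 this).1
    · right
      refine ⟨hlt, ?_⟩
      have : (⟨(v, u), hlt⟩ : E n) ∈ inS (Finset.univ : Finset (E n)) S :=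
        Finset.mem_filter.2 ⟨Finset.mem_univ _, hv, hu⟩
      rw [← heq] at this
      exact (Finset.mem_filter.1 this).1
  · intro h
    have h1 : inS (Finset.univ : Finset (E n)) S ⊆ inS A S := by
      intro z hz
      obtain ⟨-, hz1, hz2⟩ := Finset.mem_filter.1 hz
      refine Finset.mem_filter.2 ⟨?_, hz1, hz2⟩
      rcases h z.1.1 hz1 z.1.2 hz2 z.2.ne with ⟨hlt, hmem⟩ | ⟨hlt, hmem⟩
      · exact hmem
      · exact absurd z.2 (not_lt.2 hlt.le)
    have h2 := Finset.card_le_card h1
    have h3 := hALL n S
    unfold eS at h3 ⊢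
    rw [← h3]
    exact h2

end Pool.Agent.H23.RG
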