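import Pool.Agent.H23.RG.Stm

/-! Crew RG, part DEG (helper61) -/

set_option autoImplicit false
open Classical Filter

namespace Pool.Agent.H23.RG

theorem deg_part : S_DEG := by
  intro n A S w hw
  unfold eS
  have hsplit : inS A S =
      inS A (S.erase w) ∪ (inS A S).filter (fun z => z.1.1 = w ∨ z.1.2 = w) := by
    ext z
    simp only [inS, Finset.mem_union, Finset.mem_filter, Finset.mem_erase]
    tauto
  have hdisj : Disjoint (inS A (S.erase w))
      ((inS A S).filter (fun z => z.1.1 = w ∨ z.1.2 = w)) := by
    rw [Finset.disjoint_left]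
    intro z hz hz'
    simp only [inS, Finset.mem_filter, Finset.mem_erase] at hz hz'
    tauto
  have hcard : ((inS A S).filter (fun z => z.1.1 = w ∨ z.1.2 = w)).card =
      (S.filter ((gr A).Adj w)).card := by
    refine Finset.card_bij (fun z _ => if z.1.1 = w then z.1.2 else z.1.1) ?_ ?_ ?_
    · intro z hz
      simp only [inS, Finset.mem_filter] at hz ⊢
      obtain ⟨⟨hzA, h1, h2⟩, h3⟩ := hz
      by_cases h : z.1.1 = w
      · rw [if_pos h]
        refine ⟨h2, Or.inl ⟨?_, ?_⟩⟩
        · rw [← h]; exact z.2
        · have : (⟨(w, z.1.2), by rw [← h]; exact z.2⟩ : E n) = z :=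
            Subtype.ext (Prod.ext h.symm rfl)
          rw [this]
          exact hzA
      · rw [if_neg h]
        have h4 : z.1.2 = w := h3.resolve_left h
        refine ⟨h1, Or.inr ⟨?_, ?_⟩⟩
        · rw [← h4]; exact z.2
        · have : (⟨(z.1.1, w), by rw [← h4]; exact z.2⟩ : E n) = z :=
            Subtype.ext (Prod.ext rfl h4.symm)
          rw [this]
          exact hzA
    · intro z hz z' hz' heq
      simp only [inS, Finset.mem_filter] at hz hz'
      obtain ⟨-, h3⟩ := hz
      obtain ⟨-, h3'⟩ := hz'
      have hlt := z.2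
      have hlt' := z'.2
      by_cases h : z.1.1 = w <;> by_cases h' : z'.1.1 = w
      · rw [if_pos h, if_pos h'] at heq
        exact Subtype.ext (Prod.ext (h.trans h'.symm) heq)
      · rw [if_pos h, if_neg h'] at heq
        have h4 : z'.1.2 = w := h3'.resolve_left h'
        rw [h, heq] at hlt
        rw [h4] at hlt'
        exact absurd (hlt.trans hlt') (lt_irrefl _)
      · rw [if_neg h, if_pos h'] at heq
        have h4 : z.1.2 = w := h3.resolve_left h
        rw [h', ← heq] at hlt'
        rw [h4] at hlt
        exact absurd (hlt.trans hlt') (lt_irrefl _)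
      · rw [if_neg h, if_neg h'] at heq
        have h4 : z.1.2 = w := h3.resolve_left h
        have h4' : z'.1.2 = w := h3'.resolve_left h'
        exact Subtype.ext (Prod.ext heq (h4.trans h4'.symm))
    · intro v hv
      rw [Finset.mem_filter] at hv
      obtain ⟨hvS, ⟨h, hA⟩ | ⟨h, hA⟩⟩ := hv
      · refine ⟨⟨(w, v), h⟩, ?_, ?_⟩
        · simp only [inS, Finset.mem_filter]
          exact ⟨⟨hA, hw, hvS⟩, Or.inl trivial⟩
        · simp
      · refine ⟨⟨(v, w), h⟩, ?_, ?_⟩
        · simp only [inS, Finset.mem_filter]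
          exact ⟨⟨hA, hvS, hw⟩, Or.inr trivial⟩
        · simp only
          rw [if_neg h.ne]
  rw [← hcard, ← Finset.card_union_of_disjoint hdisj, ← hsplit]

end Pool.Agent.H23.RG
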