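import Pool.Agent.H23.RG.Stm

/-! Crew RG, part DIC: no rigid sets with between 4 and `ε n` vertices. -/

set_option autoImplicit false
open Classical Filter

namespace Pool.Agent.H23.RG

theorem mu_nonneg' {X : Type} [Fintype X] {p : ℝ} (h0 : 0 ≤ p) (h1 : p ≤ 1)
    (Q : Finset X → Prop) : 0 ≤ mu p Q := by
  unfold mu
  refine Finset.sum_nonneg fun A _ => ?_
  split_ifs
  · unfold wt
    exact mul_nonneg (pow_nonneg h0 _) (pow_nonneg (by linarith) _)
  · exact le_rfl

theorem dic_part (hMON : S_MON) (hUNI : S_UNI) (hMID : S_MID) (hSM : S_SM) (hRGE : S_RGE) :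
    S_DIC := by
  intro d c hd hc
  obtain ⟨ε, hε, hmid⟩ := hMID c hc
  refine ⟨ε, hε, ?_⟩
  set D : ℕ := d * (d + 1) with hD
  set Q : (n : ℕ) → ℕ → Finset (E n) → Prop := fun n i A =>
    if i = D then ∃ S : Finset (Fin n), 4 ≤ S.card ∧ (S.card : ℝ) ≤ ε * (n : ℝ) ∧
      3 * S.card ≤ 2 * eS A S
    else ∃ S : Finset (Fin n), S.card = i ∧ i + 1 ≤ eS A S with hQ
  have hlim : Tendsto (fun n : ℕ => ∑ i ∈ Finset.range (D + 1), mu (c / (n : ℝ)) (Q n i)) atTop
      (nhds 0) := by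
    have h1 : (0 : ℝ) = ∑ _i ∈ Finset.range (D + 1), (0 : ℝ) := by simp
    rw [h1]
    refine tendsto_finsetSum _ fun i _ => ?_
    by_cases hi : i = D
    · have h2 : ∀ n, Q n i = fun A => ∃ S : Finset (Fin n), 4 ≤ S.card ∧
          (S.card : ℝ) ≤ ε * (n : ℝ) ∧ 3 * S.card ≤ 2 * eS A S := fun n => by
        funext A; rw [hQ]; simp only [hi, if_true]
      simp only [h2]
      exact hmid
    · have h2 : ∀ n, Q n i = fun A => ∃ S : Finset (Fin n), S.card = i ∧ i + 1 ≤ eS A S :=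
        fun n => by funext A; rw [hQ]; simp only [hi, if_false]
      simp only [h2]
      exact hSM c i hc
  have hbig : ∀ᶠ n : ℕ in atTop, c ≤ (n : ℝ) :=
    tendsto_natCast_atTop_atTop.eventually_ge_atTop c
  refine tendsto_of_tendsto_of_tendsto_of_le_of_le' tendsto_const_nhds hlim ?_ ?_
  · filter_upwards [hbig] with n hn
    have h0 : 0 ≤ c / (n : ℝ) := by positivity
    have h1 : c / (n : ℝ) ≤ 1 := div_le_one_of_le₀ hn (by positivity)
    exact mu_nonneg' h0 h1 _
  · filter_upwards [hbig] with n hn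
    have h0 : 0 ≤ c / (n : ℝ) := by positivity
    have h1 : c / (n : ℝ) ≤ 1 := div_le_one_of_le₀ hn (by positivity)
    refine le_trans (hMON (E n) _ h0 h1 _ (fun A => ∃ i ∈ Finset.range (D + 1), Q n i A) ?_)
      (hUNI (E n) _ h0 h1 ℕ _ _)
    rintro A ⟨S, hR, h4, hS⟩
    obtain ⟨e1, e2, -⟩ := hRGE d n hd A S hR h4
    by_cases hc' : D ≤ S.card
    · refine ⟨D, by simp, ?_⟩
      rw [hQ]
      simp only [if_true]
      exact ⟨S, h4, hS, e2 hc'⟩
    · refine ⟨S.card, by simp; omega, ?_⟩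
      rw [hQ]
      have : ¬ S.card = D := by omega
      simp only [this, if_false]
      exact ⟨S, rfl, e1⟩

end Pool.Agent.H23.RG
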