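import Pool.Agent.H23.RG.Stm

/-!
Part EDG of the crew RG (MP_264ef2_co): ordered adjacent pairs.
-/

set_option autoImplicit false
open Classical Filter

namespace Pool.Agent.H23.RG

theorem edg_part : S_EDG := by
  intro n A S
  have h : (S ×ˢ S).filter (fun e => (gr A).Adj e.1 e.2) =
      (inS A S).image (fun z => z.1) ∪ (inS A S).image (fun z => z.1.swap) := by
    ext ⟨u, v⟩
    simp only [Finset.mem_filter, Finset.mem_product, Finset.mem_union, Finset.mem_image, inS]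
    constructor
    · rintro ⟨⟨hu, hv⟩, h | h⟩
      · obtain ⟨h1, h2⟩ := h
        exact Or.inl ⟨⟨(u, v), h1⟩, ⟨h2, hu, hv⟩, rfl⟩
      · obtain ⟨h1, h2⟩ := h
        exact Or.inr ⟨⟨(v, u), h1⟩, ⟨h2, hv, hu⟩, rfl⟩
    · rintro (⟨⟨⟨a, b⟩, hab⟩, ⟨hA, h1, h2⟩, h3⟩ | ⟨⟨⟨a, b⟩, hab⟩, ⟨hA, h1, h2⟩, h3⟩)
      · simp only [Prod.mk.injEq] at h3
        obtain ⟨rfl, rfl⟩ := h3
        exact ⟨⟨h1, h2⟩, Or.inl ⟨hab, hA⟩⟩
      · simp only [Prod.swap_prod_mk, Prod.mk.injEq] at h3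
        obtain ⟨rfl, rfl⟩ := h3
        exact ⟨⟨h2, h1⟩, Or.inr ⟨hab, hA⟩⟩
  rw [h, Finset.card_union_of_disjoint, Finset.card_image_of_injective,
    Finset.card_image_of_injective]
  · unfold eS
    ring
  · intro a b hab
    exact Subtype.ext (Prod.swap_injective hab)
  · exact Subtype.val_injective
  · rw [Finset.disjoint_left]
    intro e he1 he2
    obtain ⟨a, _, rfl⟩ := Finset.mem_image.1 he1
    obtain ⟨b, _, hb⟩ := Finset.mem_image.1 he2
    have h1 := a.2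
    have h2 := b.2
    have h3 : b.1.2 = a.1.1 := congrArg Prod.fst hb
    have h4 : b.1.1 = a.1.2 := congrArg Prod.snd hb
    rw [h3, h4] at h2
    exact absurd h1 (not_lt.2 h2.le)

end Pool.Agent.H23.RG
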