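import Pool.Agent.H23.RG.Stm

/-! Crew RG, part EXP. -/

set_option autoImplicit false
open Classical Filter

namespace Pool.Agent.H23.RG

theorem exp_part : S_EXP := by
  intro X _ q Y
  have h1 : (1 - q / 2) ^ Y.card =
      ∏ x : X, ((if x ∈ Y then q * (1 / 2) else q) + (1 - q)) := by
    have h2 : ∀ x : X, ((if x ∈ Y then q * (1 / 2) else q) + (1 - q)) =
        if x ∈ Y then (1 - q / 2) else 1 := by
      intro x
      split_ifs <;> ring
    simp_rw [h2]
    rw [Finset.prod_ite_mem, Finset.univ_inter, Finset.prod_const]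
  rw [h1, Finset.prod_add, Finset.powerset_univ]
  refine Finset.sum_congr rfl fun B _ => ?_
  rw [Finset.prod_const, Finset.card_sdiff_of_subset (Finset.subset_univ B), Finset.card_univ]
  have h3 : ∏ x ∈ B, (if x ∈ Y then q * (1 / 2) else q) = q ^ B.card * (1 / 2 : ℝ) ^ (B ∩ Y).card := by
    have h4 : ∀ x : X, (if x ∈ Y then q * (1 / 2 : ℝ) else q) =
        q * (if x ∈ Y then (1 / 2 : ℝ) else 1) := by
      intro x
      split_ifs <;> ring
    simp_rw [h4]
    rw [Finset.prod_mul_distrib, Finset.prod_const, Finset.prod_ite_mem, Finset.prod_const]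
  rw [h3]
  unfold wt
  ring

end Pool.Agent.H23.RG
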