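import Pool.Agent.H23.RG.Stm

set_option autoImplicit false
open Classical Filter

namespace Pool.Agent.H23.RG

theorem fm_part (hMON : S_MON) (hUNI : S_UNI) (hSUB : S_SUB) (hALL : S_ALL) : S_FM := by
  intro n s m p h0 h1
  let J : Finset ((_ : Finset (Fin n)) × Finset (E n)) :=
    (Finset.powersetCard s (Finset.univ : Finset (Fin n))).sigma
      (fun S => Finset.powersetCard m (inS (Finset.univ : Finset (E n)) S))
  have hinc : ∀ A : Finset (E n), (∃ S : Finset (Fin n), S.card = s ∧ m ≤ eS A S) →
      ∃ i ∈ J, i.2 ⊆ A := by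
    rintro A ⟨S, hS, hm⟩
    obtain ⟨F, hF, hFc⟩ := Finset.exists_subset_card_eq hm
    refine ⟨⟨S, F⟩, ?_, ?_⟩
    · rw [Finset.mem_sigma]
      refine ⟨Finset.mem_powersetCard.2 ⟨Finset.subset_univ _, hS⟩,
        Finset.mem_powersetCard.2 ⟨?_, hFc⟩⟩
      intro z hz
      have h2 := hF hz
      simp only [inS, Finset.mem_filter] at h2 ⊢
      exact ⟨Finset.mem_univ _, h2.2⟩
    · intro z hz
      have h2 := hF hz
      simp only [inS, Finset.mem_filter] at h2
      exact h2.1
  have hstep1 := hMON (E n) p h0 h1 _ (fun A => ∃ i ∈ J, i.2 ⊆ A) hinc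
  have hstep2 := hUNI (E n) p h0 h1 _ J (fun i A => i.2 ⊆ A)
  have hstep3 : ∑ i ∈ J, mu p (fun A => i.2 ⊆ A) =
      (n.choose s : ℝ) * ((s.choose 2).choose m : ℝ) * p ^ m := by
    have e1 : ∑ i ∈ J, mu p (fun A => i.2 ⊆ A) = ∑ i ∈ J, p ^ m := by
      refine Finset.sum_congr rfl fun i hi => ?_
      rw [hSUB]
      have h2 := (Finset.mem_sigma.1 hi).2
      rw [(Finset.mem_powersetCard.1 h2).2]
    rw [e1, Finset.sum_const, nsmul_eq_mul]
    congr 1
    have e2 : J.card = n.choose s * (s.choose 2).choose m := by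
      rw [Finset.card_sigma]
      have e3 : ∀ S ∈ Finset.powersetCard s (Finset.univ : Finset (Fin n)),
          (Finset.powersetCard m (inS (Finset.univ : Finset (E n)) S)).card =
            (s.choose 2).choose m := by
        intro S hS
        rw [Finset.card_powersetCard]
        have h3 := hALL n S
        rw [(Finset.mem_powersetCard.1 hS).2] at h3
        unfold eS at h3
        rw [h3]
      rw [Finset.sum_congr rfl e3, Finset.sum_const, Finset.card_powersetCard, Finset.card_univ,
        Fintype.card_fin, smul_eq_mul]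
    rw [e2]
    push_cast
    ring
  rw [← hstep3]
  exact hstep1.trans hstep2

end Pool.Agent.H23.RG
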