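import Pool.Agent.H23.RG.Stm

set_option autoImplicit false
open Classical Filter

namespace Pool.Agent.H23.RG

theorem gia_part (hMON : S_MON) (hTOT : S_TOT) (hUNI : S_UNI) (hMIN : S_MIN) (hMID : S_MID)
    (hALL : S_ALL) : S_GIA := by
  intro d c hd hc hT
  obtain ⟨ε, hε, hM⟩ := hMID c hc
  refine ⟨ε, hε, ?_⟩
  have hlow : Tendsto (fun n : ℕ => mu (c / (n : ℝ)) (fun A : Finset (E n) =>
      ∃ S : Finset (Fin n), d * S.card < eS A S) - mu (c / (n : ℝ)) (fun A : Finset (E n) =>
      ∃ S : Finset (Fin n), 4 ≤ S.card ∧ (S.card : ℝ) ≤ ε * (n : ℝ) ∧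
      3 * S.card ≤ 2 * eS A S)) atTop (nhds 1) := by
    have := hT.sub hM
    simpa using this
  refine tendsto_of_tendsto_of_tendsto_of_le_of_le' hlow tendsto_const_nhds ?_ ?_
  · filter_upwards [eventually_ge_atTop (⌈c⌉₊ + 1)] with n hn
    have hn1 : (0 : ℝ) < n := by
      have : 0 < n := by omega
      exact_mod_cast this
    have hcn : c ≤ n := by
      have h1 := Nat.le_ceil c
      have h2 : ((⌈c⌉₊ : ℕ) : ℝ) ≤ n := by
        have : ⌈c⌉₊ ≤ n := by omega
        exact_mod_cast this
      linarith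
    have hp0 : 0 ≤ c / (n : ℝ) := by positivity
    have hp1 : c / (n : ℝ) ≤ 1 := by rw [div_le_one hn1]; exact hcn
    let Q : Bool → Finset (E n) → Prop := fun b A => if b = true then
      (ε * (n : ℝ) ≤ ((Finset.univ.filter (Hat d (gr A))).card : ℝ)) else
      (∃ S : Finset (Fin n), 4 ≤ S.card ∧ (S.card : ℝ) ≤ ε * (n : ℝ) ∧ 3 * S.card ≤ 2 * eS A S)
    have h1 : mu (c / (n : ℝ)) (fun A : Finset (E n) => ∃ S : Finset (Fin n), d * S.card < eS A S) ≤
        mu (c / (n : ℝ)) (fun A : Finset (E n) => ∃ b ∈ (Finset.univ : Finset Bool), Q b A) := by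
      apply hMON _ _ hp0 hp1
      intro A hA
      obtain ⟨S, hS, hdeg⟩ := hMIN d n A hA
      have hcard : eS A S ≤ S.card.choose 2 := by
        rw [← hALL n S]
        unfold eS inS
        apply Finset.card_le_card
        apply Finset.filter_subset_filter
        exact Finset.subset_univ _
      have h4 : 4 ≤ S.card := by
        by_contra hlt
        push Not at hlt
        have : S.card.choose 2 ≤ 2 * S.card := by
          interval_cases h : S.card <;> decide
        have : 2 * S.card ≤ d * S.card := Nat.mul_le_mul_right _ hd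
        omega
      have h3 : 3 * S.card ≤ 2 * eS A S := by
        have : 2 * S.card ≤ d * S.card := Nat.mul_le_mul_right _ hd
        omega
      by_cases hsz : (S.card : ℝ) ≤ ε * n
      · exact ⟨false, Finset.mem_univ _, by simpa [Q] using ⟨S, h4, hsz, h3⟩⟩
      · refine ⟨true, Finset.mem_univ _, ?_⟩
        simp only [Q, if_true]
        push Not at hsz
        refine hsz.le.trans ?_
        have : S ⊆ Finset.univ.filter (Hat d (gr A)) := by
          intro u hu
          rw [Finset.mem_filter]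
          refine ⟨Finset.mem_univ _, ?_⟩
          intro T hT1 _
          exact hT1 u ⟨S, hu, fun w hw => by convert hdeg w hw⟩
        exact_mod_cast Finset.card_le_card this
    have h2 := hUNI (E n) (c / (n : ℝ)) hp0 hp1 Bool Finset.univ Q
    rw [Fintype.sum_bool] at h2
    have e1 : mu (c / (n : ℝ)) (Q true) = mu (c / (n : ℝ)) (fun A : Finset (E n) =>
        ε * (n : ℝ) ≤ ((Finset.univ.filter (Hat d (gr A))).card : ℝ)) := by
      congr 1
    have e2 : mu (c / (n : ℝ)) (Q false) = mu (c / (n : ℝ)) (fun A : Finset (E n) =>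
        ∃ S : Finset (Fin n), 4 ≤ S.card ∧ (S.card : ℝ) ≤ ε * (n : ℝ) ∧ 3 * S.card ≤ 2 * eS A S) := by
      congr 1
    rw [e1, e2] at h2
    linarith
  · filter_upwards [eventually_ge_atTop (⌈c⌉₊ + 1)] with n hn
    have hn1 : (0 : ℝ) < n := by
      have : 0 < n := by omega
      exact_mod_cast this
    have hcn : c ≤ n := by
      have h1 := Nat.le_ceil c
      have h2 : ((⌈c⌉₊ : ℕ) : ℝ) ≤ n := by
        have : ⌈c⌉₊ ≤ n := by omega
        exact_mod_cast this
      linarith
    rw [← hTOT (E n) (c / (n : ℝ))]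
    exact hMON _ _ (by positivity) (by rw [div_le_one hn1]; exact hcn) _ _ (fun A _ => trivial)

end Pool.Agent.H23.RG
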