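import Pool.Agent.H23.RG.Stm

set_option autoImplicit false
open Classical Filter

namespace Pool.Agent.H23.RG

theorem lr1_part (hRGE : S_RGE) (hALL : S_ALL) : S_LR1 := by
  intro d n ε A S hd hε hR hn hs
  by_cases hlt : d * S.card < eS A S
  · exact Or.inl hlt
  right
  push Not at hlt
  obtain ⟨-, -, h3⟩ := hRGE d n hd A S hR (by omega)
  have h3 := h3 (by omega)
  have hev : 2 * (d * (d + 1) / 2) = d * (d + 1) :=
    Nat.mul_div_cancel' (Nat.even_mul_succ_self d).two_dvd
  set D := d * (d + 1) / 2 with hD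
  have hsub : inS A S ⊆ inS (Finset.univ : Finset (E n)) S := by
    intro z hz
    simp only [inS, Finset.mem_filter, Finset.mem_univ, true_and] at hz ⊢
    exact hz.2
  refine ⟨inS (Finset.univ : Finset (E n)) S \ inS A S, ?_, ?_⟩
  · have hc : (inS (Finset.univ : Finset (E n)) S \ inS A S).card + eS A S = S.card.choose 2 := by
      rw [← hALL n S, eS, eS, Finset.card_sdiff_add_card_eq_card hsub]
    have hch : 2 * S.card.choose 2 = S.card * (S.card - 1) := by
      rw [Nat.choose_two_right]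
      exact Nat.mul_div_cancel' (Nat.even_mul_pred_self _).two_dvd
    set Y := (inS (Finset.univ : Finset (E n)) S \ inS A S).card with hY
    have hs1 : (1 : ℕ) ≤ S.card := by omega
    have hcR : (Y : ℝ) + (eS A S : ℝ) = (S.card.choose 2 : ℝ) := by exact_mod_cast hc
    have hchR : 2 * (S.card.choose 2 : ℝ) = (S.card : ℝ) * ((S.card : ℝ) - 1) := by
      have : ((2 * S.card.choose 2 : ℕ) : ℝ) = ((S.card * (S.card - 1) : ℕ) : ℝ) := by rw [hch]
      push_cast [Nat.cast_sub hs1] at this
      exact this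
    have hltR : (eS A S : ℝ) ≤ d * (S.card : ℝ) := by exact_mod_cast hlt
    have hsR : 4 * (d : ℝ) + 4 ≤ (S.card : ℝ) := by exact_mod_cast hs
    have hnn : (0 : ℝ) ≤ ε * n := by positivity
    have hd0 : (0 : ℝ) ≤ d := Nat.cast_nonneg d
    have h4 : (S.card : ℝ) ^ 2 / 4 ≤ (Y : ℝ) := by nlinarith
    have h5 : (ε * n) ^ 2 ≤ (S.card : ℝ) ^ 2 := pow_le_pow_left₀ hnn hn 2
    calc ε ^ 2 / 4 * (n : ℝ) ^ 2 = (ε * n) ^ 2 / 4 := by ring
      _ ≤ (S.card : ℝ) ^ 2 / 4 := by linarith
      _ ≤ Y := h4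
  · intro B hB
    have h6 : inS A S ∪ (B ∩ (inS (Finset.univ : Finset (E n)) S \ inS A S)) ⊆ inS (A ∪ B) S := by
      intro z hz
      simp only [inS, Finset.mem_union, Finset.mem_filter, Finset.mem_inter, Finset.mem_sdiff,
        Finset.mem_univ, true_and] at hz ⊢
      tauto
    have h7 : Disjoint (inS A S) (B ∩ (inS (Finset.univ : Finset (E n)) S \ inS A S)) := by
      rw [Finset.disjoint_left]
      intro z hz hz'
      simp only [Finset.mem_inter, Finset.mem_sdiff] at hz'
      exact hz'.2.2 hz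
    have h8 := Finset.card_le_card h6
    rw [Finset.card_union_of_disjoint h7] at h8
    have h9 : (inS A S).card = eS A S := rfl
    have h10 : (inS (A ∪ B) S).card = eS (A ∪ B) S := rfl
    omega

end Pool.Agent.H23.RG
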