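import Pool.Agent.H23.RG.Stm

set_option autoImplicit false
open Classical Filter

namespace Pool.Agent.H23.RG

theorem lrg_wt_nonneg {X : Type} [Fintype X] {p : ℝ} (h0 : 0 ≤ p) (h1 : p ≤ 1) (A : Finset X) :
    0 ≤ wt p A :=
  mul_nonneg (pow_nonneg h0 _) (pow_nonneg (by linarith) _)

theorem lrg_mu_nonneg {X : Type} [Fintype X] {p : ℝ} (h0 : 0 ≤ p) (h1 : p ≤ 1)
    (Q : Finset X → Prop) : 0 ≤ mu p Q :=
  Finset.sum_nonneg (fun A _ => by
    split_ifs
    · exact lrg_wt_nonneg h0 h1 A
    · exact le_rfl)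

theorem lrg_eS_mono {n : ℕ} {A B : Finset (E n)} (h : A ⊆ B) (S : Finset (Fin n)) :
    eS A S ≤ eS B S :=
  Finset.card_le_card (Finset.filter_subset_filter _ h)

theorem lrg_part (hTOT : S_TOT) (hMON : S_MON) (hNOT : S_NOT) (hSPR : S_SPR) (hTAIL : S_TAIL)
    (hLR1 : S_LR1) : S_LRG := by
  intro d c c' ε hd hc hcc hε hlim
  obtain ⟨N, hN⟩ := hTAIL (ε ^ 2 / 4) (c' - c) (1 / 2) (d * (d + 1) / 2) (by positivity)
    (by linarith) (by norm_num)
  obtain ⟨N1, hN1⟩ := exists_nat_ge (c' + (4 * d + 4) / ε)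
  have key : ∀ᶠ n : ℕ in atTop, mu (c / (n : ℝ)) (fun A : Finset (E n) =>
      ∃ S : Finset (Fin n), Rig d (gr A) S ∧ ε * (n : ℝ) ≤ (S.card : ℝ)) ≤
      2 * mu (c' / (n : ℝ)) (fun A : Finset (E n) =>
        ∃ S : Finset (Fin n), d * S.card < eS A S) := by
    filter_upwards [eventually_ge_atTop N, eventually_ge_atTop N1, eventually_ge_atTop 1]
      with n hn hn1 hn2
    have hnpos : (0 : ℝ) < n := by exact_mod_cast hn2
    have hn1' : (N1 : ℝ) ≤ n := by exact_mod_cast hn1
    have hpos4 : 0 ≤ (4 * (d : ℝ) + 4) / ε := by positivity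
    have hc'n : c' ≤ n := by linarith
    have h4 : (4 * (d : ℝ) + 4) ≤ ε * n := by
      have : (4 * (d : ℝ) + 4) / ε ≤ n := by linarith
      rw [div_le_iff₀ hε] at this
      linarith
    set p := c / (n : ℝ) with hp
    set r := c' / (n : ℝ) with hr
    have hp0 : 0 < p := div_pos hc hnpos
    have hpr : p < r := by
      rw [hp, hr]; exact div_lt_div_of_pos_right hcc hnpos
    have hr1 : r ≤ 1 := by
      rw [hr, div_le_one hnpos]; exact hc'n
    have h1p : 0 < 1 - p := by linarith
    set q := (r - p) / (1 - p) with hq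
    have hq1 : q ≤ 1 := by
      rw [hq, div_le_one h1p]; linarith
    have hq0 : (c' - c) / (n : ℝ) ≤ q := by
      have e1 : (c' - c) / (n : ℝ) = r - p := by rw [hp, hr]; ring
      rw [e1, hq, le_div_iff₀ h1p]
      nlinarith
    have hq00 : 0 ≤ q := le_trans (div_nonneg (by linarith) hnpos.le) hq0
    have hqr : 1 - (1 - p) * (1 - q) = r := by
      rw [hq]; field_simp; ring
    have h1 : mu r (fun A : Finset (E n) => ∃ S : Finset (Fin n), d * S.card < eS A S) =
        ∑ A : Finset (E n), wt p A * mu q (fun B : Finset (E n) =>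
          ∃ S : Finset (Fin n), d * S.card < eS (A ∪ B) S) := by
      have h0 := hSPR (E n) p q
        (fun A : Finset (E n) => ∃ S : Finset (Fin n), d * S.card < eS A S)
      rw [hqr] at h0
      refine h0.trans ?_
      refine Finset.sum_congr rfl fun A _ => ?_
      refine congrArg (fun z => wt p A * z) ?_
      refine congrArg (mu q) ?_
      funext B
      refine propext (exists_congr fun S => ?_)
      have hCD : ∀ C D : Finset (E n), C = D →
          (d * S.card < eS C S ↔ d * S.card < eS D S) := by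
        rintro C _ rfl
        rfl
      exact hCD _ _ (by ext x; simp only [Finset.mem_union])
    rw [h1, Finset.mul_sum]
    have hmuR : mu p (fun A : Finset (E n) =>
      ∃ S : Finset (Fin n), Rig d (gr A) S ∧ ε * (n : ℝ) ≤ (S.card : ℝ)) =
      ∑ A : Finset (E n), if (∃ S : Finset (Fin n), Rig d (gr A) S ∧
        ε * (n : ℝ) ≤ (S.card : ℝ)) then wt p A else 0 := by
      unfold mu
      apply Finset.sum_congr rfl
      intro A _
      congr
    rw [hmuR]
    apply Finset.sum_le_sum
    intro A _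
    by_cases hR : ∃ S : Finset (Fin n), Rig d (gr A) S ∧ ε * (n : ℝ) ≤ (S.card : ℝ)
    · rw [if_pos hR]
      obtain ⟨S, hS1, hS2⟩ := hR
      have hw := lrg_wt_nonneg hp0.le (by linarith : p ≤ 1) A
      have hcard : 4 * d + 4 ≤ S.card := by
        have : (4 * (d : ℝ) + 4) ≤ S.card := h4.trans hS2
        exact_mod_cast this
      have hm : (1 / 2 : ℝ) ≤ mu q (fun B : Finset (E n) =>
          ∃ S : Finset (Fin n), d * S.card < eS (A ∪ B) S) := by
        rcases hLR1 d n ε A S hd hε hS1 hS2 hcard with h2 | ⟨Y, hY1, hY2⟩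
        · have h3 := hMON (E n) q hq00 hq1 (fun _ => True) (fun B : Finset (E n) =>
            ∃ S : Finset (Fin n), d * S.card < eS (A ∪ B) S)
            (fun B _ => ⟨S, h2.trans_le (lrg_eS_mono Finset.subset_union_left S)⟩)
          rw [hTOT] at h3
          linarith
        · have h3 := hN n hn Y hY1 q hq0 hq1
          have h5 := hNOT (E n) q (fun B : Finset (E n) => (B ∩ Y).card ≤ d * (d + 1) / 2)
          have h6 := hMON (E n) q hq00 hq1
            (fun B : Finset (E n) => ¬ (B ∩ Y).card ≤ d * (d + 1) / 2)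
            (fun B : Finset (E n) => ∃ S : Finset (Fin n), d * S.card < eS (A ∪ B) S)
            (fun B hB => ⟨S, hY2 B (not_le.1 hB)⟩)
          rw [h5] at h6
          linarith
      have h7 : wt p A * (1 / 2) ≤ wt p A * mu q (fun B : Finset (E n) =>
          ∃ S : Finset (Fin n), d * S.card < eS (A ∪ B) S) := mul_le_mul_of_nonneg_left hm hw
      have h8 : wt p A = 2 * (wt p A * (1 / 2)) := by ring
      have h9 := mul_le_mul_of_nonneg_left h7 (by norm_num : (0 : ℝ) ≤ 2)
      rw [← h8] at h9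
      exact h9
    · rw [if_neg hR]
      have hw := lrg_wt_nonneg hp0.le (by linarith : p ≤ 1) A
      have hm := lrg_mu_nonneg hq00 hq1 (fun B : Finset (E n) =>
          ∃ S : Finset (Fin n), d * S.card < eS (A ∪ B) S)
      exact mul_nonneg (by norm_num : (0 : ℝ) ≤ 2) (mul_nonneg hw hm)
  have hlow : ∀ᶠ n : ℕ in atTop, 0 ≤ mu (c / (n : ℝ)) (fun A : Finset (E n) =>
      ∃ S : Finset (Fin n), Rig d (gr A) S ∧ ε * (n : ℝ) ≤ (S.card : ℝ)) := by
    filter_upwards [eventually_ge_atTop N1, eventually_ge_atTop 1] with n hn1 hn2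
    have hnpos : (0 : ℝ) < n := by exact_mod_cast hn2
    have hn1' : (N1 : ℝ) ≤ n := by exact_mod_cast hn1
    have hpos4 : 0 ≤ (4 * (d : ℝ) + 4) / ε := by positivity
    apply lrg_mu_nonneg (div_nonneg hc.le hnpos.le)
    rw [div_le_one hnpos]
    linarith
  have hlim2 : Tendsto (fun n : ℕ => 2 * mu (c' / (n : ℝ)) (fun A : Finset (E n) =>
        ∃ S : Finset (Fin n), d * S.card < eS A S)) atTop (nhds 0) := by
    have := hlim.const_mul 2
    simpa using this
  exact squeeze_zero' hlow key hlim2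

end Pool.Agent.H23.RG
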