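import Pool.Agent.H23.RG.Stm

set_option autoImplicit false
open Classical Filter

namespace Pool.Agent.H23.RG

theorem mu_nonneg12 {X : Type} [Fintype X] (p : ℝ) (h0 : 0 ≤ p) (h1 : p ≤ 1) (Q : Finset X → Prop) :
    0 ≤ mu p Q := by
  unfold mu
  refine Finset.sum_nonneg fun A _ => ?_
  split_ifs
  · unfold wt
    have : 0 ≤ 1 - p := by linarith
    positivity
  · exact le_refl _

theorem mid_part (hFM : S_FM) (hMON : S_MON) (hUNI : S_UNI) (hMT : S_MT) (hMS : S_MS) : S_MID := by
  intro c hc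
  obtain ⟨C, hC, hMT⟩ := hMT c hc
  obtain ⟨ε, hε, hε1, hT⟩ := hMS C (min 1 (1 / C)) hC (by positivity)
  refine ⟨ε, hε, ?_⟩
  have hle1 : ε ≤ 1 := hε1.trans (min_le_left _ _)
  have hleC : ε ≤ 1 / C := hε1.trans (min_le_right _ _)
  refine squeeze_zero' ?_ ?_ hT
  · filter_upwards [eventually_ge_atTop (⌈c⌉₊ + 1)] with n hn
    have hn1 : (0 : ℝ) < n := by
      have : 0 < n := by omega
      exact_mod_cast this
    have hcn : c ≤ n := by
      have h1 := Nat.le_ceil c
      have h2 : ((⌈c⌉₊ : ℕ) : ℝ) ≤ n := by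
        have : ⌈c⌉₊ ≤ n := by omega
        exact_mod_cast this
      linarith
    exact mu_nonneg12 _ (by positivity) (by rw [div_le_one hn1]; exact hcn) _
  · filter_upwards [eventually_ge_atTop (⌈c⌉₊ + 1)] with n hn
    have hn1 : (0 : ℝ) < n := by
      have : 0 < n := by omega
      exact_mod_cast this
    have hcn : c ≤ n := by
      have h1 := Nat.le_ceil c
      have h2 : ((⌈c⌉₊ : ℕ) : ℝ) ≤ n := by
        have : ⌈c⌉₊ ≤ n := by omega
        exact_mod_cast this
      linarith
    have hp0 : 0 ≤ c / (n : ℝ) := by positivity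
    have hp1 : c / (n : ℝ) ≤ 1 := by rw [div_le_one hn1]; exact hcn
    calc mu (c / (n : ℝ)) (fun A : Finset (E n) =>
          ∃ S : Finset (Fin n), 4 ≤ S.card ∧ (S.card : ℝ) ≤ ε * (n : ℝ) ∧ 3 * S.card ≤ 2 * eS A S)
        ≤ mu (c / (n : ℝ)) (fun A : Finset (E n) => ∃ s ∈ Finset.Icc 4 ⌊ε * (n : ℝ)⌋₊,
            (fun (s : ℕ) (A : Finset (E n)) => ∃ S : Finset (Fin n), S.card = s ∧ (3 * s + 1) / 2 ≤ eS A S) s A) := by
          apply hMON _ _ hp0 hp1
          rintro A ⟨S, h4, hS, h3⟩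
          refine ⟨S.card, Finset.mem_Icc.mpr ⟨h4, Nat.le_floor hS⟩, S, rfl, ?_⟩
          omega
      _ ≤ ∑ s ∈ Finset.Icc 4 ⌊ε * (n : ℝ)⌋₊, mu (c / (n : ℝ))
            ((fun (s : ℕ) (A : Finset (E n)) => ∃ S : Finset (Fin n), S.card = s ∧ (3 * s + 1) / 2 ≤ eS A S) s) :=
          hUNI _ _ hp0 hp1 _ _ _
      _ ≤ _ := by
          refine Finset.sum_le_sum fun s hs => ?_
          obtain ⟨hs4, hsf⟩ := Finset.mem_Icc.mp hs
          have hsε : (s : ℝ) ≤ ε * n := by
            have := (Nat.le_floor_iff (by positivity)).mp hsf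
            exact this
          refine (hFM n s ((3 * s + 1) / 2) _ hp0 hp1).trans ?_
          apply hMT n s ((3 * s + 1) / 2)
          · omega
          · have : (s : ℝ) ≤ n := by nlinarith
            exact_mod_cast this
          · omega
          · omega
          · have h1 : C * (s : ℝ) ≤ C * (ε * n) := mul_le_mul_of_nonneg_left hsε hC.le
            have h2 : C * ε ≤ 1 := by
              have := mul_le_mul_of_nonneg_left hleC hC.le
              rwa [mul_one_div_cancel hC.ne'] at this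
            nlinarith

end Pool.Agent.H23.RG
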