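import Pool.Agent.H23.RG.Stm

/-! Crew RG, part MIN (helper55) -/

set_option autoImplicit false
open Classical Filter

namespace Pool.Agent.H23.RG

theorem min_part (hDEG : S_DEG) : S_MIN := by
  intro d n A hex
  obtain ⟨S0, hS0⟩ := hex
  have key : ∀ k : ℕ, ∀ S : Finset (Fin n), S.card ≤ k → d * S.card < eS A S →
      ∃ S : Finset (Fin n), d * S.card < eS A S ∧
        ∀ w ∈ S, d + 1 ≤ (S.filter ((gr A).Adj w)).card := by
    intro k
    induction k with
    | zero =>
      intro S hc hS
      refine ⟨S, hS, fun w hw => ?_⟩
      have : S = ∅ := Finset.card_eq_zero.1 (by omega)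
      rw [this] at hw
      exact absurd hw (Finset.notMem_empty w)
    | succ k ih =>
      intro S hc hS
      by_cases hall : ∀ w ∈ S, d + 1 ≤ (S.filter ((gr A).Adj w)).card
      · exact ⟨S, hS, hall⟩
      · push Not at hall
        obtain ⟨w, hw, hlt⟩ := hall
        have h1 := hDEG n A S w hw
        have h2 : (S.erase w).card = S.card - 1 := Finset.card_erase_of_mem hw
        have h3 : 0 < S.card := Finset.card_pos.2 ⟨w, hw⟩
        refine ih (S.erase w) (by omega) ?_
        have h4 : S.card = (S.erase w).card + 1 := by omega
        have h5 : d * S.card = d * (S.erase w).card + d := by rw [h4]; ring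
        omega
  exact key S0.card S0 le_rfl hS0

end Pool.Agent.H23.RG
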