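import Pool.Agent.H23.RG.Stm

set_option autoImplicit false
open Classical Filter

namespace Pool.Agent.H23.RG

theorem wt_nonneg {X : Type} [Fintype X] (p : ℝ) (h0 : 0 ≤ p) (h1 : p ≤ 1) (A : Finset X) :
    0 ≤ wt p A :=
  mul_nonneg (pow_nonneg h0 _) (pow_nonneg (by linarith) _)

theorem mon_part : S_MON := by
  intro X _ p h0 h1 Q R hQR
  unfold mu
  refine Finset.sum_le_sum fun A _ => ?_
  have hw := wt_nonneg p h0 h1 A
  by_cases hQ : Q A
  · rw [if_pos hQ, if_pos (hQR A hQ)]
  · rw [if_neg hQ]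
    split_ifs
    · exact hw
    · exact le_rfl

end Pool.Agent.H23.RG
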