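import Pool.Agent.H23.RG.Stm

/-! Crew RG, part MT: the term bound. -/

set_option autoImplicit false
open Classical Filter

namespace Pool.Agent.H23.RG

theorem mt_choose (n k : ℕ) (hk : 1 ≤ k) :
    (n.choose k : ℝ) ≤ (Real.exp 1 * ((n : ℝ) / (k : ℝ))) ^ k := by
  have h1 : (n.choose k : ℝ) ≤ (n : ℝ) ^ k / (k.factorial : ℝ) := Nat.choose_le_pow_div k n
  have h2 : (k : ℝ) ^ k / (k.factorial : ℝ) ≤ Real.exp k :=
    Real.pow_div_factorial_le_exp (k : ℝ) (by positivity) k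
  have hk0 : (0 : ℝ) < k := by exact_mod_cast hk
  have h3 : (n : ℝ) ^ k / (k.factorial : ℝ) =
      ((n : ℝ) / (k : ℝ)) ^ k * ((k : ℝ) ^ k / (k.factorial : ℝ)) := by
    rw [div_pow]
    field_simp
  have h4 : Real.exp (k : ℝ) = (Real.exp 1) ^ k := by
    rw [← Real.exp_nat_mul, mul_one]
  rw [mul_pow, ← h4, mul_comm]
  calc (n.choose k : ℝ) ≤ (n : ℝ) ^ k / (k.factorial : ℝ) := h1
    _ = ((n : ℝ) / (k : ℝ)) ^ k * ((k : ℝ) ^ k / (k.factorial : ℝ)) := h3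
    _ ≤ ((n : ℝ) / (k : ℝ)) ^ k * Real.exp k := by gcongr

theorem mt_part : S_MT := by
  intro c hc
  set e : ℝ := Real.exp 1 with he
  have he0 : 0 < e := Real.exp_pos 1
  set K : ℝ := e * c / 3 with hK
  have hK0 : 0 < K := by positivity
  set C : ℝ := K + e * (Real.sqrt K) ^ 3 with hC
  have hsK : 0 < Real.sqrt K := Real.sqrt_pos.2 hK0
  have hC0 : 0 < C := by positivity
  refine ⟨C, hC0, ?_⟩
  intro n s m hs hsn hm _ hCn
  have hs0 : (0 : ℝ) < s := by exact_mod_cast hs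
  have hn0 : (0 : ℝ) < n := by
    have : (s : ℝ) ≤ n := by exact_mod_cast hsn
    linarith
  have hm1 : 1 ≤ m := by omega
  have hm0 : (0 : ℝ) < m := by exact_mod_cast hm1
  have hm' : 3 * (s : ℝ) ≤ 2 * m := by exact_mod_cast hm
  -- first factor
  have h1 : (n.choose s : ℝ) ≤ (e * ((n : ℝ) / (s : ℝ))) ^ s := mt_choose n s hs
  -- second factor
  have h2 : ((s.choose 2).choose m : ℝ) ≤ (e * ((s : ℝ) / 3)) ^ m := by
    refine (mt_choose _ m hm1).trans ?_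
    have h3 : ((s.choose 2 : ℕ) : ℝ) ≤ (s : ℝ) ^ 2 / 2 := by
      have := Nat.choose_le_pow_div (α := ℝ) 2 s
      simpa using this
    have h4 : ((s.choose 2 : ℕ) : ℝ) / (m : ℝ) ≤ (s : ℝ) / 3 := by
      rw [div_le_div_iff₀ hm0 (by norm_num)]
      nlinarith
    gcongr
  set t : ℝ := Real.sqrt ((s : ℝ) / (n : ℝ)) with ht
  have ht0 : 0 < t := Real.sqrt_pos.2 (by positivity)
  have ht2 : t ^ 2 = (s : ℝ) / (n : ℝ) := Real.sq_sqrt (by positivity)
  have hk2 : (Real.sqrt K) ^ 2 = K := Real.sq_sqrt hK0.le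
  -- y = K t^2
  have hy : e * ((s : ℝ) / 3) * (c / (n : ℝ)) = (Real.sqrt K * t) ^ 2 := by
    rw [mul_pow, hk2, ht2, hK]
    ring
  have hy1 : Real.sqrt K * t ≤ 1 := by
    have h5 : (Real.sqrt K * t) ^ 2 ≤ 1 := by
      rw [mul_pow, hk2, ht2]
      rw [mul_div_assoc', div_le_one hn0]
      have : K * s ≤ C * s := by
        apply mul_le_mul_of_nonneg_right _ hs0.le
        rw [hC]
        have : 0 ≤ e * (Real.sqrt K) ^ 3 := by positivity
        linarith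
      linarith
    nlinarith [mul_pos hsK ht0]
  have h6 : (e * ((s : ℝ) / 3)) ^ m * (c / (n : ℝ)) ^ m ≤ ((Real.sqrt K * t) ^ 3) ^ s := by
    rw [← mul_pow, hy, ← pow_mul, ← pow_mul]
    exact pow_le_pow_of_le_one (by positivity) hy1 hm
  calc (n.choose s : ℝ) * ((s.choose 2).choose m : ℝ) * (c / (n : ℝ)) ^ m
      ≤ (e * ((n : ℝ) / (s : ℝ))) ^ s * (e * ((s : ℝ) / 3)) ^ m * (c / (n : ℝ)) ^ m := by
        gcongr
    _ = (e * ((n : ℝ) / (s : ℝ))) ^ s * ((e * ((s : ℝ) / 3)) ^ m * (c / (n : ℝ)) ^ m) := by ring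
    _ ≤ (e * ((n : ℝ) / (s : ℝ))) ^ s * ((Real.sqrt K * t) ^ 3) ^ s := by gcongr
    _ = (e * ((n : ℝ) / (s : ℝ)) * (Real.sqrt K * t) ^ 3) ^ s :=
        (mul_pow _ _ _).symm
    _ ≤ (C * t) ^ s := by
        apply pow_le_pow_left₀ (by positivity)
        have h7 : (n : ℝ) / (s : ℝ) * t ^ 2 = 1 := by
          rw [ht2]; field_simp
        have h8 : e * ((n : ℝ) / (s : ℝ)) * (Real.sqrt K * t) ^ 3 =
            e * (Real.sqrt K) ^ 3 * t * ((n : ℝ) / (s : ℝ) * t ^ 2) := by ring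
        rw [h8, h7, mul_one, hC, add_mul]
        have : 0 ≤ K * t := by positivity
        linarith

end Pool.Agent.H23.RG
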