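import Pool.Agent.H23.RG.Stm

set_option autoImplicit false
open Classical Filter

namespace Pool.Agent.H23.RG

theorem not_part (hTOT : S_TOT) : S_NOT := by
  intro X _ p Q
  have h := hTOT X p
  rw [← h]
  unfold mu
  rw [← Finset.sum_sub_distrib]
  apply Finset.sum_congr rfl
  intro A _
  by_cases hQ : Q A
  · simp [hQ]
  · simp [hQ]

end Pool.Agent.H23.RG
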