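import Pool.Agent.H23.RG.Stm

set_option autoImplicit false
open Classical Filter

namespace Pool.Agent.H23.RG

theorem peel_part (hRGD : S_RGD) (hRGR : S_RGR) : S_PEEL := by
  intro d n M G hM hM5 hno S
  induction hk : S.card using Nat.strong_induction_on generalizing S with
  | _ k ih =>
    intro hS h4 v hv
    subst hk
    have hbig : M ≤ S.card := by
      rcases hno S hS with h | h
      · omega
      · exact h
    by_cases hall : ∀ w ∈ S, d + 1 ≤ (S.filter (G.Adj w)).card
    · intro T hT1 _
      exact hT1 v ⟨S, hv, hall⟩
    · push Not at hall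
      obtain ⟨w, hw, hwd⟩ := hall
      have hR := hRGR d n G S hS (by omega) w hw (by omega)
      have hc : (S.erase w).card = S.card - 1 := Finset.card_erase_of_mem hw
      have hind : ∀ x ∈ S.erase w, Hat d G x :=
        ih (S.erase w).card (by omega) (S.erase w) rfl hR (by omega)
      intro T hT1 hT2
      by_cases hvw : v = w
      · subst hvw
        apply hT2
        refine (hRGD d n G S hS (by omega) v hw).trans (Finset.card_le_card ?_)
        intro x hx
        rw [Finset.mem_filter] at hx ⊢
        refine ⟨?_, hx.2⟩
        exact hind x (Finset.mem_erase.2 ⟨fun h => G.irrefl (h ▸ hx.2), hx.1⟩) T hT1 hT2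
      · exact hind v (Finset.mem_erase.2 ⟨hvw, hv⟩) T hT1 hT2

end Pool.Agent.H23.RG
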