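import Pool.Agent.H23.RG.Stm

set_option autoImplicit false
open Classical Filter

namespace Pool.Agent.H23.RG

theorem prt_part : S_PRT := by
  intro d n G S q u hu
  let qt : ℝ → Fin n → Fin d → ℝ := fun t v j => q v j + t * (if v = u j then 1 else 0)
  have hq0 : qt 0 = q := by
    funext v j
    simp [qt]
  obtain ⟨κ, a, ha, hsp, hli⟩ := exists_linearIndependent' ℝ (RM d G S q).row
  have hfin : Finite κ := Finite.of_injective a ha
  have : Fintype κ := Fintype.ofFinite κ
  have hrow : ∀ q' : Fin n → Fin d → ℝ,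
      LinearIndependent ℝ (fun k => (RM d G S q').row (a k)) →
      (RM d G S q).rank ≤ (RM d G S q').rank := by
    intro q' h
    rw [Matrix.rank_eq_finrank_span_row, Matrix.rank_eq_finrank_span_row, ← hsp,
      finrank_span_eq_card hli, ← finrank_span_eq_card h]
    apply Submodule.finrank_mono
    apply Submodule.span_mono
    rintro _ ⟨k, rfl⟩
    exact ⟨a k, rfl⟩
  have hcont : Continuous (fun t : ℝ => fun k : κ => (RM d G S (qt t)).row (a k)) := by
    refine continuous_pi fun k => continuous_pi fun x => ?_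
    simp only [RM, Matrix.row, Matrix.of_apply, qt]
    split_ifs <;> fun_prop
  have hopen : IsOpen {t : ℝ | LinearIndependent ℝ (fun k : κ => (RM d G S (qt t)).row (a k))} :=
    isOpen_setOf_linearIndependent.preimage hcont
  have h0 : (0 : ℝ) ∈ {t : ℝ | LinearIndependent ℝ (fun k : κ => (RM d G S (qt t)).row (a k))} := by
    simp only [Set.mem_setOf_eq, hq0]
    exact hli
  obtain ⟨ε, hε, hball⟩ := Metric.isOpen_iff.mp hopen 0 h0
  let M : Matrix (Fin d) (Fin d) ℝ := Matrix.of (fun i j => - q (u i) j)
  have hdet : ∀ t : ℝ, (Matrix.of (fun i j => qt t (u i) j) : Matrix (Fin d) (Fin d) ℝ).det =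
      M.charpoly.eval t := by
    intro t
    rw [Matrix.eval_charpoly]
    congr 1
    ext i j
    simp only [Matrix.of_apply, qt, M, Matrix.sub_apply, Matrix.scalar_apply, Matrix.diagonal_apply,
      hu.eq_iff]
    split_ifs <;> ring
  have hinf : (Metric.ball (0 : ℝ) ε).Infinite := by
    rw [Real.ball_eq_Ioo]
    exact Set.Ioo_infinite (by linarith)
  have hroots : {t : ℝ | M.charpoly.eval t = 0}.Finite := by
    have := (M.charpoly.roots.toFinset).finite_toSet
    refine this.subset ?_
    intro t ht
    simp only [Finset.mem_coe, Multiset.mem_toFinset]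
    rw [Polynomial.mem_roots (Matrix.charpoly_monic M).ne_zero]
    exact ht
  obtain ⟨t, ht1, ht2⟩ := hinf.exists_notMem_finite hroots
  refine ⟨qt t, ?_, hrow _ (hball ht1)⟩
  have h1 : (Matrix.of (fun i j => qt t (u i) j) : Matrix (Fin d) (Fin d) ℝ).det ≠ 0 := by
    rw [hdet]
    exact ht2
  have h2 := Matrix.linearIndependent_rows_iff_isUnit.mpr
    ((Matrix.isUnit_iff_isUnit_det _).mpr (isUnit_iff_ne_zero.mpr h1))
  exact h2

end Pool.Agent.H23.RG
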