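import Pool.Agent.H23.RG.Stm

/-! Part RGD of crew RG: degrees in rigid sets (helper16). -/

set_option autoImplicit false
open Classical Filter

namespace Pool.Agent.H23.RG

theorem rgd_part (hRMV : S_RMV) (hTRV : S_TRV) : S_RGD := by
  intro d n G S hR hc v hv
  rcases hR with ⟨h1, _⟩ | ⟨_, q, hq⟩
  · omega
  · have h2 := hRMV d n G S q v hv
    have h3 : (S.erase v).card = S.card - 1 := Finset.card_erase_of_mem hv
    have h4 := hTRV d n G (S.erase v) q (by omega)
    rw [h3] at h4
    have h5 : d * (S.card - 1) + d = d * S.card := by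
      obtain ⟨k, hk⟩ : ∃ k, S.card = k + 1 := ⟨S.card - 1, by omega⟩
      rw [hk, Nat.add_sub_cancel]
      ring
    omega

end Pool.Agent.H23.RG
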