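import Pool.Agent.H23.RG.Stm

set_option autoImplicit false
open Classical Filter

namespace Pool.Agent.H23.RG

theorem rge_part (hRNK : S_RNK) (hCPL : S_CPL) : S_RGE := by
  intro d n hd A S hR h4
  rcases hR with ⟨h1, h2⟩ | ⟨h1, q, hq⟩
  · have h3 := (hCPL n A S).2 h2
    refine ⟨?_, ?_, ?_⟩
    · refine le_trans ?_ h3
      rw [Nat.choose_two_right, Nat.le_div_iff_mul_le (by norm_num)]
      obtain ⟨k, hk⟩ := Nat.exists_eq_add_of_le h4
      rw [hk]
      have : 4 + k - 1 = 3 + k := by omega
      rw [this]
      nlinarith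
    · intro h
      exfalso
      nlinarith
    · intro h
      omega
  · have h3 := le_trans hq (hRNK d n A S q)
    have hev : 2 * (d * (d + 1) / 2) = d * (d + 1) :=
      Nat.mul_div_cancel' (Nat.even_mul_succ_self d).two_dvd
    set D := d * (d + 1) / 2 with hD
    have h5 : d * S.card ≤ eS A S + D := by omega
    refine ⟨?_, ?_, fun _ => h5⟩
    · have h6 : 2 * (S.card + 1) + d * (d + 1) ≤ 2 * (d * S.card) := by
        rcases Nat.lt_or_ge d 3 with hd3 | hd3
        · have : d = 2 := by omega
          subst this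
          omega
        · obtain ⟨k, hk⟩ := Nat.exists_eq_add_of_le hd3
          obtain ⟨l, hl⟩ := Nat.exists_eq_add_of_le h1
          rw [hl, hk]
          nlinarith [Nat.zero_le (k * l), Nat.zero_le (k * k), Nat.zero_le k, Nat.zero_le l]
      omega
    · intro h
      have h6 : 2 * 2 * S.card ≤ 2 * (d * S.card) := by
        nlinarith [Nat.zero_le S.card]
      omega

end Pool.Agent.H23.RG
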