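import Pool.Agent.H23.RG.Stm

/-! Part RGR of crew RG: removing a vertex of small degree from a rigid set (helper16). -/

set_option autoImplicit false
open Classical Filter

namespace Pool.Agent.H23.RG

theorem rgr_part (hRMV : S_RMV) : S_RGR := by
  intro d n G S hR hc v hv hdeg
  rcases hR with ⟨h1, _⟩ | ⟨_, q, hq⟩
  · omega
  · have h2 := hRMV d n G S q v hv
    have h3 : (S.erase v).card = S.card - 1 := Finset.card_erase_of_mem hv
    have h5 : d * (S.card - 1) + d = d * S.card := by
      obtain ⟨k, hk⟩ : ∃ k, S.card = k + 1 := ⟨S.card - 1, by omega⟩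
      rw [hk, Nat.add_sub_cancel]
      ring
    refine Or.inr ⟨by omega, q, ?_⟩
    rw [h3]
    omega

end Pool.Agent.H23.RG
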