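import Pool.Agent.H23.RG.Stm

set_option autoImplicit false
open Classical Filter

namespace Pool.Agent.H23.RG

theorem rmv_part : S_RMV := by
  intro d n G S q v hv
  set M := RM d G S q with hM
  set N := RM d G (S.erase v) q with hN
  rw [Matrix.rank_eq_finrank_span_row, Matrix.rank_eq_finrank_span_row]
  have h1 : Submodule.span ℝ (Set.range M.row) ≤ Submodule.span ℝ (Set.range N.row) ⊔
      Submodule.span ℝ (((S.filter (G.Adj v)).image (fun w => M.row (v, w)) : Finset _) :
        Set (Fin n × Fin d → ℝ)) := by
    refine Submodule.span_le.2 ?_
    rintro _ ⟨e, rfl⟩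
    by_cases he : e.1 ∈ S ∧ e.2 ∈ S ∧ G.Adj e.1 e.2
    · obtain ⟨a1, a2, a3⟩ := he
      by_cases hv1 : e.1 = v
      · apply Submodule.mem_sup_right
        apply Submodule.subset_span
        simp only [Finset.coe_image, Set.mem_image, Finset.mem_coe, Finset.mem_filter]
        refine ⟨e.2, ⟨a2, ?_⟩, ?_⟩
        · rw [← hv1]; exact a3
        · rw [← hv1]
      · by_cases hv2 : e.2 = v
        · apply Submodule.mem_sup_right
          apply Submodule.subset_span
          simp only [Finset.coe_image, Set.mem_image, Finset.mem_coe, Finset.mem_filter]
          refine ⟨e.1, ⟨a1, ?_⟩, ?_⟩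
          · rw [← hv2]; exact a3.symm
          · rw [← hv2]
            funext x
            have ha : G.Adj e.2 e.1 := a3.symm
            have hne : e.1 ≠ e.2 := a3.ne
            simp only [hM, Matrix.row, RM, Matrix.of_apply, a1, a2, a3, ha, and_self, if_true]
            by_cases hx1 : x.1 = e.1
            · have hx2 : x.1 ≠ e.2 := by rw [hx1]; exact hne
              simp [hx1, hne]
            · by_cases hx2 : x.1 = e.2
              · simp [hx2, hne.symm]
              · simp [hx1, hx2]
        · apply Submodule.mem_sup_left
          apply Submodule.subset_span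
          refine ⟨e, ?_⟩
          funext x
          have b1 : e.1 ∈ S.erase v := Finset.mem_erase.2 ⟨hv1, a1⟩
          have b2 : e.2 ∈ S.erase v := Finset.mem_erase.2 ⟨hv2, a2⟩
          simp only [hM, hN, Matrix.row, RM, Matrix.of_apply, a1, a2, a3, b1, b2, and_self,
            if_true]
    · have : M.row e = 0 := by
        funext x
        simp only [hM, Matrix.row, RM, Matrix.of_apply, he, if_false]
        rfl
      rw [this]
      exact Submodule.zero_mem _
  refine (Submodule.finrank_mono h1).trans ?_
  refine (Submodule.finrank_add_le_finrank_add_finrank _ _).trans ?_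
  exact Nat.add_le_add_left ((finrank_span_finset_le_card _).trans Finset.card_image_le) _

end Pool.Agent.H23.RG
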