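import Pool.Agent.H23.RG.Stm

set_option autoImplicit false
open Classical Filter

namespace Pool.Agent.H23.RG

theorem rnk_part : S_RNK := by
  intro d n A S q
  set M := RM d (gr A) S q with hM
  rw [Matrix.rank_eq_finrank_span_row]
  -- rows indexed by the edges in S
  have hsub : ∀ y ∈ Set.range M.row, y ∈
      Submodule.span ℝ (((inS A S).image (fun z : E n => M.row z.1) : Finset _) :
        Set (Fin n × Fin d → ℝ)) := by
    rintro _ ⟨e, rfl⟩
    by_cases he : e.1 ∈ S ∧ e.2 ∈ S ∧ (gr A).Adj e.1 e.2
    · obtain ⟨h1, h2, h3⟩ := he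
      rcases h3 with ⟨h, hA⟩ | ⟨h, hA⟩
      · apply Submodule.subset_span
        simp only [Finset.coe_image, Set.mem_image, Finset.mem_coe]
        refine ⟨⟨(e.1, e.2), h⟩, ?_, rfl⟩
        simp only [inS, Finset.mem_filter]
        exact ⟨hA, h1, h2⟩
      · apply Submodule.subset_span
        simp only [Finset.coe_image, Set.mem_image, Finset.mem_coe]
        refine ⟨⟨(e.2, e.1), h⟩, ?_, ?_⟩
        · simp only [inS, Finset.mem_filter]
          exact ⟨hA, h2, h1⟩
        · funext x
          have ha : (gr A).Adj e.2 e.1 := Or.inl ⟨h, hA⟩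
          have hb : (gr A).Adj e.1 e.2 := ha.symm
          have hne : e.1 ≠ e.2 := hb.ne
          simp only [hM, Matrix.row, RM, Matrix.of_apply, h1, h2, ha, hb, and_self, if_true]
          by_cases hx1 : x.1 = e.1
          · have hx2 : x.1 ≠ e.2 := by rw [hx1]; exact hne
            simp [hx1, hne]
          · by_cases hx2 : x.1 = e.2
            · simp [hx2, hne.symm]
            · simp [hx1, hx2]
    · have : M.row e = 0 := by
        funext x
        simp only [hM, Matrix.row, RM, Matrix.of_apply, he, if_false]
        rfl
      rw [this]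
      exact Submodule.zero_mem _
  have h1 : Submodule.span ℝ (Set.range M.row) ≤
      Submodule.span ℝ (((inS A S).image (fun z : E n => M.row z.1) : Finset _) :
        Set (Fin n × Fin d → ℝ)) :=
    Submodule.span_le.2 hsub
  refine le_trans (Submodule.finrank_mono h1) ?_
  refine le_trans (finrank_span_finset_le_card _) ?_
  exact Finset.card_image_le

end Pool.Agent.H23.RG
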