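import Pool.Agent.H23.RG.Stm

set_option autoImplicit false
open Classical Filter

namespace Pool.Agent.H23.RG

theorem sm_part (hFM : S_FM) : S_SM := by
  intro c s hc
  set K : ℝ := ((s.choose 2).choose (s + 1) : ℝ) with hK
  have hK0 : 0 ≤ K := Nat.cast_nonneg _
  have hlim : Tendsto (fun n : ℕ => K * c ^ (s + 1) / (n : ℝ)) atTop (nhds 0) :=
    tendsto_const_div_atTop_nhds_zero_nat _
  refine tendsto_of_tendsto_of_tendsto_of_le_of_le' tendsto_const_nhds hlim ?_ ?_
  · filter_upwards [eventually_ge_atTop (⌈c⌉₊ + 1)] with n hn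
    have hn0 : (0 : ℝ) < n := by
      have : 1 ≤ n := by omega
      exact_mod_cast this
    have hcn : c ≤ n := (Nat.le_ceil c).trans (by exact_mod_cast (by omega : ⌈c⌉₊ ≤ n))
    have h0 : 0 ≤ c / (n : ℝ) := div_nonneg hc.le hn0.le
    have h1 : c / (n : ℝ) ≤ 1 := (div_le_one hn0).2 hcn
    unfold mu
    refine Finset.sum_nonneg fun A _ => ?_
    split_ifs
    · exact mul_nonneg (pow_nonneg h0 _) (pow_nonneg (by linarith) _)
    · exact le_rfl
  · filter_upwards [eventually_ge_atTop (⌈c⌉₊ + 1)] with n hn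
    have hn0 : (0 : ℝ) < n := by
      have : 1 ≤ n := by omega
      exact_mod_cast this
    have hcn : c ≤ n := (Nat.le_ceil c).trans (by exact_mod_cast (by omega : ⌈c⌉₊ ≤ n))
    have h0 : 0 ≤ c / (n : ℝ) := div_nonneg hc.le hn0.le
    have h1 : c / (n : ℝ) ≤ 1 := (div_le_one hn0).2 hcn
    refine (hFM n s (s + 1) _ h0 h1).trans ?_
    have h2 : (n.choose s : ℝ) ≤ (n : ℝ) ^ s := by
      exact_mod_cast Nat.choose_le_pow n s
    calc (n.choose s : ℝ) * K * (c / (n : ℝ)) ^ (s + 1)
        ≤ (n : ℝ) ^ s * K * (c / (n : ℝ)) ^ (s + 1) := by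
          apply mul_le_mul_of_nonneg_right _ (pow_nonneg h0 _)
          exact mul_le_mul_of_nonneg_right h2 hK0
      _ = K * c ^ (s + 1) / (n : ℝ) := by
          rw [div_pow]
          field_simp
          ring

end Pool.Agent.H23.RG
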