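import Pool.Agent.H23.RG.Stm

/-!
Part SPR of the crew RG (MP_264ef2_co): sprinkling identity.
-/

set_option autoImplicit false
open Classical Filter

namespace Pool.Agent.H23.RG

lemma spr_mob {X : Type} [Fintype X] (f g : Finset X → ℝ)
    (h : ∀ C : Finset X, ∑ D ∈ C.powerset, f D = ∑ D ∈ C.powerset, g D) (C : Finset X) :
    f C = g C := by
  induction C using Finset.strongInduction with
  | H C ih =>
    have h1 := h C
    rw [← Finset.add_sum_erase _ f (Finset.mem_powerset_self C),
      ← Finset.add_sum_erase _ g (Finset.mem_powerset_self C)] at h1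
    have h2 : ∑ D ∈ C.powerset.erase C, f D = ∑ D ∈ C.powerset.erase C, g D := by
      refine Finset.sum_congr rfl fun D hD => ?_
      rw [Finset.mem_erase, Finset.mem_powerset] at hD
      exact ih D (Finset.ssubset_iff_subset_ne.2 ⟨hD.2, hD.1⟩)
    rw [h2] at h1
    exact add_right_cancel h1

lemma spr_sub {X : Type} [Fintype X] (p : ℝ) (C : Finset X) :
    ∑ A ∈ C.powerset, wt p A = (1 - p) ^ (Fintype.card X - C.card) := by
  have h1 : ∀ A ∈ C.powerset, wt p A =
      (p ^ A.card * (1 - p) ^ (C.card - A.card)) * (1 - p) ^ (Fintype.card X - C.card) := by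
    intro A hA
    have hAC := Finset.card_le_card (Finset.mem_powerset.1 hA)
    have hC := Finset.card_le_univ C
    unfold wt
    rw [mul_assoc, ← pow_add]
    congr 2
    omega
  rw [Finset.sum_congr rfl h1, ← Finset.sum_mul, Finset.sum_pow_mul_eq_add_pow]
  rw [add_sub_cancel, one_pow, one_mul]

lemma spr_key {X : Type} [Fintype X] (p q : ℝ) (C : Finset X) :
    (∑ A : Finset X, ∑ B : Finset X, if A ∪ B = C then wt p A * wt q B else 0) =
      wt (1 - (1 - p) * (1 - q)) C := by
  refine spr_mob (fun C => ∑ A : Finset X, ∑ B : Finset X,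
    if A ∪ B = C then wt p A * wt q B else 0) (fun C => wt (1 - (1 - p) * (1 - q)) C) ?_ C
  intro C
  rw [spr_sub, sub_sub_cancel, mul_pow, ← spr_sub, ← spr_sub, Finset.sum_mul_sum]
  rw [Finset.sum_comm]
  have h2 : ∀ A : Finset X, ∑ D ∈ C.powerset, ∑ B : Finset X,
      (if A ∪ B = D then wt p A * wt q B else 0) =
      if A ∈ C.powerset then ∑ B ∈ C.powerset, wt p A * wt q B else 0 := by
    intro A
    rw [Finset.sum_comm]
    have h3 : ∀ B : Finset X, ∑ D ∈ C.powerset, (if A ∪ B = D then wt p A * wt q B else 0) =
        if A ∪ B ∈ C.powerset then wt p A * wt q B else 0 := by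
      intro B
      rw [Finset.sum_ite_eq]
    simp_rw [h3, Finset.mem_powerset, Finset.union_subset_iff]
    by_cases hA : A ⊆ C
    · rw [if_pos hA]
      simp only [hA, true_and]
      rw [← Finset.sum_filter]
      refine Finset.sum_congr ?_ fun _ _ => rfl
      ext B
      simp
    · rw [if_neg hA]
      simp [hA]
  simp_rw [h2]
  rw [← Finset.sum_filter]
  refine Finset.sum_congr ?_ fun _ _ => rfl
  ext A
  simp

theorem spr_part : S_SPR := by
  intro X _ p q Q
  unfold mu
  calc (∑ D : Finset X, if Q D then wt (1 - (1 - p) * (1 - q)) D else 0)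
      = ∑ D : Finset X, ∑ A : Finset X, ∑ B : Finset X,
          if A ∪ B = D then (if Q D then wt p A * wt q B else 0) else 0 := by
        refine Finset.sum_congr rfl fun D _ => ?_
        by_cases hD : Q D
        · simp only [hD, if_true]
          exact (spr_key p q D).symm
        · simp [hD]
    _ = ∑ A : Finset X, ∑ B : Finset X, ∑ D : Finset X,
          if A ∪ B = D then (if Q D then wt p A * wt q B else 0) else 0 := by
        rw [Finset.sum_comm]
        refine Finset.sum_congr rfl fun A _ => ?_
        rw [Finset.sum_comm]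
    _ = ∑ A : Finset X, wt p A * ∑ B : Finset X, if Q (A ∪ B) then wt q B else 0 := by
        refine Finset.sum_congr rfl fun A _ => ?_
        rw [Finset.mul_sum]
        refine Finset.sum_congr rfl fun B _ => ?_
        rw [Finset.sum_ite_eq, if_pos (Finset.mem_univ _)]
        split_ifs
        · rfl
        · rw [mul_zero]

end Pool.Agent.H23.RG
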