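import Pool.Agent.H23.RG.Stm

set_option autoImplicit false
open Classical Filter

namespace Pool.Agent.H23.RG

theorem sub_part : S_SUB := by
  intro X _ p F
  unfold mu
  trans (∑ A : Finset X, if F ⊆ A then wt p A else 0)
  · apply Finset.sum_congr rfl
    intro A _
    by_cases h : F ⊆ A
    · simp [h]
    · simp [h]
  rw [← Finset.sum_filter]
  have key : ∑ A ∈ (Finset.univ : Finset (Finset X)).filter (fun A => F ⊆ A), wt p A =
      ∑ B ∈ (Fᶜ).powerset, p ^ F.card * (p ^ B.card * (1 - p) ^ ((Fᶜ).card - B.card)) := by
    refine Finset.sum_bij' (fun A _ => A \ F) (fun B _ => F ∪ B) ?_ ?_ ?_ ?_ ?_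
    · intro A hA
      rw [Finset.mem_powerset]
      intro x hx
      rw [Finset.mem_sdiff] at hx
      rw [Finset.mem_compl]
      exact hx.2
    · intro B hB
      rw [Finset.mem_filter]
      exact ⟨Finset.mem_univ _, Finset.subset_union_left⟩
    · intro A hA
      rw [Finset.mem_filter] at hA
      show F ∪ (A \ F) = A
      rw [Finset.union_sdiff_of_subset hA.2]
    · intro B hB
      rw [Finset.mem_powerset] at hB
      show (F ∪ B) \ F = B
      ext x
      simp only [Finset.mem_sdiff, Finset.mem_union]
      constructor
      · rintro ⟨h1 | h1, h2⟩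
        · exact absurd h1 h2
        · exact h1
      · intro hx
        exact ⟨Or.inr hx, Finset.mem_compl.mp (hB hx)⟩
    · intro A hA
      rw [Finset.mem_filter] at hA
      have h1 : (A \ F).card = A.card - F.card := Finset.card_sdiff_of_subset hA.2
      have h2 : F.card ≤ A.card := Finset.card_le_card hA.2
      have h3 : A.card ≤ Fintype.card X := Finset.card_le_univ A
      have h4 : (Fᶜ).card = Fintype.card X - F.card := Finset.card_compl F
      show wt p A = p ^ F.card * (p ^ (A \ F).card * (1 - p) ^ ((Fᶜ).card - (A \ F).card))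
      unfold wt
      rw [h1, h4]
      have h5 : Fintype.card X - F.card - (A.card - F.card) = Fintype.card X - A.card := by omega
      rw [h5, ← mul_assoc, ← pow_add]
      have h6 : F.card + (A.card - F.card) = A.card := by omega
      rw [h6]
  rw [key, ← Finset.mul_sum, Finset.sum_pow_mul_eq_add_pow]
  simp

end Pool.Agent.H23.RG
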