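import Pool.Agent.H23.RG.Stm

/-! Crew RG, part TAIL (helper10): the tail bound, from the exponential moment. -/

set_option autoImplicit false

namespace Pool.Agent.H23.RG

theorem t_TAIL (hE : S_EXP) : S_TAIL := by
  classical
  intro κ δ η K hκ hδ hη
  obtain ⟨N, hN⟩ := exists_nat_ge ((2 : ℝ) ^ (K + 1) / (δ * κ * η))
  refine ⟨N + 1, fun n hn Y hY q hq hq1 => ?_⟩
  have hn0 : (0 : ℝ) < n := by exact_mod_cast (by omega : 0 < n)
  have hq0 : 0 ≤ q := le_trans (by positivity) hq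
  have hE' : ∑ B : Finset (E n), wt q B * (1 / 2 : ℝ) ^ (B ∩ Y).card = (1 - q / 2) ^ Y.card := by
    refine (Finset.sum_congr rfl fun B _ => ?_).trans (hE (E n) q Y)
    have hCD : ∀ C D : Finset (E n), C = D →
        wt q B * (1 / 2 : ℝ) ^ C.card = wt q B * (1 / 2 : ℝ) ^ D.card := by
      rintro C _ rfl
      rfl
    exact hCD _ _ (by ext x; simp only [Finset.mem_inter])
  have h1 : mu q (fun B : Finset (E n) => (B ∩ Y).card ≤ K) ≤ 2 ^ K * (1 - q / 2) ^ Y.card := by
    unfold mu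
    rw [← hE', Finset.mul_sum]
    apply Finset.sum_le_sum
    intro B _
    have hw : 0 ≤ wt q B := by
      unfold wt
      exact mul_nonneg (pow_nonneg hq0 _) (pow_nonneg (by linarith) _)
    split_ifs with h
    · have h2 : (1 : ℝ) ≤ 2 ^ K * (1 / 2) ^ (B ∩ Y).card := by
        have h3 : (1 / 2 : ℝ) ^ K ≤ (1 / 2) ^ (B ∩ Y).card :=
          pow_le_pow_of_le_one (by norm_num) (by norm_num) h
        calc (1 : ℝ) = 2 ^ K * (1 / 2) ^ K := by rw [← mul_pow]; norm_num
          _ ≤ _ := by gcongr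
      calc wt q B = wt q B * 1 := (mul_one _).symm
        _ ≤ wt q B * (2 ^ K * (1 / 2) ^ (B ∩ Y).card) := by gcongr
        _ = _ := by ring
    · positivity
  have h4 : (1 - q / 2) ^ Y.card ≤ Real.exp (-(δ * κ * n / 2)) := by
    have h5 : 1 - q / 2 ≤ Real.exp (-(q / 2)) := by
      have := Real.add_one_le_exp (-(q / 2)); linarith
    calc (1 - q / 2) ^ Y.card ≤ (Real.exp (-(q / 2))) ^ Y.card :=
          pow_le_pow_left₀ (by linarith) h5 _
      _ = Real.exp (-(q * Y.card / 2)) := by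
          rw [← Real.exp_nat_mul]; congr 1; ring
      _ ≤ Real.exp (-(δ * κ * n / 2)) := by
          apply Real.exp_le_exp.2
          have h6 : δ / n * (κ * (n : ℝ) ^ 2) ≤ q * Y.card := by gcongr
          have h7 : δ / n * (κ * (n : ℝ) ^ 2) = δ * κ * n := by field_simp
          linarith
  have h8 : Real.exp (-(δ * κ * n / 2)) ≤ η / 2 ^ K := by
    have hx : 0 < δ * κ * n / 2 := by positivity
    have h9 : δ * κ * n / 2 ≤ Real.exp (δ * κ * n / 2) := by
      have := Real.add_one_le_exp (δ * κ * n / 2); linarith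
    rw [Real.exp_neg]
    have h10 : (2 : ℝ) ^ K / η ≤ δ * κ * n / 2 := by
      have h11 : (N : ℝ) ≤ n := by exact_mod_cast (by omega : N ≤ n)
      have h12 : (2 : ℝ) ^ (K + 1) / (δ * κ * η) ≤ n := hN.trans h11
      rw [div_le_iff₀ (by positivity)] at h12
      rw [div_le_iff₀ hη]
      have : (2 : ℝ) ^ (K + 1) = 2 * 2 ^ K := by ring
      nlinarith
    calc (Real.exp (δ * κ * n / 2))⁻¹ ≤ ((2 : ℝ) ^ K / η)⁻¹ := by
          apply inv_anti₀ (by positivity) (h10.trans h9)
      _ = η / 2 ^ K := by rw [inv_div]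
  calc mu q (fun B : Finset (E n) => (B ∩ Y).card ≤ K) ≤ 2 ^ K * (1 - q / 2) ^ Y.card := h1
    _ ≤ 2 ^ K * (η / 2 ^ K) := by gcongr; exact h4.trans h8
    _ = η := by field_simp

end Pool.Agent.H23.RG
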