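import Pool.Agent.H23.RG.Stm

set_option autoImplicit false
open Classical Filter

namespace Pool.Agent.H23.RG

theorem tot_part : S_TOT := by
  intro X _ p
  unfold mu wt
  simp only [if_true]
  rw [Fintype.sum_pow_mul_eq_add_pow]
  simp

end Pool.Agent.H23.RG
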