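import Pool.Agent.H23.RG.Stm

set_option autoImplicit false
open Classical Filter

namespace Pool.Agent.H23.RG

/-- pairs `k < l` -/
abbrev TT (d : ℕ) := {p : Fin d × Fin d // p.1 < p.2}

noncomputable def tE {d : ℕ} (m : TT d → ℝ) (k l : Fin d) : ℝ :=
  if h : k < l then m ⟨(k, l), h⟩ else 0

theorem tE_add {d : ℕ} (m m' : TT d → ℝ) (k l : Fin d) :
    tE (m + m') k l = tE m k l + tE m' k l := by
  unfold tE; split_ifs <;> simp

theorem tE_smul {d : ℕ} (c : ℝ) (m : TT d → ℝ) (k l : Fin d) :
    tE (c • m) k l = c * tE m k l := by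
  unfold tE; split_ifs <;> simp

noncomputable def tsk {d : ℕ} (m : TT d → ℝ) (k l : Fin d) : ℝ := tE m k l - tE m l k

theorem tsk_sum {d : ℕ} (m : TT d → ℝ) (c : Fin d → ℝ) :
    ∑ k, c k * ∑ l, tsk m k l * c l = 0 := by
  have h1 : ∑ k, c k * ∑ l, tsk m k l * c l =
      (∑ k, ∑ l, c k * tE m k l * c l) - ∑ k, ∑ l, c k * tE m l k * c l := by
    rw [← Finset.sum_sub_distrib]
    apply Finset.sum_congr rfl
    intro k _
    rw [← Finset.sum_sub_distrib, Finset.mul_sum]
    apply Finset.sum_congr rfl
    intro l _
    unfold tsk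
    ring
  rw [h1]
  have h2 : ∑ k, ∑ l, c k * tE m l k * c l = ∑ k, ∑ l, c k * tE m k l * c l := by
    rw [Finset.sum_comm]
    apply Finset.sum_congr rfl
    intro k _
    apply Finset.sum_congr rfl
    intro l _
    ring
  rw [h2, sub_self]

theorem card_TT (d : ℕ) : Fintype.card (TT d) + d = d * (d + 1) / 2 := by
  have h1 : Fintype.card (TT d) = (Finset.univ.filter (fun p : Fin d × Fin d => p.1 < p.2)).card :=
    Fintype.card_subtype _
  have h2 : (Finset.univ.filter (fun p : Fin d × Fin d => p.2 < p.1)).card =
      (Finset.univ.filter (fun p : Fin d × Fin d => p.1 < p.2)).card := by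
    apply Finset.card_bij (fun p _ => (p.2, p.1))
    · intro p hp
      simp only [Finset.mem_filter, Finset.mem_univ, true_and] at hp ⊢
      exact hp
    · rintro ⟨a, b⟩ _ ⟨a', b'⟩ _ h
      simp only [Prod.mk.injEq] at h ⊢
      exact ⟨h.2, h.1⟩
    · rintro ⟨a, b⟩ hp
      refine ⟨(b, a), ?_, rfl⟩
      simp only [Finset.mem_filter, Finset.mem_univ, true_and] at hp ⊢
      exact hp
  have h3 : (Finset.univ.filter (fun p : Fin d × Fin d => p.1 = p.2)).card = d := by
    have : (Finset.univ.filter (fun p : Fin d × Fin d => p.1 = p.2)) =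
        (Finset.univ : Finset (Fin d)).image (fun a => (a, a)) := by
      ext ⟨a, b⟩
      simp only [Finset.mem_filter, Finset.mem_univ, true_and, Finset.mem_image, Prod.mk.injEq]
      constructor
      · rintro rfl; exact ⟨a, rfl, rfl⟩
      · rintro ⟨x, rfl, rfl⟩; rfl
    rw [this, Finset.card_image_of_injective _ (fun a b h => by simpa using h), Finset.card_univ,
      Fintype.card_fin]
  have h4 : (Finset.univ.filter (fun p : Fin d × Fin d => p.1 < p.2)).card +
      ((Finset.univ.filter (fun p : Fin d × Fin d => p.2 < p.1)).card +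
      (Finset.univ.filter (fun p : Fin d × Fin d => p.1 = p.2)).card) = d * d := by
    have e1 : (Finset.univ.filter (fun p : Fin d × Fin d => p.2 < p.1)).card +
      (Finset.univ.filter (fun p : Fin d × Fin d => p.1 = p.2)).card =
      (Finset.univ.filter (fun p : Fin d × Fin d => ¬ p.1 < p.2)).card := by
      rw [← Finset.card_union_of_disjoint]
      · congr 1
        ext p
        simp only [Finset.mem_union, Finset.mem_filter, Finset.mem_univ, true_and, not_lt]
        constructor
        · rintro (h | h)
          · exact h.le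
          · exact h.ge
        · intro h
          rcases h.lt_or_eq with h | h
          · exact Or.inl h
          · exact Or.inr h.symm
      · rw [Finset.disjoint_filter]
        intro p _ h h'
        rw [h'] at h
        exact lt_irrefl _ h
    rw [e1, Finset.card_filter_add_card_filter_not, Finset.card_univ, Fintype.card_prod,
      Fintype.card_fin]
  rw [h1]
  rw [h2, h3] at h4
  have h5 : d * (d + 1) = 2 * ((Finset.univ.filter (fun p : Fin d × Fin d => p.1 < p.2)).card + d) := by
    nlinarith
  rw [h5]
  omega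

/-- the trivial motions and the motions outside `S` -/
noncomputable def tPhi {d n : ℕ} (S : Finset (Fin n)) (q : Fin n → Fin d → ℝ) :
    ((TT d → ℝ) × ({x : Fin n // x ∉ S} × Fin d → ℝ) × (Fin d → ℝ)) →ₗ[ℝ]
      (Fin n × Fin d → ℝ) where
  toFun w := fun x => if h : x.1 ∈ S then (∑ l, tsk w.1 x.2 l * q x.1 l) + w.2.2 x.2
    else w.2.1 (⟨x.1, h⟩, x.2)
  map_add' := by
    intro w w'
    funext x
    by_cases h : x.1 ∈ S
    · simp only [h, dif_pos, Pi.add_apply, Prod.fst_add, Prod.snd_add, tsk, tE_add]
      have : ∑ l, (tE w.1 x.2 l + tE w'.1 x.2 l - (tE w.1 l x.2 + tE w'.1 l x.2)) * q x.1 l =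
          (∑ l, (tE w.1 x.2 l - tE w.1 l x.2) * q x.1 l) +
          ∑ l, (tE w'.1 x.2 l - tE w'.1 l x.2) * q x.1 l := by
        rw [← Finset.sum_add_distrib]
        apply Finset.sum_congr rfl
        intro l _
        ring
      rw [this]
      ring
    · simp only [h, dif_neg, not_false_eq_true, Pi.add_apply, Prod.fst_add, Prod.snd_add]
  map_smul' := by
    intro c w
    funext x
    by_cases h : x.1 ∈ S
    · simp only [h, dif_pos, Pi.smul_apply, Prod.smul_fst, Prod.smul_snd, tsk, tE_smul,
        smul_eq_mul, RingHom.id_apply]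
      rw [mul_add, Finset.mul_sum]
      congr 1
      apply Finset.sum_congr rfl
      intro l _
      ring
    · simp only [h, dif_neg, not_false_eq_true, Pi.smul_apply, Prod.smul_fst, Prod.smul_snd,
        RingHom.id_apply]

theorem tPhi_mem {d n : ℕ} (G : SimpleGraph (Fin n)) (S : Finset (Fin n))
    (q : Fin n → Fin d → ℝ) (w) : tPhi S q w ∈ LinearMap.ker (RM d G S q).mulVecLin := by
  rw [LinearMap.mem_ker, Matrix.mulVecLin_apply]
  funext e
  show ∑ x, RM d G S q e x * tPhi S q w x = 0
  by_cases he : e.1 ∈ S ∧ e.2 ∈ S ∧ G.Adj e.1 e.2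
  · have hne : e.1 ≠ e.2 := he.2.2.ne
    have h1 : ∀ x : Fin n × Fin d, RM d G S q e x * tPhi S q w x =
        (if x.1 = e.1 then (q e.1 x.2 - q e.2 x.2) * tPhi S q w (e.1, x.2) else 0) +
        (if x.1 = e.2 then - ((q e.1 x.2 - q e.2 x.2) * tPhi S q w (e.2, x.2)) else 0) := by
      rintro ⟨a, k⟩
      simp only [RM, Matrix.of_apply]
      rw [if_pos he]
      by_cases ha : a = e.1
      · subst ha
        simp [hne]
      · by_cases hb : a = e.2
        · subst hb
          simp [ha]
          ring
        · simp [ha, hb]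
    rw [Finset.sum_congr rfl (fun x _ => h1 x), Finset.sum_add_distrib, Fintype.sum_prod_type,
      Fintype.sum_prod_type]
    simp only [Finset.sum_ite_irrel, Finset.sum_const_zero, Finset.sum_ite_eq', Finset.mem_univ,
      if_true]
    rw [← Finset.sum_add_distrib]
    have h2 : ∀ k : Fin d, (q e.1 k - q e.2 k) * tPhi S q w (e.1, k) +
        - ((q e.1 k - q e.2 k) * tPhi S q w (e.2, k)) =
        (q e.1 k - q e.2 k) * ∑ l, tsk w.1 k l * (q e.1 l - q e.2 l) := by
      intro k
      have e1 : tPhi S q w (e.1, k) = (∑ l, tsk w.1 k l * q e.1 l) + w.2.2 k := by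
        show (if h : e.1 ∈ S then _ else _) = _
        rw [dif_pos he.1]
      have e2 : tPhi S q w (e.2, k) = (∑ l, tsk w.1 k l * q e.2 l) + w.2.2 k := by
        show (if h : e.2 ∈ S then _ else _) = _
        rw [dif_pos he.2.1]
      have e3 : ∑ l, tsk w.1 k l * (q e.1 l - q e.2 l) =
          (∑ l, tsk w.1 k l * q e.1 l) - ∑ l, tsk w.1 k l * q e.2 l := by
        rw [← Finset.sum_sub_distrib]
        apply Finset.sum_congr rfl
        intro l _
        ring
      rw [e1, e2, e3]
      ring
    rw [Finset.sum_congr rfl (fun k _ => h2 k)]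
    exact tsk_sum w.1 (fun k => q e.1 k - q e.2 k)
  · apply Finset.sum_eq_zero
    intro x _
    simp only [RM, Matrix.of_apply]
    rw [if_neg he, zero_mul]

theorem tri_part : S_TRI := by
  intro d n G S q u hu huS hli
  -- Q invertible
  set Q : Matrix (Fin d) (Fin d) ℝ := Matrix.of (fun i => q (u i)) with hQ
  have hunit : IsUnit Q := by
    rw [← Matrix.linearIndependent_rows_iff_isUnit]
    exact hli
  have hdet : Q.det ≠ 0 := ((Matrix.isUnit_iff_isUnit_det _).1 hunit).ne_zero
  have hinj : Function.Injective (tPhi S q) := by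
    rw [← LinearMap.ker_eq_bot, LinearMap.ker_eq_bot']
    rintro ⟨m, f, b⟩ hw
    have hS : ∀ i k, (∑ l, tsk m k l * q (u i) l) + b k = 0 := by
      intro i k
      have := congrFun hw (u i, k)
      have e1 : tPhi S q (m, f, b) (u i, k) = (∑ l, tsk m k l * q (u i) l) + b k := by
        show (if h : u i ∈ S then _ else _) = _
        rw [dif_pos (huS i)]
      rw [e1] at this
      exact this
    have hf : f = 0 := by
      funext x
      have := congrFun hw (x.1.1, x.2)
      have e1 : tPhi S q (m, f, b) (x.1.1, x.2) = f x := by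
        show (if h : x.1.1 ∈ S then _ else _) = _
        rw [dif_neg x.1.2]
      rw [e1] at this
      exact this
    have hb : b = 0 := by
      apply Matrix.eq_zero_of_mulVec_eq_zero hdet
      funext i
      show ∑ k, q (u i) k * b k = 0
      have h1 : ∑ k, q (u i) k * ((∑ l, tsk m k l * q (u i) l) + b k) = 0 := by
        apply Finset.sum_eq_zero
        intro k _
        rw [hS i k, mul_zero]
      have h2 := tsk_sum m (fun k => q (u i) k)
      simp only [mul_add] at h1
      rw [Finset.sum_add_distrib] at h1
      linarith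
    have hsk : ∀ k, (fun l => tsk m k l) = 0 := by
      intro k
      apply Matrix.eq_zero_of_mulVec_eq_zero hdet
      funext i
      show ∑ l, q (u i) l * tsk m k l = 0
      have h1 := hS i k
      rw [hb] at h1
      simp only [Pi.zero_apply, add_zero] at h1
      rw [← h1]
      apply Finset.sum_congr rfl
      intro l _
      ring
    have hm : m = 0 := by
      funext p
      have h1 := congrFun (hsk p.1.1) p.1.2
      have h2 : tsk m p.1.1 p.1.2 = m p := by
        unfold tsk tE
        rw [dif_pos p.2, dif_neg (not_lt.2 p.2.le), sub_zero]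
      simp only [Pi.zero_apply] at h1
      rw [h2] at h1
      exact h1
    rw [hm, hf, hb]
    rfl
  have hfin : Module.finrank ℝ ((TT d → ℝ) × ({x : Fin n // x ∉ S} × Fin d → ℝ) × (Fin d → ℝ)) ≤
      Module.finrank ℝ (LinearMap.ker (RM d G S q).mulVecLin) := by
    apply LinearMap.finrank_le_finrank_of_injective
      (f := LinearMap.codRestrict (LinearMap.ker (RM d G S q).mulVecLin) (tPhi S q)
        (tPhi_mem G S q))
    intro a b hab
    apply hinj
    exact congrArg Subtype.val hab
  have hrk := LinearMap.finrank_range_add_finrank_ker (RM d G S q).mulVecLin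
  rw [Module.finrank_prod, Module.finrank_prod, Module.finrank_fintype_fun_eq_card,
    Module.finrank_fintype_fun_eq_card, Module.finrank_fintype_fun_eq_card, Fintype.card_prod,
    Fintype.card_fin] at hfin
  rw [Module.finrank_fintype_fun_eq_card, Fintype.card_prod, Fintype.card_fin,
    Fintype.card_fin] at hrk
  have hc : Fintype.card {x : Fin n // x ∉ S} = n - S.card := by
    rw [Fintype.card_subtype_compl, Fintype.card_fin, Fintype.card_coe]
  rw [hc] at hfin
  have hSn : S.card ≤ n := by
    have := Finset.card_le_univ S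
    rwa [Fintype.card_fin] at this
  have hT := card_TT d
  have hr : (RM d G S q).rank = Module.finrank ℝ (LinearMap.range (RM d G S q).mulVecLin) := rfl
  rw [hr, ← hT]
  obtain ⟨t, ht⟩ := Nat.exists_eq_add_of_le hSn
  have h1 : n - S.card = t := by omega
  rw [h1] at hfin
  have h2 : n * d = d * S.card + t * d := by
    have h3 := congrArg (fun z => z * d) ht
    exact h3.trans (by ring)
  omega

end Pool.Agent.H23.RG
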