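import Pool.Agent.H23.RG.Stm

set_option autoImplicit false
open Classical Filter

namespace Pool.Agent.H23.RG

theorem trv_part (hTRI : S_TRI) (hPRT : S_PRT) : S_TRV := by
  intro d n G S q hd
  obtain ⟨t, hts, htc⟩ := Finset.exists_subset_card_eq hd
  let u : Fin d → Fin n := fun i => t.orderEmbOfFin htc i
  have hu : Function.Injective u := (t.orderEmbOfFin htc).injective
  have huS : ∀ i, u i ∈ S := fun i => hts (Finset.orderEmbOfFin_mem t htc i)
  obtain ⟨q', hq1, hq2⟩ := hPRT d n G S q u hu
  have h := hTRI d n G S q' u hu huS hq1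
  omega

end Pool.Agent.H23.RG
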