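import Pool.Agent.H23.RG.Stm

set_option autoImplicit false
open Classical Filter

namespace Pool.Agent.H23.RG

theorem uni_part : S_UNI := by
  intro X _ p hp0 hp1 I s Q
  have hw : ∀ A : Finset X, 0 ≤ wt p A := fun A =>
    mul_nonneg (pow_nonneg hp0 _) (pow_nonneg (by linarith) _)
  unfold mu
  rw [Finset.sum_comm]
  refine Finset.sum_le_sum fun A _ => ?_
  by_cases h : ∃ i ∈ s, Q i A
  · rw [if_pos h]
    obtain ⟨i, hi, hQ⟩ := h
    calc wt p A = (if Q i A then wt p A else 0) := by rw [if_pos hQ]
      _ ≤ ∑ i ∈ s, (if Q i A then wt p A else 0) :=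
        Finset.single_le_sum (f := fun i => if Q i A then wt p A else 0)
          (fun j _ => by
            show 0 ≤ (if Q j A then wt p A else 0)
            split_ifs
            · exact hw A
            · exact le_rfl) hi
  · rw [if_neg h]
    refine Finset.sum_nonneg fun j _ => ?_
    split_ifs
    · exact hw A
    · exact le_rfl

end Pool.Agent.H23.RG
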