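import Pool.Agent.H23.RG.FIN
import Pool.Agent.H23.RG.ALL
import Pool.Agent.H23.RG.CONH
import Pool.Agent.H23.RG.CPL
import Pool.Agent.H23.RG.DEG
import Pool.Agent.H23.RG.DIC
import Pool.Agent.H23.RG.EDG
import Pool.Agent.H23.RG.EXP
import Pool.Agent.H23.RG.FM
import Pool.Agent.H23.RG.GIA
import Pool.Agent.H23.RG.LR1
import Pool.Agent.H23.RG.LRG
import Pool.Agent.H23.RG.MID
import Pool.Agent.H23.RG.MIN
import Pool.Agent.H23.RG.MON
import Pool.Agent.H23.RG.MS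
import Pool.Agent.H23.RG.MT
import Pool.Agent.H23.RG.NOT
import Pool.Agent.H23.RG.PEEL
import Pool.Agent.H23.RG.PRT
import Pool.Agent.H23.RG.RGD
import Pool.Agent.H23.RG.RGE
import Pool.Agent.H23.RG.RGR
import Pool.Agent.H23.RG.RMV
import Pool.Agent.H23.RG.RNK
import Pool.Agent.H23.RG.SM
import Pool.Agent.H23.RG.SPR
import Pool.Agent.H23.RG.SUB
import Pool.Agent.H23.RG.TAIL
import Pool.Agent.H23.RG.TOT
import Pool.Agent.H23.RG.TRI
import Pool.Agent.H23.RG.TRN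
import Pool.Agent.H23.RG.TRV
import Pool.Agent.H23.RG.UNI

set_option autoImplicit false
open Classical Filter

namespace Pool.Agent.H23.RG

theorem p_TOT : S_TOT := tot_part
theorem p_MON : S_MON := mon_part
theorem p_NOT : S_NOT := not_part p_TOT
theorem p_UNI : S_UNI := uni_part
theorem p_SUB : S_SUB := sub_part
theorem p_SPR : S_SPR := spr_part
theorem p_EXP : S_EXP := exp_part
theorem p_TAIL : S_TAIL := t_TAIL p_EXP
theorem p_TRN : S_TRN := t_TRN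
theorem p_EDG : S_EDG := edg_part
theorem p_ALL : S_ALL := all_part
theorem p_DEG : S_DEG := deg_part
theorem p_CPL : S_CPL := cpl_part p_ALL
theorem p_MIN : S_MIN := min_part p_DEG
theorem p_RNK : S_RNK := rnk_part
theorem p_RMV : S_RMV := rmv_part
theorem p_TRI : S_TRI := tri_part
theorem p_PRT : S_PRT := prt_part
theorem p_TRV : S_TRV := trv_part p_TRI p_PRT
theorem p_RGE : S_RGE := rge_part p_RNK p_CPL
theorem p_RGD : S_RGD := rgd_part p_RMV p_TRV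
theorem p_RGR : S_RGR := rgr_part p_RMV
theorem p_PEEL : S_PEEL := peel_part p_RGD p_RGR
theorem p_FM : S_FM := fm_part p_MON p_UNI p_SUB p_ALL
theorem p_SM : S_SM := sm_part p_FM
theorem p_MT : S_MT := mt_part
theorem p_MS : S_MS := ms_part
theorem p_MID : S_MID := mid_part p_FM p_MON p_UNI p_MT p_MS
theorem p_DIC : S_DIC := dic_part p_MON p_UNI p_MID p_SM p_RGE
theorem p_CON : S_CON := con_part p_MON p_DIC p_PEEL
theorem p_GIA : S_GIA := gia_part p_MON p_TOT p_UNI p_MIN p_MID p_ALL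
theorem p_LR1 : S_LR1 := lr1_part p_RGE p_ALL
theorem p_LRG : S_LRG := lrg_part p_TOT p_MON p_NOT p_SPR p_TAIL p_LR1

theorem T1 (d : ℕ) (c : ℝ) (hd : 2 ≤ d) (hc : 0 < c) :
    ∃ ε : ℝ, 0 < ε ∧ AAS c (fun n G => ∀ S : Finset (Fin n), Rig d G S →
      S.card ≤ 3 ∨ (ε * (n : ℝ) < (S.card : ℝ) ∧ S ⊆ hatF d G)) :=
  t1 p_MON p_NOT p_TRN p_DIC p_CON d c hd hc

theorem T2 (d : ℕ) (c c' : ℝ) (hd : 2 ≤ d) (hc : 0 < c) (hcc : c < c')
    (h : AAS c' (fun n G => Sparse d G)) :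
    AAS c (fun n G => ∀ S : Finset (Fin n), Rig d G S → S.card ≤ 3) :=
  t2 p_MON p_NOT p_TRN p_EDG p_DIC p_LRG d c c' hd hc hcc h

theorem T3 (d : ℕ) (c : ℝ) (hd : 2 ≤ d) (hc : 0 < c)
    (h : Tendsto (fun n : ℕ => P n (c / (n : ℝ)) (fun G => Sparse d G)) atTop (nhds 0)) :
    ∃ ε : ℝ, 0 < ε ∧ AAS c (fun n G => ε * (n : ℝ) ≤ ((hatF d G).card : ℝ)) :=
  t3 p_NOT p_TRN p_EDG p_GIA d c hd hc h

theorem T4 (d : ℕ) (c : ℝ) (hd : 2 ≤ d) (hc : 0 < c)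
    (h : ∃ ε : ℝ, 0 < ε ∧ AAS c (fun n G => ε * (n : ℝ) ≤ ((hatF d G).card : ℝ)))
    (hr : AAS c (fun n G => Rig d G (hatF d G))) :
    AAS c (fun n G => Comp d G (hatF d G) ∧
      ∀ S : Finset (Fin n), Comp d G S → S ≠ hatF d G → S.card ≤ 3) :=
  t4 p_MON p_NOT p_TRN p_CON d c hd hc h hr

theorem AAS_mono {c : ℝ} (hc : 0 < c) (Q R : ∀ n : ℕ, SimpleGraph (Fin n) → Prop)
    (hQR : ∀ᶠ n : ℕ in atTop, ∀ G : SimpleGraph (Fin n), Q n G → R n G) (hQ : AAS c Q) :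
    AAS c R :=
  aas_mono p_MON p_NOT p_TRN hc Q R hQR hQ

end Pool.Agent.H23.RG
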