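import Pool.Agent.H23.RG.Stm2
import Pool.Agent.H23.RG.MT

/-! Crew RG, part BIP. -/

set_option autoImplicit false
open Classical Filter

namespace Pool.Agent.H23.RG

/-- the pairs between `T` and `S` -/
noncomputable def bipY {n : ℕ} (T S : Finset (Fin n)) : Finset (E n) :=
  Finset.univ.filter (fun z : E n => (z.1.1 ∈ S ∧ z.1.2 ∈ T) ∨ (z.1.1 ∈ T ∧ z.1.2 ∈ S))

/-- the oriented pair, the end in `S` first -/
noncomputable def bipG {n : ℕ} (S : Finset (Fin n)) (z : E n) : Fin n × Fin n :=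
  if z.1.1 ∈ S then (z.1.1, z.1.2) else (z.1.2, z.1.1)

theorem bipY_card {n : ℕ} (T S : Finset (Fin n)) (hTS : Disjoint T S) :
    (bipY T S).card ≤ T.card * S.card := by
  rw [mul_comm, ← Finset.card_product]
  refine Finset.card_le_card_of_injOn (bipG S) ?_ ?_
  · intro z hz
    have hz' := (Finset.mem_filter.1 (Finset.mem_coe.1 hz)).2
    rw [Finset.mem_coe, Finset.mem_product]
    unfold bipG
    rcases hz' with ⟨h1, h2⟩ | ⟨h1, h2⟩
    · rw [if_pos h1]; exact ⟨h1, h2⟩
    · rw [if_neg (Finset.disjoint_left.1 hTS h1)]; exact ⟨h2, h1⟩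
  · intro z hz w hw h
    unfold bipG at h
    by_cases h1 : z.1.1 ∈ S <;> by_cases h2 : w.1.1 ∈ S
    · rw [if_pos h1, if_pos h2] at h
      exact Subtype.ext h
    · rw [if_pos h1, if_neg h2] at h
      obtain ⟨e1, e2⟩ := Prod.mk.inj h
      have a1 := z.2
      have a2 := w.2
      rw [e1, e2] at a1
      exact absurd a1 (lt_asymm a2)
    · rw [if_neg h1, if_pos h2] at h
      obtain ⟨e1, e2⟩ := Prod.mk.inj h
      have a1 := z.2
      have a2 := w.2
      rw [← e1, ← e2] at a2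
      exact absurd a1 (lt_asymm a2)
    · rw [if_neg h1, if_neg h2] at h
      obtain ⟨e1, e2⟩ := Prod.mk.inj h
      exact Subtype.ext (Prod.ext e2 e1)

theorem bip_many {n K : ℕ} (T S : Finset (Fin n)) (hTS : Disjoint T S) (B : Finset (E n))
    (h : ∀ v ∈ S, K ≤ (T.filter ((gr B).Adj v)).card) : K * S.card ≤ (B ∩ bipY T S).card := by
  have h1 : K * S.card ≤ ((S ×ˢ T).filter (fun x => (gr B).Adj x.1 x.2)).card := by
    refine Finset.mul_card_image_le_card_of_maps_to (f := Prod.fst) (t := S) ?_ K ?_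
    · intro x hx
      exact (Finset.mem_product.1 (Finset.mem_filter.1 hx).1).1
    · intro v hv
      refine (h v hv).trans ?_
      refine Finset.card_le_card_of_injOn (fun u => (v, u)) ?_ ?_
      · intro u hu
        have hu' := Finset.mem_filter.1 (Finset.mem_coe.1 hu)
        rw [Finset.mem_coe, Finset.mem_filter, Finset.mem_filter, Finset.mem_product]
        exact ⟨⟨⟨hv, hu'.1⟩, hu'.2⟩, rfl⟩
      · intro u _ u' _ huu
        exact (Prod.mk.inj huu).2
  refine h1.trans ?_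
  refine Finset.card_le_card_of_surjOn (bipG S) ?_
  intro x hx
  obtain ⟨hx1, hx2⟩ := Finset.mem_filter.1 (Finset.mem_coe.1 hx)
  obtain ⟨hxS, hxT⟩ := Finset.mem_product.1 hx1
  rcases hx2 with ⟨hlt, hB⟩ | ⟨hlt, hB⟩
  · refine ⟨⟨(x.1, x.2), hlt⟩, ?_, ?_⟩
    · rw [Finset.mem_coe, Finset.mem_inter]
      exact ⟨hB, Finset.mem_filter.2 ⟨Finset.mem_univ _, Or.inl ⟨hxS, hxT⟩⟩⟩
    · unfold bipG
      rw [if_pos hxS]
  · by_cases h2 : x.2 ∈ S
    · exact absurd h2 (Finset.disjoint_left.1 hTS hxT)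
    · refine ⟨⟨(x.2, x.1), hlt⟩, ?_, ?_⟩
      · rw [Finset.mem_coe, Finset.mem_inter]
        exact ⟨hB, Finset.mem_filter.2 ⟨Finset.mem_univ _, Or.inr ⟨hxT, hxS⟩⟩⟩
      · unfold bipG
        rw [if_neg h2]

theorem bip_pair (hUNI : S_UNI) (hSUB : S_SUB) (hMON : S_MON) {n K : ℕ} (p : ℝ) (hp : 0 ≤ p)
    (hp1 : p ≤ 1) (T S : Finset (Fin n)) (hTS : Disjoint T S) :
    mu p (fun B : Finset (E n) => ∀ v ∈ S, K ≤ (T.filter ((gr B).Adj v)).card) ≤
      ((T.card * S.card).choose (K * S.card) : ℝ) * p ^ (K * S.card) := by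
  have h1 : mu p (fun B : Finset (E n) => ∀ v ∈ S, K ≤ (T.filter ((gr B).Adj v)).card) ≤
      mu p (fun B : Finset (E n) => ∃ F ∈ (bipY T S).powersetCard (K * S.card), F ⊆ B) := by
    apply hMON (E n) p hp hp1
    intro B hB
    obtain ⟨F, hF1, hF2⟩ := Finset.exists_subset_card_eq (bip_many T S hTS B hB)
    exact ⟨F, Finset.mem_powersetCard.2 ⟨hF1.trans Finset.inter_subset_right, hF2⟩,
      hF1.trans Finset.inter_subset_left⟩
  refine h1.trans ((hUNI (E n) p hp hp1 _ _ _).trans ?_)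
  have h2 : ∀ F ∈ (bipY T S).powersetCard (K * S.card),
      mu p (fun B : Finset (E n) => F ⊆ B) = p ^ (K * S.card) := by
    intro F hF
    rw [hSUB (E n) p F, (Finset.mem_powersetCard.1 hF).2]
  rw [Finset.sum_congr rfl h2, Finset.sum_const, Finset.card_powersetCard, nsmul_eq_mul]
  apply mul_le_mul_of_nonneg_right _ (by positivity)
  exact_mod_cast Nat.choose_le_choose _ (bipY_card T S hTS)

theorem bip_part (hUNI : S_UNI) (hSUB : S_SUB) (hMON : S_MON) : S_BIP := by
  intro d γ hd hγ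
  have hd0 : (0 : ℝ) < d := by
    have : 0 < d := by omega
    exact_mod_cast this
  set e : ℝ := Real.exp 1 with he
  have he0 : 0 < e := Real.exp_pos 1
  refine ⟨1 / (16 * d * e ^ 2), 32 * d / γ, by positivity, by positivity, ?_⟩
  intro c K hc hcK
  have hc0 : 0 < c := lt_of_lt_of_le (by positivity) hc
  have hK0 : (0 : ℝ) < K := by
    by_contra hcon
    have h1 : (K : ℝ) ≤ 0 := not_lt.1 hcon
    nlinarith
  have hK1 : 1 ≤ K := by exact_mod_cast hK0
  have hKγ : 2 ≤ (K : ℝ) * γ := by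
    rw [div_le_iff₀ hγ] at hc
    have h1 : c * γ ≤ 16 * (d : ℝ) * K * γ := by gcongr
    by_contra hcon
    have h2 : (K : ℝ) * γ < 2 := not_le.1 hcon
    nlinarith
  have hbase : (4 * (1 / e ^ 2)) < 1 := by
    rw [mul_one_div, div_lt_one (by positivity)]
    have : (2.7 : ℝ) < e := by
      rw [he]
      have := Real.exp_one_gt_d9
      linarith
    nlinarith
  have hlim : Tendsto (fun n : ℕ => (4 * (1 / e ^ 2)) ^ n) atTop (nhds 0) :=
    tendsto_pow_atTop_nhds_zero_of_lt_one (by positivity) hbase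
  refine squeeze_zero' ?_ ?_ hlim
  · filter_upwards [eventually_ge_atTop (⌈c⌉₊ + 1)] with n hn
    have hcn : c ≤ n := (Nat.le_ceil c).trans (by exact_mod_cast (by omega : ⌈c⌉₊ ≤ n))
    have hn0 : (0 : ℝ) < n := lt_of_lt_of_le hc0 hcn
    have h0 : mu (c / (n : ℝ)) (fun _ : Finset (E n) => False) = 0 := by simp [mu]
    rw [← h0]
    exact hMON (E n) _ (by positivity) ((div_le_one hn0).2 hcn) _ _ (fun _ h => h.elim)
  · filter_upwards [eventually_ge_atTop (⌈c⌉₊ + 1)] with n hn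
    have hcn : c ≤ n := (Nat.le_ceil c).trans (by exact_mod_cast (by omega : ⌈c⌉₊ ≤ n))
    have hn0 : (0 : ℝ) < n := lt_of_lt_of_le hc0 hcn
    have hp0 : 0 ≤ c / (n : ℝ) := by positivity
    have hp1 : c / (n : ℝ) ≤ 1 := (div_le_one hn0).2 hcn
    set s : Finset (Finset (Fin n) × Finset (Fin n)) := Finset.univ.filter (fun i =>
      Disjoint i.1 i.2 ∧ (i.1.card : ℝ) ≤ 1 / (16 * d * e ^ 2) * (n : ℝ) ∧
        γ * (n : ℝ) ≤ (i.2.card : ℝ)) with hs
    have h1 : mu (c / (n : ℝ)) (fun B : Finset (E n) =>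
        ∃ T S : Finset (Fin n), Disjoint T S ∧
          (T.card : ℝ) ≤ 1 / (16 * d * e ^ 2) * (n : ℝ) ∧
          γ * (n : ℝ) ≤ (S.card : ℝ) ∧ ∀ v ∈ S, K ≤ (T.filter ((gr B).Adj v)).card) ≤
        mu (c / (n : ℝ)) (fun B : Finset (E n) => ∃ i ∈ s,
          ∀ v ∈ i.2, K ≤ (i.1.filter ((gr B).Adj v)).card) := by
      apply hMON (E n) _ hp0 hp1
      rintro B ⟨T, S, h1, h2, h3, h4⟩
      exact ⟨(T, S), Finset.mem_filter.2 ⟨Finset.mem_univ _, h1, h2, h3⟩, h4⟩
    refine h1.trans ((hUNI (E n) (c / (n : ℝ)) hp0 hp1 (Finset (Fin n) × Finset (Fin n)) s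
      (fun i B => ∀ v ∈ i.2, K ≤ (i.1.filter ((gr B).Adj v)).card)).trans ?_)
    have h2 : ∀ i ∈ s, mu (c / (n : ℝ)) (fun B : Finset (E n) =>
        ∀ v ∈ i.2, K ≤ (i.1.filter ((gr B).Adj v)).card) ≤ (1 / e ^ 2) ^ n := by
      rintro ⟨T, S⟩ hi
      obtain ⟨-, hTS, hT, hS⟩ := Finset.mem_filter.1 hi
      simp only at hTS hT hS ⊢
      refine (bip_pair hUNI hSUB hMON _ hp0 hp1 T S hTS).trans ?_
      have hS0 : (0 : ℝ) < S.card := lt_of_lt_of_le (by positivity) hS
      have hS1 : 1 ≤ S.card := by exact_mod_cast hS0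
      have hKS : 1 ≤ K * S.card := Nat.one_le_iff_ne_zero.2 (by positivity)
      have h3 := mt_choose (T.card * S.card) (K * S.card) hKS
      have h4 : ((T.card * S.card : ℕ) : ℝ) / ((K * S.card : ℕ) : ℝ) = (T.card : ℝ) / K := by
        push_cast
        field_simp
      rw [h4] at h3
      have h5 : e * ((T.card : ℝ) / K) * (c / (n : ℝ)) ≤ 1 / e := by
        have h6 : (T.card : ℝ) / n ≤ 1 / (16 * d * e ^ 2) := by
          rw [div_le_iff₀ hn0]; exact hT
        have h7 : c / K ≤ 16 * d := by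
          rw [div_le_iff₀ hK0]; exact hcK
        calc e * ((T.card : ℝ) / K) * (c / (n : ℝ)) = e * ((T.card : ℝ) / n) * (c / K) := by
              field_simp
          _ ≤ e * (1 / (16 * d * e ^ 2)) * (16 * d) := by gcongr
          _ = 1 / e := by field_simp
      have h8 : 2 * n ≤ K * S.card := by
        have : (2 : ℝ) * n ≤ K * S.card := by
          calc (2 : ℝ) * n ≤ K * γ * n := by gcongr
            _ = K * (γ * n) := by ring
            _ ≤ K * S.card := by gcongr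
        exact_mod_cast this
      have he1 : 1 / e ≤ 1 := by
        rw [div_le_one he0, he]
        have := Real.exp_one_gt_d9
        linarith
      calc ((T.card * S.card).choose (K * S.card) : ℝ) * (c / (n : ℝ)) ^ (K * S.card)
          ≤ (e * ((T.card : ℝ) / K)) ^ (K * S.card) * (c / (n : ℝ)) ^ (K * S.card) := by
            gcongr
        _ = (e * ((T.card : ℝ) / K) * (c / (n : ℝ))) ^ (K * S.card) := (mul_pow _ _ _).symm
        _ ≤ (1 / e) ^ (K * S.card) := pow_le_pow_left₀ (by positivity) h5 _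
        _ ≤ (1 / e) ^ (2 * n) := pow_le_pow_of_le_one (by positivity) he1 h8
        _ = (1 / e ^ 2) ^ n := by rw [pow_mul, div_pow, one_pow]
    refine (Finset.sum_le_card_nsmul _ _ _ h2).trans ?_
    rw [nsmul_eq_mul, mul_pow]
    apply mul_le_mul_of_nonneg_right _ (by positivity)
    have h3 : s.card ≤ 4 ^ n := by
      refine (Finset.card_le_univ s).trans (le_of_eq ?_)
      rw [Fintype.card_prod, Fintype.card_finset, Fintype.card_fin, ← mul_pow]
      norm_num
    exact_mod_cast h3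

end Pool.Agent.H23.RG
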