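import Pool.Agent.H23.RG.Stm2

/-! Crew RG, stage 2, part BLK (helper10): dimension count of kernels. -/

set_option autoImplicit false
open Classical Filter

namespace Pool.Agent.H23.RG

theorem blk_mulVec {d n : ℕ} (G : SimpleGraph (Fin n)) (S : Finset (Fin n))
    (q : Fin n → Fin d → ℝ) (x : Fin n × Fin d → ℝ) (e : Fin n × Fin n) :
    (RM d G S q).mulVec x e = if e.1 ∈ S ∧ e.2 ∈ S ∧ G.Adj e.1 e.2 then
      ∑ k, (q e.1 k - q e.2 k) * (x (e.1, k) - x (e.2, k)) else 0 := by
  simp only [Matrix.mulVec, dotProduct, RM, Matrix.of_apply]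
  split_ifs with h
  · rw [Fintype.sum_prod_type, Finset.sum_comm]
    refine Finset.sum_congr rfl fun k _ => ?_
    have hne : e.1 ≠ e.2 := h.2.2.ne
    have h1 : ∀ v : Fin n, (if v = e.1 then q e.1 k - q e.2 k
        else if v = e.2 then q e.2 k - q e.1 k else 0) * x (v, k) =
        (if v = e.1 then (q e.1 k - q e.2 k) * x (e.1, k) else 0) +
        (if v = e.2 then (q e.2 k - q e.1 k) * x (e.2, k) else 0) := by
      intro v
      by_cases hv1 : v = e.1
      · rw [if_pos hv1, if_pos hv1, if_neg (by rw [hv1]; exact hne), hv1, add_zero]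
      · rw [if_neg hv1, if_neg hv1]
        by_cases hv2 : v = e.2
        · rw [if_pos hv2, if_pos hv2, hv2, zero_add]
        · rw [if_neg hv2, if_neg hv2, zero_mul, zero_add]
    rw [Finset.sum_congr rfl fun v _ => h1 v, Finset.sum_add_distrib, Finset.sum_ite_eq',
      Finset.sum_ite_eq']
    simp only [Finset.mem_univ, if_true]
    ring
  · simp

theorem blk_part : S_BLK := by
  intro d n G A T q hAT hT
  have r1 := LinearMap.finrank_range_add_finrank_ker (RM d G A q).mulVecLin
  have r2 := LinearMap.finrank_range_add_finrank_ker (RM d G (A ∪ T) q).mulVecLin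
  change (RM d G A q).rank + _ = _ at r1
  change (RM d G (A ∪ T) q).rank + _ = _ at r2
  -- extension by zero
  let ext : (T × Fin d → ℝ) →ₗ[ℝ] (Fin n × Fin d → ℝ) :=
    { toFun := fun b x => if h : x.1 ∈ T then b (⟨x.1, h⟩, x.2) else 0
      map_add' := fun b c => by
        ext x
        simp only [Pi.add_apply]
        split_ifs <;> simp
      map_smul' := fun r b => by
        ext x
        simp only [Pi.smul_apply, RingHom.id_apply]
        split_ifs <;> simp }
  have hext0 : ∀ b : T × Fin d → ℝ, ∀ x : Fin n × Fin d, x.1 ∉ T → ext b x = 0 := by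
    intro b x hx
    show (if h : x.1 ∈ T then b (⟨x.1, h⟩, x.2) else 0) = 0
    rw [dif_neg hx]
  have hextinj : ∀ b : T × Fin d → ℝ, ext b = 0 → b = 0 := by
    intro b hb
    ext ⟨⟨v, hv⟩, k⟩
    have h1 := congrFun hb (v, k)
    change (if h : v ∈ T then b (⟨v, h⟩, k) else 0) = 0 at h1
    rw [dif_pos hv] at h1
    exact h1
  have hker : ∀ x : Fin n × Fin d → ℝ, x ∈ LinearMap.ker (RM d G (A ∪ T) q).mulVecLin →
      x ∈ LinearMap.ker (RM d G A q).mulVecLin := by
    intro x hx
    rw [LinearMap.mem_ker, Matrix.mulVecLin_apply] at hx ⊢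
    ext e
    have h1 := congrFun hx e
    rw [blk_mulVec] at h1 ⊢
    split_ifs with h
    · rw [if_pos ⟨Finset.mem_union_left _ h.1, Finset.mem_union_left _ h.2.1, h.2.2⟩] at h1
      exact h1
    · rfl
  have hker2 : ∀ b : T × Fin d → ℝ, ext b ∈ LinearMap.ker (RM d G A q).mulVecLin := by
    intro b
    rw [LinearMap.mem_ker, Matrix.mulVecLin_apply]
    ext e
    rw [blk_mulVec]
    split_ifs with h
    · have h1 : e.1 ∉ T := fun h' => (Finset.disjoint_left.1 hAT h.1) h'
      have h2 : e.2 ∉ T := fun h' => (Finset.disjoint_left.1 hAT h.2.1) h'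
      rw [Pi.zero_apply]
      refine Finset.sum_eq_zero fun k _ => ?_
      rw [hext0 b (e.1, k) h1, hext0 b (e.2, k) h2, sub_self, mul_zero]
    · rfl
  let Φ : (LinearMap.ker (RM d G (A ∪ T) q).mulVecLin) × (T × Fin d → ℝ) →ₗ[ℝ]
      (LinearMap.ker (RM d G A q).mulVecLin) :=
    { toFun := fun z => ⟨z.1.1 + ext z.2, Submodule.add_mem _ (hker _ z.1.2) (hker2 _)⟩
      map_add' := fun z w => by
        apply Subtype.ext
        simp only [Prod.fst_add, Prod.snd_add, Submodule.coe_add, map_add]
        abel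
      map_smul' := fun r z => by
        apply Subtype.ext
        simp only [Prod.smul_fst, Prod.smul_snd, Submodule.coe_smul, map_smul, RingHom.id_apply,
          smul_add] }
  have hΦ : Function.Injective Φ := by
    rw [← LinearMap.ker_eq_bot, LinearMap.ker_eq_bot']
    rintro ⟨a, b⟩ hab
    have h0 : (a : Fin n × Fin d → ℝ) + ext b = 0 := congrArg Subtype.val hab
    have h1 : ext b = -(a : Fin n × Fin d → ℝ) := (neg_eq_of_add_eq_zero_right h0).symm
    have h2 : ext b ∈ LinearMap.ker (RM d G (A ∪ T) q).mulVecLin := by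
      rw [h1]; exact Submodule.neg_mem _ a.2
    have h3 : (fun (v : Fin n) (k : Fin d) => ext b (v, k)) = 0 := by
      apply hT
      · intro v hv
        ext k
        exact hext0 b (v, k) hv
      · intro u hu v hv huv
        rw [LinearMap.mem_ker, Matrix.mulVecLin_apply] at h2
        have h4 := congrFun h2 (u, v)
        rw [blk_mulVec, if_pos ⟨hu, hv, huv⟩] at h4
        exact h4
    have h4 : b = 0 := by
      apply hextinj
      ext ⟨v, k⟩
      exact congrFun (congrFun h3 v) k
    have h5 : a = 0 := by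
      apply Subtype.ext
      rw [h4, map_zero, add_zero] at h0
      exact h0
    rw [h4, h5]; rfl
  have h6 := LinearMap.finrank_le_finrank_of_injective hΦ
  rw [Module.finrank_prod, Module.finrank_fintype_fun_eq_card, Fintype.card_prod,
    Fintype.card_coe, Fintype.card_fin] at h6
  have h7 : T.card * d = d * T.card := Nat.mul_comm _ _
  omega

end Pool.Agent.H23.RG
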