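import Pool.Agent.H23.RG.Stm2

/-! Crew RG, stage 2, part CCN (helper81). -/

set_option autoImplicit false
open Classical Filter

namespace Pool.Agent.H23.RG

theorem ccn_big (hEDG : S_EDG) {n K : ℕ} {γ : ℝ} {B : Finset (E n)}
    (h1 : ∀ T : Finset (Fin n), T.Nonempty → (T.card : ℝ) ≤ γ * (n : ℝ) → 2 * eS B T < K * T.card)
    (T : Finset (Fin n)) (hT : T.Nonempty) (hd : ∀ u ∈ T, K ≤ (T.filter ((gr B).Adj u)).card) :
    γ * (n : ℝ) < (T.card : ℝ) := by
  by_contra hcon
  push Not at hcon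
  have h := h1 T hT hcon
  have e1 := hEDG n B T
  have e2 : ((T ×ˢ T).filter (fun e => (gr B).Adj e.1 e.2)).card =
      ∑ u ∈ T, (T.filter ((gr B).Adj u)).card := by
    rw [Finset.card_filter, Finset.sum_product]
    refine Finset.sum_congr rfl fun u _ => ?_
    rw [Finset.card_filter]
  have e3 : K * T.card ≤ ∑ u ∈ T, (T.filter ((gr B).Adj u)).card := by
    calc K * T.card = ∑ _u ∈ T, K := by rw [Finset.sum_const, smul_eq_mul, mul_comm]
      _ ≤ _ := Finset.sum_le_sum hd
  omega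

theorem ccn_side (hEDG : S_EDG) {n K : ℕ} {γ γ' δ : ℝ} {B : Finset (E n)}
    (hδ : δ ≤ γ / 2) (hδ' : δ ≤ γ')
    (h1 : ∀ T : Finset (Fin n), T.Nonempty → (T.card : ℝ) ≤ γ * (n : ℝ) → 2 * eS B T < K * T.card)
    (h2 : ∀ T S : Finset (Fin n), Disjoint T S → (T.card : ℝ) ≤ γ' * (n : ℝ) →
      γ / 2 * (n : ℝ) ≤ (S.card : ℝ) → ∃ v ∈ S, (T.filter ((gr B).Adj v)).card < K)
    (X Y : Finset (Fin n)) (hXY : Disjoint X Y) (hne : (X ∪ Y).Nonempty)
    (hX : ∀ u ∈ X, K ≤ (Y.filter ((gr B).Adj u)).card)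
    (hY : ∀ u ∈ Y, K ≤ (X.filter ((gr B).Adj u)).card) :
    δ * (n : ℝ) ≤ (X.card : ℝ) ∧ δ * (n : ℝ) ≤ (Y.card : ℝ) := by
  have hn : (0 : ℝ) ≤ n := Nat.cast_nonneg n
  have hb := ccn_big hEDG h1 (X ∪ Y) hne (by
    intro u hu
    rcases Finset.mem_union.1 hu with hu | hu
    · exact (hX u hu).trans (Finset.card_le_card
        (Finset.filter_subset_filter _ Finset.subset_union_right))
    · exact (hY u hu).trans (Finset.card_le_card
        (Finset.filter_subset_filter _ Finset.subset_union_left)))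
  rw [Finset.card_union_of_disjoint hXY] at hb
  push_cast at hb
  have k1 : δ * (n : ℝ) ≤ γ / 2 * n := by gcongr
  have k2 : δ * (n : ℝ) ≤ γ' * n := by gcongr
  rcases le_or_gt (γ / 2 * (n : ℝ)) (X.card : ℝ) with hc | hc
  · refine ⟨k1.trans hc, ?_⟩
    by_contra hcon
    push Not at hcon
    obtain ⟨v, hv, hv2⟩ := h2 Y X hXY.symm (by linarith) hc
    exact absurd (hX v hv) (not_le.2 hv2)
  · have hc' : γ / 2 * (n : ℝ) ≤ (Y.card : ℝ) := by linarith
    refine ⟨?_, k1.trans hc'⟩
    by_contra hcon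
    push Not at hcon
    obtain ⟨v, hv, hv2⟩ := h2 X Y hXY (by linarith) hc'
    exact absurd (hY v hv) (not_le.2 hv2)

theorem ccn_part (hEDG : S_EDG) : S_CCN := by
  intro d n K γ γ' δ B A col hd hK hγ hγ' hδ0 hδ hδ' hcol hA hdeg h1 h2 h3
  have hcl : ∀ (w : Fin n) (j : Fin d), colr d w j ↔ col w = j := by
    intro w j
    have := hcol w
    unfold colr at this ⊢
    rw [this, Fin.ext_iff]
  have hn : (0 : ℝ) ≤ n := Nat.cast_nonneg n
  have hdeg' : ∀ v ∈ A, ∀ j : Fin d, K ≤ (A.filter (fun w => col w = j ∧ (gr B).Adj v w)).card := by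
    intro v hv j
    have := hdeg v hv j
    simpa only [hcl] using this
  have hsym : ∀ u v, (gr B).Adj u v → (gr B).Adj v u := fun u v h => SimpleGraph.Adj.symm h
  refine ⟨?_, ?_, ?_⟩
  · intro i
    obtain ⟨v, hv⟩ := hA
    have := hdeg' v hv i
    have hpos : 0 < (A.filter (fun w => col w = i ∧ (gr B).Adj v w)).card := by omega
    obtain ⟨w, hw⟩ := Finset.card_pos.1 hpos
    have := Finset.mem_filter.1 hw
    exact ⟨w, this.1, this.2.1⟩
  · intro i T hT hTne hcl2
    by_contra hne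
    have hT2 : ((A.filter (fun v => col v = i)) \ T).Nonempty := by
      rw [Finset.sdiff_nonempty]
      intro h
      exact hne (Finset.Subset.antisymm hT h)
    set T' := (A.filter (fun v => col v = i)) \ T with hT'
    have b1 : γ * (n : ℝ) < (T.card : ℝ) := by
      refine ccn_big hEDG h1 T hTne ?_
      intro u hu
      have huA := (Finset.mem_filter.1 (hT hu)).1
      refine (hdeg' u huA i).trans (Finset.card_le_card ?_)
      intro w hw
      have hw' := Finset.mem_filter.1 hw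
      rw [Finset.mem_filter]
      exact ⟨hcl2 u hu w (Finset.mem_filter.2 ⟨hw'.1, hw'.2.1⟩) hw'.2.2, hw'.2.2⟩
    have b2 : γ * (n : ℝ) < (T'.card : ℝ) := by
      refine ccn_big hEDG h1 T' hT2 ?_
      intro u hu
      have hu' := Finset.mem_sdiff.1 hu
      have huA := (Finset.mem_filter.1 hu'.1).1
      refine (hdeg' u huA i).trans (Finset.card_le_card ?_)
      intro w hw
      have hw' := Finset.mem_filter.1 hw
      rw [Finset.mem_filter, hT', Finset.mem_sdiff]
      refine ⟨⟨Finset.mem_filter.2 ⟨hw'.1, hw'.2.1⟩, ?_⟩, hw'.2.2⟩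
      intro hwT
      exact hu'.2 (hcl2 w hwT u hu'.1 (hsym _ _ hw'.2.2))
    have k1 : δ * (n : ℝ) ≤ γ * n := by
      have : δ ≤ γ := by linarith
      gcongr
    obtain ⟨u, hu, v, hv, huv⟩ := h3 T T' (by
      rw [hT']; exact Finset.disjoint_sdiff) (by linarith) (by linarith)
    have hv' := Finset.mem_sdiff.1 hv
    exact hv'.2 (hcl2 u hu v hv'.1 huv)
  · intro i j hij T hT hTne hcl2
    by_contra hne
    have hT2 : ((A.filter (fun v => col v = i ∨ col v = j)) \ T).Nonempty := by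
      rw [Finset.sdiff_nonempty]
      intro h
      exact hne (Finset.Subset.antisymm hT h)
    set T' := (A.filter (fun v => col v = i ∨ col v = j)) \ T with hT'
    -- general: a closed set has two large sides
    have key : ∀ T₀ : Finset (Fin n), T₀ ⊆ A.filter (fun v => col v = i ∨ col v = j) →
        T₀.Nonempty → (∀ u ∈ T₀, ∀ v ∈ A.filter (fun v => col v = i ∨ col v = j),
          ((gr B).Adj u v ∧ col u ≠ col v) → v ∈ T₀) →
        δ * (n : ℝ) ≤ ((T₀.filter (fun v => col v = i)).card : ℝ) ∧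
        δ * (n : ℝ) ≤ ((T₀.filter (fun v => col v = j)).card : ℝ) := by
      intro T₀ s1 s2 s3
      refine ccn_side hEDG hδ hδ' h1 h2 _ _ ?_ ?_ ?_ ?_
      · rw [Finset.disjoint_left]
        intro a ha hb
        have ha' := (Finset.mem_filter.1 ha).2
        have hb' := (Finset.mem_filter.1 hb).2
        exact hij (ha'.symm.trans hb')
      · obtain ⟨x, hx⟩ := s2
        refine ⟨x, ?_⟩
        rw [Finset.mem_union]
        rcases (Finset.mem_filter.1 (s1 hx)).2 with h | h
        · exact Or.inl (Finset.mem_filter.2 ⟨hx, h⟩)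
        · exact Or.inr (Finset.mem_filter.2 ⟨hx, h⟩)
      · intro u hu
        have hu' := Finset.mem_filter.1 hu
        have huA := (Finset.mem_filter.1 (s1 hu'.1)).1
        refine (hdeg' u huA j).trans (Finset.card_le_card ?_)
        intro w hw
        have hw' := Finset.mem_filter.1 hw
        rw [Finset.mem_filter, Finset.mem_filter]
        refine ⟨⟨s3 u hu'.1 w (Finset.mem_filter.2 ⟨hw'.1, Or.inr hw'.2.1⟩)
          ⟨hw'.2.2, ?_⟩, hw'.2.1⟩, hw'.2.2⟩
        rw [hu'.2, hw'.2.1]; exact hij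
      · intro u hu
        have hu' := Finset.mem_filter.1 hu
        have huA := (Finset.mem_filter.1 (s1 hu'.1)).1
        refine (hdeg' u huA i).trans (Finset.card_le_card ?_)
        intro w hw
        have hw' := Finset.mem_filter.1 hw
        rw [Finset.mem_filter, Finset.mem_filter]
        refine ⟨⟨s3 u hu'.1 w (Finset.mem_filter.2 ⟨hw'.1, Or.inl hw'.2.1⟩)
          ⟨hw'.2.2, ?_⟩, hw'.2.1⟩, hw'.2.2⟩
        rw [hu'.2, hw'.2.1]; exact hij.symm
    have c1 := (key T hT hTne hcl2).1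
    have c2 := (key T' (by rw [hT']; exact Finset.sdiff_subset) hT2 (by
      intro u hu v hv huv
      have hu' := Finset.mem_sdiff.1 hu
      rw [hT', Finset.mem_sdiff]
      refine ⟨hv, fun hvT => hu'.2 (hcl2 v hvT u hu'.1 ⟨hsym _ _ huv.1, huv.2.symm⟩)⟩)).2
    obtain ⟨u, hu, v, hv, huv⟩ := h3 (T.filter (fun v => col v = i)) (T'.filter (fun v => col v = j))
      (by
        rw [Finset.disjoint_left]
        intro a ha hb
        have ha' := (Finset.mem_filter.1 ha).2
        have hb' := (Finset.mem_filter.1 hb).2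
        exact hij (ha'.symm.trans hb')) c1 c2
    have hu' := Finset.mem_filter.1 hu
    have hv' := Finset.mem_filter.1 hv
    have hv'' := Finset.mem_sdiff.1 hv'.1
    refine hv''.2 (hcl2 u hu'.1 v hv''.1 ⟨huv, ?_⟩)
    rw [hu'.2, hv'.2]; exact hij

end Pool.Agent.H23.RG
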