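import Pool.Agent.H23.RG.Stm2

/-! Crew RG, part CH2 (helper55). -/

set_option autoImplicit false
open Classical Filter

namespace Pool.Agent.H23.RG

theorem ch2_part : S_CH2 := by
  intro X _ p F Y k hp0 hp1 hFY
  have h1 : p ^ F.card * (1 - p / 2) ^ Y.card =
      ∏ x : X, ((if x ∈ Y then p * (1 / 2) else p) + (if x ∈ F then 0 else 1 - p)) := by
    have h2 : ∀ x : X, ((if x ∈ Y then p * (1 / 2) else p) + (if x ∈ F then 0 else 1 - p)) =
        (if x ∈ F then p else 1) * (if x ∈ Y then (1 - p / 2) else 1) := by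
      intro x
      by_cases hF : x ∈ F
      · have hY : x ∉ Y := Finset.disjoint_left.1 hFY hF
        simp [hF, hY]
      · by_cases hY : x ∈ Y
        · simp only [hF, hY, if_true, if_false]; ring
        · simp only [hF, hY, if_false]; ring
    simp_rw [h2]
    rw [Finset.prod_mul_distrib, Finset.prod_ite_mem, Finset.prod_ite_mem, Finset.univ_inter,
      Finset.univ_inter, Finset.prod_const, Finset.prod_const]
  have h5 : p ^ F.card * 2 ^ k * (1 - p / 2) ^ Y.card =
      2 ^ k * (p ^ F.card * (1 - p / 2) ^ Y.card) := by ring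
  rw [h5, h1, Finset.prod_add, Finset.powerset_univ, Finset.mul_sum]
  unfold mu
  refine Finset.sum_le_sum fun B _ => ?_
  have h3 : ∏ x ∈ B, (if x ∈ Y then p * (1 / 2) else p) = p ^ B.card * (1 / 2 : ℝ) ^ (B ∩ Y).card := by
    have h4 : ∀ x : X, (if x ∈ Y then p * (1 / 2 : ℝ) else p) =
        p * (if x ∈ Y then (1 / 2 : ℝ) else 1) := by
      intro x
      split_ifs <;> ring
    simp_rw [h4]
    rw [Finset.prod_mul_distrib, Finset.prod_const, Finset.prod_ite_mem, Finset.prod_const]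
  have hnn : (0 : ℝ) ≤ ∏ x ∈ Finset.univ \ B, (if x ∈ F then 0 else 1 - p) := by
    refine Finset.prod_nonneg fun x _ => ?_
    split_ifs
    · exact le_rfl
    · linarith
  split_ifs with hc
  · obtain ⟨hFB, hk⟩ := hc
    have h6 : ∏ x ∈ Finset.univ \ B, (if x ∈ F then (0 : ℝ) else 1 - p) =
        (1 - p) ^ (Fintype.card X - B.card) := by
      rw [Finset.prod_congr rfl (g := fun _ => 1 - p)]
      · rw [Finset.prod_const, Finset.card_sdiff_of_subset (Finset.subset_univ B), Finset.card_univ]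
      · intro x hx
        have hxB : x ∉ B := (Finset.mem_sdiff.1 hx).2
        have hxF : x ∉ F := fun h => hxB (hFB h)
        simp [hxF]
    rw [h3, h6]
    have h7 : (1 : ℝ) ≤ 2 ^ k * (1 / 2 : ℝ) ^ (B ∩ Y).card := by
      have h8 : (1 / 2 : ℝ) ^ k ≤ (1 / 2 : ℝ) ^ (B ∩ Y).card :=
        pow_le_pow_of_le_one (by norm_num) (by norm_num) hk
      have h9 : (2 : ℝ) ^ k * (1 / 2 : ℝ) ^ k = 1 := by
        rw [← mul_pow]; norm_num
      calc (1 : ℝ) = 2 ^ k * (1 / 2 : ℝ) ^ k := h9.symm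
        _ ≤ _ := mul_le_mul_of_nonneg_left h8 (by positivity)
    have h10 : 0 ≤ wt p B := by
      unfold wt
      exact mul_nonneg (pow_nonneg hp0 _) (pow_nonneg (by linarith) _)
    have h11 : 2 ^ k * (p ^ B.card * (1 / 2 : ℝ) ^ (B ∩ Y).card *
        (1 - p) ^ (Fintype.card X - B.card)) = (2 ^ k * (1 / 2 : ℝ) ^ (B ∩ Y).card) * wt p B := by
      unfold wt; ring
    rw [h11]
    nlinarith
  · refine mul_nonneg (by positivity) (mul_nonneg ?_ hnn)
    rw [h3]
    positivity

end Pool.Agent.H23.RG
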