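import Pool.Agent.H23.RG.Stm2

/-! Crew RG, part CLO (helper55). -/

set_option autoImplicit false
open Classical Filter

namespace Pool.Agent.H23.RG

theorem clo_part (hDEG : S_DEG) : S_CLO := by
  intro n A
  have key : ∀ (k : ℕ) (T W : Finset (Fin n)), (W \ T).card = k → T ⊆ W →
      ∃ S : Finset (Fin n), T ⊆ S ∧ S ⊆ W ∧ (∀ u ∈ S, ∀ v ∈ W, (gr A).Adj u v → v ∈ S) ∧
        eS A T + S.card ≤ eS A S + T.card := by
    intro k
    induction k with
    | zero =>
      intro T W hk hTW
      refine ⟨T, Finset.Subset.refl _, hTW, ?_, le_rfl⟩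
      intro u _ v hv _
      have he : W \ T = ∅ := Finset.card_eq_zero.1 hk
      by_contra hvT
      have hm : v ∈ W \ T := Finset.mem_sdiff.2 ⟨hv, hvT⟩
      rw [he] at hm
      exact absurd hm (Finset.notMem_empty v)
    | succ k ih =>
      intro T W hk hTW
      by_cases hcl : ∀ u ∈ T, ∀ v ∈ W, (gr A).Adj u v → v ∈ T
      · exact ⟨T, Finset.Subset.refl _, hTW, hcl, le_rfl⟩
      · push Not at hcl
        obtain ⟨u, hu, v, hv, hadj, hvT⟩ := hcl
        have hsub : insert v T ⊆ W := Finset.insert_subset hv hTW
        have hcard : (W \ insert v T).card = k := by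
          have h1 : W \ insert v T = (W \ T).erase v := by
            ext x
            simp only [Finset.mem_sdiff, Finset.mem_insert, Finset.mem_erase]
            tauto
          rw [h1, Finset.card_erase_of_mem (Finset.mem_sdiff.2 ⟨hv, hvT⟩), hk]
          rfl
        obtain ⟨S, hS1, hS2, hS3, hS4⟩ := ih (insert v T) W hcard hsub
        refine ⟨S, (Finset.subset_insert v T).trans hS1, hS2, hS3, ?_⟩
        have h2 := hDEG n A (insert v T) v (Finset.mem_insert_self v T)
        rw [Finset.erase_insert hvT] at h2
        have h3 : 1 ≤ ((insert v T).filter ((gr A).Adj v)).card := by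
          rw [Nat.one_le_iff_ne_zero, Finset.card_ne_zero]
          exact ⟨u, Finset.mem_filter.2 ⟨Finset.mem_insert_of_mem hu, hadj.symm⟩⟩
        have h4 : (insert v T).card = T.card + 1 := Finset.card_insert_of_notMem hvT
        omega
  intro T W hTW
  exact key _ T W rfl hTW

end Pool.Agent.H23.RG
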