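import Pool.Agent.H23.RG.Stm2

set_option autoImplicit false
open Classical Filter

namespace Pool.Agent.H23.RG

/-- pairs from `U` to its complement, of the colour chosen by `j` -/
noncomputable def corY (d : ℕ) {n : ℕ} (U : Finset (Fin n)) (j : Fin n → Fin d) : Finset (E n) :=
  Finset.univ.filter (fun z =>
    (z.1.1 ∈ U ∧ z.1.2 ∉ U ∧ colr d z.1.2 (j z.1.1)) ∨
    (z.1.2 ∈ U ∧ z.1.1 ∉ U ∧ colr d z.1.1 (j z.1.2)))

theorem cor_card (d : ℕ) {n : ℕ} (U : Finset (Fin n)) (j : Fin n → Fin d) (B : Finset (E n)) :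
    (B ∩ corY d U j).card = ∑ u ∈ U,
      ((Finset.univ \ U).filter (fun v => colr d v (j u) ∧ (gr B).Adj u v)).card := by
  rw [Finset.card_eq_sum_card_fiberwise (f := fun z : E n => if z.1.1 ∈ U then z.1.1 else z.1.2)
    (t := U)]
  · apply Finset.sum_congr rfl
    intro u hu
    apply Finset.card_bij (fun (z : E n) _ => if z.1.1 ∈ U then z.1.2 else z.1.1)
    · intro z hz
      simp only [Finset.mem_filter, Finset.mem_inter, corY, Finset.mem_univ, true_and] at hz
      obtain ⟨⟨hB, hY⟩, hg⟩ := hz
      simp only [Finset.mem_filter, Finset.mem_sdiff, Finset.mem_univ, true_and]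
      by_cases h1 : z.1.1 ∈ U
      · rw [if_pos h1] at hg ⊢
        rcases hY with ⟨_, h3, h4⟩ | ⟨_, h3, _⟩
        · rw [hg] at h4
          refine ⟨h3, h4, Or.inl ?_⟩
          rw [← hg]
          exact ⟨z.2, hB⟩
        · exact absurd h1 h3
      · rw [if_neg h1] at hg ⊢
        rcases hY with ⟨h2, _, _⟩ | ⟨h2, h3, h4⟩
        · exact absurd h2 h1
        · rw [hg] at h4
          refine ⟨h3, h4, Or.inr ?_⟩
          rw [← hg]
          exact ⟨z.2, hB⟩
    · intro z hz z' hz' hzz
      simp only [Finset.mem_filter, Finset.mem_inter, corY, Finset.mem_univ, true_and] at hz hz'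
      obtain ⟨⟨_, hY⟩, hg⟩ := hz
      obtain ⟨⟨_, hY'⟩, hg'⟩ := hz'
      have hz2 := z.2
      have hz2' := z'.2
      by_cases h1 : z.1.1 ∈ U <;> by_cases h2 : z'.1.1 ∈ U
      · rw [if_pos h1] at hg
        rw [if_pos h2] at hg'
        simp only [if_pos h1, if_pos h2] at hzz
        exact Subtype.ext (Prod.ext (hg.trans hg'.symm) hzz)
      · rw [if_pos h1] at hg
        rw [if_neg h2] at hg'
        simp only [if_pos h1, if_neg h2] at hzz
        exfalso
        rw [hg, hzz] at hz2
        rw [hg'] at hz2'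
        exact absurd hz2 (not_lt.mpr hz2'.le)
      · rw [if_neg h1] at hg
        rw [if_pos h2] at hg'
        simp only [if_neg h1, if_pos h2] at hzz
        exfalso
        rw [hg, hzz] at hz2
        rw [hg'] at hz2'
        exact absurd hz2 (not_lt.mpr hz2'.le)
      · rw [if_neg h1] at hg
        rw [if_neg h2] at hg'
        simp only [if_neg h1, if_neg h2] at hzz
        exact Subtype.ext (Prod.ext hzz (hg.trans hg'.symm))
    · intro v hv
      simp only [Finset.mem_filter, Finset.mem_sdiff, Finset.mem_univ, true_and] at hv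
      obtain ⟨hvU, hcol, hadj⟩ := hv
      rcases hadj with ⟨h, hB⟩ | ⟨h, hB⟩
      · refine ⟨⟨(u, v), h⟩, ?_, ?_⟩
        · simp only [Finset.mem_filter, Finset.mem_inter, corY, Finset.mem_univ, true_and]
          exact ⟨⟨hB, Or.inl ⟨hu, hvU, hcol⟩⟩, if_pos hu⟩
        · simp only [if_pos hu]
      · refine ⟨⟨(v, u), h⟩, ?_, ?_⟩
        · simp only [Finset.mem_filter, Finset.mem_inter, corY, Finset.mem_univ, true_and]
          exact ⟨⟨hB, Or.inr ⟨hu, hvU, hcol⟩⟩, if_neg hvU⟩
        · simp only [if_neg hvU]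
  · intro z hz
    simp only [Finset.coe_inter, Set.mem_inter_iff, Finset.mem_coe, corY, Finset.mem_filter,
      Finset.mem_univ, true_and] at hz
    simp only [Finset.mem_coe]
    split_ifs with h1
    · exact h1
    · rcases hz.2 with h | h
      · exact absurd h.1 h1
      · exact h.1

theorem cor_class (d n : ℕ) (hd : 1 ≤ d) (i : Fin d) :
    n / d ≤ (Finset.univ.filter (fun v : Fin n => colr d v i)).card := by
  have h1 : (Finset.univ : Finset (Fin (n / d))).card = n / d := by simp
  rw [← h1]
  have hlt : ∀ a : Fin (n / d), d * a.1 + i.1 < n := by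
    intro a
    have h2 : a.1 + 1 ≤ n / d := a.2
    have h3 : d * (a.1 + 1) ≤ n := (Nat.mul_le_mul_left d h2).trans (Nat.mul_div_le n d)
    have h4 := i.2
    rw [Nat.mul_add] at h3
    omega
  apply Finset.card_le_card_of_injOn (fun a => (⟨d * a.1 + i.1, hlt a⟩ : Fin n))
  · intro a _
    apply Finset.mem_coe.mpr
    refine Finset.mem_filter.mpr ⟨Finset.mem_univ _, ?_⟩
    show (d * a.1 + i.1) % d = i.1
    rw [Nat.mul_add_mod, Nat.mod_eq_of_lt i.2]
  · intro a _ b _ hab
    simp only [Fin.mk.injEq] at hab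
    have : d * a.1 = d * b.1 := by omega
    exact Fin.ext (Nat.eq_of_mul_eq_mul_left (by omega) this)

theorem cor_Y (d n : ℕ) (hd : 1 ≤ d) (U : Finset (Fin n)) (j : Fin n → Fin d) :
    U.card * (n / d - U.card) ≤ (corY d U j).card := by
  have h1 := cor_card d U j Finset.univ
  rw [Finset.univ_inter] at h1
  rw [h1, ← smul_eq_mul, ← Finset.sum_const]
  apply Finset.sum_le_sum
  intro u hu
  have h2 := cor_class d n hd (j u)
  have h3 : (Finset.univ.filter (fun v : Fin n => colr d v (j u))).card - U.card ≤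
      ((Finset.univ.filter (fun v : Fin n => colr d v (j u))) \ U).card :=
    Finset.le_card_sdiff _ _
  have h4 : (Finset.univ.filter (fun v : Fin n => colr d v (j u))) \ U ⊆
      (Finset.univ \ U).filter (fun v => colr d v (j u) ∧ (gr Finset.univ).Adj u v) := by
    intro v hv
    simp only [Finset.mem_sdiff, Finset.mem_filter, Finset.mem_univ, true_and] at hv ⊢
    refine ⟨hv.2, hv.1, ?_⟩
    have hne : u ≠ v := fun e => hv.2 (e ▸ hu)
    rcases lt_or_gt_of_ne hne with h | h
    · exact Or.inl ⟨h, Finset.mem_univ _⟩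
    · exact Or.inr ⟨h, Finset.mem_univ _⟩
  have h5 := Finset.card_le_card h4
  omega

theorem cor_nonneg {X : Type} [Fintype X] (p : ℝ) (h0 : 0 ≤ p) (h1 : p ≤ 1)
    (Q : Finset X → Prop) : 0 ≤ mu p Q := by
  unfold mu wt
  apply Finset.sum_nonneg
  intro A _
  split_ifs
  · exact mul_nonneg (pow_nonneg h0 _) (pow_nonneg (by linarith) _)
  · exact le_refl _

theorem cor_part (hCH : S_CH2) (hUNI : S_UNI) (hMON : S_MON) : S_COR := by
  intro d η hd hη hη2
  have hd0 : (0 : ℝ) < d := by exact_mod_cast (by omega : 0 < d)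
  have hlog : 0 ≤ Real.log (2 * d) := by
    apply Real.log_nonneg
    have : (1 : ℝ) ≤ d := by exact_mod_cast (by omega : 1 ≤ d)
    linarith
  refine ⟨8 * d * (Real.log (2 * d) + 1) / η, by positivity, ?_⟩
  intro c K hc hK
  have hc0 : 0 < c := lt_of_lt_of_le (by positivity) hc
  -- the bound for large n
  have hmain : ∀ᶠ n : ℕ in atTop, mu (c / (n : ℝ)) (fun B : Finset (E n) =>
    ∃ U : Finset (Fin n), U.card = ⌈η * (n : ℝ)⌉₊ ∧ ∀ u ∈ U, ∃ j : Fin d,
      ((Finset.univ \ U).filter (fun v => colr d v j ∧ (gr B).Adj u v)).card < K) ≤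
      Real.exp (-(n : ℝ)) := by
    have ev1 : ∀ᶠ n : ℕ in atTop, c ≤ (n : ℝ) := tendsto_natCast_atTop_atTop.eventually_ge_atTop c
    have ev2 : ∀ᶠ n : ℕ in atTop, 8 * (d : ℝ) ≤ (n : ℝ) :=
      tendsto_natCast_atTop_atTop.eventually_ge_atTop _
    filter_upwards [ev1, ev2] with n h1 h2
    have hn0 : (0 : ℝ) < n := lt_of_lt_of_le hc0 h1
    have hp0 : 0 ≤ c / (n : ℝ) := by positivity
    have hp1 : c / (n : ℝ) ≤ 1 := (div_le_one hn0).mpr h1
    set m := ⌈η * (n : ℝ)⌉₊ with hm
    have hm1 : η * n ≤ m := Nat.le_ceil _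
    have hm2 : (m : ℝ) < η * n + 1 := Nat.ceil_lt_add_one (by positivity)
    -- one pair
    have hone : ∀ i : Finset (Fin n) × (Fin n → Fin d),
        mu (c / (n : ℝ)) (fun B : Finset (E n) => i.1.card = m ∧ ∀ u ∈ i.1,
          ((Finset.univ \ i.1).filter (fun v => colr d v (i.2 u) ∧ (gr B).Adj u v)).card < K) ≤
        Real.exp (-(c * η * n / (8 * d))) := by
      rintro ⟨U, j⟩
      by_cases hU : U.card = m
      · have hstep : mu (c / (n : ℝ)) (fun B : Finset (E n) => U.card = m ∧ ∀ u ∈ U,
            ((Finset.univ \ U).filter (fun v => colr d v (j u) ∧ (gr B).Adj u v)).card < K) ≤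
            mu (c / (n : ℝ)) (fun B : Finset (E n) => (∅ : Finset (E n)) ⊆ B ∧
              (B ∩ corY d U j).card ≤ K * m) := by
          apply hMON _ _ hp0 hp1
          rintro B ⟨_, hB⟩
          refine ⟨Finset.empty_subset _, ?_⟩
          rw [cor_card, ← hU, mul_comm, ← smul_eq_mul, ← Finset.sum_const]
          exact Finset.sum_le_sum (fun u hu => (hB u hu).le)
        refine hstep.trans ?_
        have h21 : mu (c / (n : ℝ)) (fun B : Finset (E n) => (∅ : Finset (E n)) ⊆ B ∧
              (B ∩ corY d U j).card ≤ K * m) ≤ (c / (n : ℝ)) ^ (∅ : Finset (E n)).card *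
              2 ^ (K * m) * (1 - c / (n : ℝ) / 2) ^ (corY d U j).card := by
          have h20 := hCH (E n) (c / (n : ℝ)) ∅ (corY d U j) (K * m) hp0 hp1
            (Finset.disjoint_empty_left _)
          refine le_trans (le_of_eq ?_) h20
          refine congrArg (mu (c / (n : ℝ))) ?_
          funext B
          have hCD : ∀ C D : Finset (E n), C = D →
              ((∅ : Finset (E n)) ⊆ B ∧ C.card ≤ K * m) =
                ((∅ : Finset (E n)) ⊆ B ∧ D.card ≤ K * m) := by
            rintro C _ rfl
            rfl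
          exact hCD _ _ (by ext x; simp only [Finset.mem_inter])
        refine h21.trans ?_
        rw [Finset.card_empty, pow_zero, one_mul]
        have hY := cor_Y d n (by omega) U j
        rw [hU] at hY
        have hq : (n : ℝ) / d - 1 < ((n / d : ℕ) : ℝ) := by
          have := Nat.lt_div_mul_add (a := n) (b := d) (by omega)
          have h3 : (n : ℝ) < ((n / d : ℕ) : ℝ) * d + d := by exact_mod_cast this
          rw [sub_lt_iff_lt_add, div_lt_iff₀ hd0]
          nlinarith
        have hη3 : η * n ≤ n / (4 * d) := by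
          rw [le_div_iff₀ (by positivity)]
          nlinarith
        have h8 : 2 ≤ (n : ℝ) / (4 * d) := by
          rw [le_div_iff₀ (by positivity)]
          nlinarith
        have hnd : (n : ℝ) / d = 4 * (n / (4 * d)) := by
          field_simp
        have hnd2 : (n : ℝ) / (2 * d) = 2 * (n / (4 * d)) := by
          field_simp
          ring
        have hle : m ≤ n / d := by
          have : (m : ℝ) < ((n / d : ℕ) : ℝ) := by linarith
          exact_mod_cast this.le
        have hYr : (m : ℝ) * (n / (2 * d)) ≤ ((corY d U j).card : ℝ) := by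
          have h5 : ((m * (n / d - m) : ℕ) : ℝ) ≤ ((corY d U j).card : ℝ) := by exact_mod_cast hY
          rw [Nat.cast_mul, Nat.cast_sub hle] at h5
          refine le_trans ?_ h5
          apply mul_le_mul_of_nonneg_left _ (Nat.cast_nonneg _)
          linarith
        have hexp1 : (1 - c / (n : ℝ) / 2) ^ (corY d U j).card ≤
            Real.exp (-(c * m / (4 * d))) := by
          have h6 : (1 - c / (n : ℝ) / 2) ≤ Real.exp (-(c / (n : ℝ) / 2)) := by
            have := Real.add_one_le_exp (-(c / (n : ℝ) / 2))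
            linarith
          have h7 : 0 ≤ 1 - c / (n : ℝ) / 2 := by linarith
          refine (pow_le_pow_left₀ h7 h6 _).trans ?_
          rw [← Real.exp_nat_mul]
          apply Real.exp_le_exp.mpr
          have h9 : (m : ℝ) * (n / (2 * d)) * (c / n / 2) ≤
              ((corY d U j).card : ℝ) * (c / n / 2) :=
            mul_le_mul_of_nonneg_right hYr (by positivity)
          have h10 : (m : ℝ) * (n / (2 * d)) * (c / n / 2) = c * m / (4 * d) := by
            field_simp
            ring
          rw [h10] at h9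
          linarith
        have hexp2 : (2 : ℝ) ^ (K * m) ≤ Real.exp (c * m / (8 * d)) := by
          have h6 : (2 : ℝ) ≤ Real.exp 1 := by
            have := Real.add_one_le_exp (1 : ℝ)
            linarith
          refine (pow_le_pow_left₀ (by norm_num) h6 _).trans ?_
          rw [← Real.exp_nat_mul]
          apply Real.exp_le_exp.mpr
          rw [mul_one, Nat.cast_mul, le_div_iff₀ (by positivity)]
          have := mul_le_mul_of_nonneg_right hK (Nat.cast_nonneg (α := ℝ) m)
          linarith
        refine (mul_le_mul hexp2 hexp1 (pow_nonneg (by linarith) _) (Real.exp_pos _).le).trans ?_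
        rw [← Real.exp_add]
        apply Real.exp_le_exp.mpr
        have h11 : c * η * n / (8 * d) ≤ c * m / (8 * d) := by
          apply div_le_div_of_nonneg_right _ (by positivity)
          nlinarith
        have h12 : c * m / (4 * d) = 2 * (c * m / (8 * d)) := by
          field_simp
          ring
        linarith
      · have : mu (c / (n : ℝ)) (fun B : Finset (E n) => U.card = m ∧ ∀ u ∈ U,
            ((Finset.univ \ U).filter (fun v => colr d v (j u) ∧ (gr B).Adj u v)).card < K) = 0 := by
          unfold mu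
          apply Finset.sum_eq_zero
          intro B _
          rw [if_neg (fun h => hU h.1)]
        rw [this]
        exact (Real.exp_pos _).le
    have hcov : mu (c / (n : ℝ)) (fun B : Finset (E n) =>
        ∃ U : Finset (Fin n), U.card = m ∧ ∀ u ∈ U, ∃ j : Fin d,
          ((Finset.univ \ U).filter (fun v => colr d v j ∧ (gr B).Adj u v)).card < K) ≤
        mu (c / (n : ℝ)) (fun B : Finset (E n) =>
          ∃ i ∈ (Finset.univ : Finset (Finset (Fin n) × (Fin n → Fin d))), i.1.card = m ∧
          ∀ u ∈ i.1, ((Finset.univ \ i.1).filter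
            (fun v => colr d v (i.2 u) ∧ (gr B).Adj u v)).card < K) := by
      apply hMON _ _ hp0 hp1
      rintro B ⟨U, hU, hB⟩
      have hchoice : ∃ j : Fin n → Fin d, ∀ u ∈ U,
          ((Finset.univ \ U).filter (fun v => colr d v (j u) ∧ (gr B).Adj u v)).card < K := by
        refine ⟨fun u => if hu : u ∈ U then (hB u hu).choose else ⟨0, by omega⟩, ?_⟩
        intro u hu
        simp only [dif_pos hu]
        exact (hB u hu).choose_spec
      obtain ⟨j, hj⟩ := hchoice
      exact ⟨(U, j), Finset.mem_univ _, hU, hj⟩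
    refine hcov.trans ((hUNI _ _ hp0 hp1 _ Finset.univ _).trans ?_)
    refine (Finset.sum_le_sum (fun i _ => hone i)).trans ?_
    rw [Finset.sum_const, nsmul_eq_mul]
    have hcard : ((Finset.univ : Finset (Finset (Fin n) × (Fin n → Fin d))).card : ℝ) =
        Real.exp (n * Real.log (2 * d)) := by
      rw [Finset.card_univ, Fintype.card_prod, Fintype.card_finset, Fintype.card_fun,
        Fintype.card_fin, Fintype.card_fin, ← mul_pow, Nat.cast_pow, Nat.cast_mul, Nat.cast_two,
        Real.exp_nat_mul, Real.exp_log (by positivity)]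
    rw [hcard, ← Real.exp_add]
    apply Real.exp_le_exp.mpr
    have h13 : Real.log (2 * d) + 1 ≤ c * η / (8 * d) := by
      rw [div_le_iff₀ hη] at hc
      rw [le_div_iff₀ (by positivity)]
      linarith
    have h14 : (Real.log (2 * d) + 1) * n ≤ c * η / (8 * d) * n :=
      mul_le_mul_of_nonneg_right h13 hn0.le
    have h15 : c * η / (8 * d) * n = c * η * n / (8 * d) := by ring
    rw [h15] at h14
    linarith
  have hpos : ∀ᶠ n : ℕ in atTop, 0 ≤ mu (c / (n : ℝ)) (fun B : Finset (E n) =>
    ∃ U : Finset (Fin n), U.card = ⌈η * (n : ℝ)⌉₊ ∧ ∀ u ∈ U, ∃ j : Fin d,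
      ((Finset.univ \ U).filter (fun v => colr d v j ∧ (gr B).Adj u v)).card < K) := by
    have ev1 : ∀ᶠ n : ℕ in atTop, c ≤ (n : ℝ) := tendsto_natCast_atTop_atTop.eventually_ge_atTop c
    filter_upwards [ev1] with n h1
    have hn0 : (0 : ℝ) < n := lt_of_lt_of_le hc0 h1
    exact cor_nonneg _ (by positivity) ((div_le_one hn0).mpr h1) _
  have hlim : Tendsto (fun n : ℕ => Real.exp (-(n : ℝ))) atTop (nhds 0) :=
    Real.tendsto_exp_neg_atTop_nhds_zero.comp tendsto_natCast_atTop_atTop
  exact tendsto_of_tendsto_of_tendsto_of_le_of_le' tendsto_const_nhds hlim hpos hmain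

end Pool.Agent.H23.RG
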