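import Pool.Agent.H23.RG.Stm2

set_option autoImplicit false
open Classical Filter

namespace Pool.Agent.H23.RG

/-- the rigidity matrix depends only on the placement of the vertices of `A` -/
theorem rm_congr_cyc {d n : ℕ} (G : SimpleGraph (Fin n)) (A : Finset (Fin n))
    (q q' : Fin n → Fin d → ℝ) (h : ∀ v ∈ A, q' v = q v) : RM d G A q' = RM d G A q := by
  ext e x
  unfold RM
  simp only [Matrix.of_apply]
  by_cases h1 : e.1 ∈ A ∧ e.2 ∈ A ∧ G.Adj e.1 e.2
  · rw [if_pos h1, if_pos h1, h e.1 h1.1, h e.2 h1.2.1]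
  · rw [if_neg h1, if_neg h1]

/-- CYC: adding a cycle. -/
theorem cyc_part (hPRG : S_PRG) (hPLC : S_PLC) (hBLK : S_BLK) (hPAR : S_PAR) : S_CYC := by
  intro d n G A R r r' hd hA hAc hdis hR2 hRA hr hr' hrr hN
  have hne : r ≠ r' := G.ne_of_adj hrr
  -- placement
  obtain ⟨q, hq⟩ : ∃ q : Fin n → Fin d → ℝ,
      d * A.card - d * (d + 1) / 2 ≤ (RM d G A q).rank := by
    rcases hA with ⟨h1, -⟩ | ⟨-, h2⟩
    · omega
    · exact h2
  obtain ⟨q1, hgen, hq1⟩ := hPRG d n G A q
  obtain ⟨q', hq'eq, hp2, hp3⟩ := hPLC d n q1 R (fun u => A.filter (G.Adj u)) r r' hd hgen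
    (fun u hu => ⟨Finset.disjoint_of_subset_left (Finset.filter_subset _ _) hdis, hRA u hu⟩)
    hr hr' hne hN
  have hr'A : r' ∉ A := fun h => Finset.disjoint_left.1 hdis h hr'
  have hrm : RM d G A q' = RM d G A q1 := rm_congr_cyc G A q1 q' fun v hv =>
    hq'eq v (fun h => hr'A (h ▸ hv))
  -- the component of `r`
  set T : Finset (Fin n) := R.filter
    (fun v => Relation.ReflTransGen (fun a b => b ∈ R ∧ G.Adj a b) r v) with hT
  have hTR : T ⊆ R := Finset.filter_subset _ _
  have hrT : r ∈ T := Finset.mem_filter.2 ⟨hr, Relation.ReflTransGen.refl⟩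
  have hcl : ∀ u ∈ T, ∀ w ∈ R, G.Adj u w → w ∈ T := fun u hu w hw huw =>
    Finset.mem_filter.2 ⟨hw, (Finset.mem_filter.1 hu).2.tail ⟨hw, huw⟩⟩
  have hr'T : r' ∈ T := hcl r hrT r' hr' hrr
  have hmin : ∀ Z : Finset (Fin n), r ∈ Z → (∀ u ∈ Z, ∀ w ∈ R, G.Adj u w → w ∈ Z) →
      T ⊆ Z := by
    intro Z hrZ hZ v hv
    have h1 := (Finset.mem_filter.1 hv).2
    induction h1 with
    | refl => exact hrZ
    | tail _ hbc ih =>
      rename_i b c hab
      by_cases hbR : b ∈ R
      · exact hZ b (ih (Finset.mem_filter.2 ⟨hbR, hab⟩)) c hbc.1 hbc.2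
      · rcases Relation.ReflTransGen.cases_tail hab with h | ⟨x, -, hx⟩
        · exact absurd (h ▸ hr) hbR
        · exact absurd hx.1 hbR
  have hTdeg : ∀ u ∈ T, (T.filter (G.Adj u)).card = 2 := by
    intro u hu
    rw [← hR2 u (hTR hu)]
    congr 1
    ext w
    simp only [Finset.mem_filter]
    exact ⟨fun h => ⟨hTR h.1, h.2⟩, fun h => ⟨hcl u hu w h.1 h.2, h.2⟩⟩
  have hAT : Disjoint A T := Finset.disjoint_of_subset_right hTR hdis
  have hrank := hBLK d n G A T q' hAT (by
    intro y hy0 hye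
    have hA0 : ∀ a ∈ A, y a = 0 := fun a ha => hy0 a (Finset.disjoint_left.1 hAT ha)
    have hNu : ∀ u ∈ T, ∀ a ∈ A.filter (G.Adj u), ∑ k, (q' u k - q' a k) * y u k = 0 := by
      intro u hu a ha
      obtain ⟨haA, hua⟩ := Finset.mem_filter.1 ha
      have h1 := hye u (Finset.mem_union_right _ hu) a (Finset.mem_union_left _ haA) hua
      rw [hA0 a haA] at h1
      simpa using h1
    have hyr' : y r' = 0 := by
      refine hp2 r' hr' r hr hne.symm (fun h => hne h.1.symm) (y r') (hNu r' hr'T) ?_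
      have h1 := hp3 (y r) (hNu r hrT)
      have h2 := hye r (Finset.mem_union_right _ hrT) r' (Finset.mem_union_right _ hr'T) hrr
      have h3 : ∑ k, (q' r k - q' r' k) * y r' k = 0 := by
        have h4 : ∑ k, (q' r k - q' r' k) * (y r k - y r' k) =
            ∑ k, (q' r k - q' r' k) * y r k - ∑ k, (q' r k - q' r' k) * y r' k := by
          rw [← Finset.sum_sub_distrib]
          exact Finset.sum_congr rfl fun k _ => by ring
        rw [h4, h1] at h2
        linarith
      calc ∑ k, (q' r' k - q' r k) * y r' k = -∑ k, (q' r k - q' r' k) * y r' k := by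
            rw [← Finset.sum_neg_distrib]
            exact Finset.sum_congr rfl fun k _ => by ring
        _ = 0 := by rw [h3, neg_zero]
    set Z : Finset (Fin n) := T.filter (fun u => y u = 0) with hZ
    have hZcl : ∀ u ∈ Z, ∀ w ∈ T, G.Adj u w → w ∈ Z ∨ (w = r ∧ u = r') := by
      intro u hu w hw huw
      by_cases hex : w = r ∧ u = r'
      · exact Or.inr hex
      left
      obtain ⟨huT, hyu⟩ := Finset.mem_filter.1 hu
      refine Finset.mem_filter.2 ⟨hw, ?_⟩
      refine hp2 w (hTR hw) u (hTR huT) (G.ne_of_adj huw).symm hex (y w) (hNu w hw) ?_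
      have h1 := hye w (Finset.mem_union_right _ hw) u (Finset.mem_union_right _ huT) huw.symm
      rw [hyu] at h1
      simpa using h1
    have hrZ : r ∈ Z := by
      by_contra hrZ
      exact hPAR n G T Z r r' hTdeg (Finset.filter_subset _ _)
        (Finset.mem_filter.2 ⟨hr'T, hyr'⟩) hrT hrZ hrr hZcl
    have hTZ : T ⊆ Z := hmin Z hrZ fun u hu w hw huw => by
      rcases hZcl u hu w (hcl u (Finset.mem_filter.1 hu).1 w hw huw) huw with h | h
      · exact h
      · rw [h.1]; exact hrZ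
    funext v
    by_cases hv : v ∈ T
    · exact (Finset.mem_filter.1 (hTZ hv)).2
    · exact hy0 v hv)
  refine ⟨T, hTR, ⟨r, hrT⟩, Or.inr ⟨?_, q', ?_⟩⟩
  · exact hAc.trans (Finset.card_le_card Finset.subset_union_left)
  · rw [Finset.card_union_of_disjoint hAT, Nat.mul_add]
    rw [hrm] at hrank
    omega

end Pool.Agent.H23.RG
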