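import Pool.Agent.H23.RG.Stm2

/-! Crew RG, part DJC. -/

set_option autoImplicit false
open Classical Filter

namespace Pool.Agent.H23.RG

/-- the pairs between `T` and `S` -/
noncomputable def djcY {n : ℕ} (T S : Finset (Fin n)) : Finset (E n) :=
  Finset.univ.filter (fun z : E n => (z.1.1 ∈ T ∧ z.1.2 ∈ S) ∨ (z.1.1 ∈ S ∧ z.1.2 ∈ T))

theorem djcY_card {n : ℕ} (T S : Finset (Fin n)) (hd : Disjoint T S) :
    T.card * S.card ≤ (djcY T S).card := by
  rw [← Finset.card_product]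
  refine Finset.card_le_card_of_surjOn
    (fun z : E n => if z.1.1 ∈ T then (z.1.1, z.1.2) else (z.1.2, z.1.1)) ?_
  rintro ⟨u, v⟩ hx
  rw [Finset.mem_coe, Finset.mem_product] at hx
  obtain ⟨hu, hv⟩ := hx
  dsimp only at hu hv
  have hne : u ≠ v := fun he => (Finset.disjoint_left.mp hd hu) (he ▸ hv)
  rcases lt_or_gt_of_ne hne with h | h
  · refine ⟨⟨(u, v), h⟩, ?_, ?_⟩
    · rw [Finset.mem_coe]
      unfold djcY
      rw [Finset.mem_filter]
      exact ⟨Finset.mem_univ _, Or.inl ⟨hu, hv⟩⟩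
    · simp only [hu, if_true]
  · refine ⟨⟨(v, u), h⟩, ?_, ?_⟩
    · rw [Finset.mem_coe]
      unfold djcY
      rw [Finset.mem_filter]
      exact ⟨Finset.mem_univ _, Or.inr ⟨hv, hu⟩⟩
    · have hvT : v ∉ T := fun h' => (Finset.disjoint_left.mp hd h') hv
      simp only [hvT, if_false]

theorem djc_inter {n : ℕ} (B : Finset (E n)) (T S : Finset (Fin n))
    (h : ∀ u ∈ T, ∀ v ∈ S, ¬ (gr B).Adj u v) : (B ∩ djcY T S).card ≤ 0 := by
  rw [Nat.le_zero, Finset.card_eq_zero, Finset.eq_empty_iff_forall_notMem]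
  intro z hz
  rw [Finset.mem_inter] at hz
  obtain ⟨hB, hY⟩ := hz
  unfold djcY at hY
  rw [Finset.mem_filter] at hY
  rcases hY.2 with h1 | h1
  · exact h _ h1.1 _ h1.2 (Or.inl ⟨z.2, hB⟩)
  · exact h _ h1.2 _ h1.1 (Or.inr ⟨z.2, hB⟩)

theorem djc_mu_nonneg {X : Type} [Fintype X] (p : ℝ) (h0 : 0 ≤ p) (h1 : p ≤ 1)
    (Q : Finset X → Prop) : 0 ≤ mu p Q := by
  unfold mu
  refine Finset.sum_nonneg fun A _ => ?_
  split_ifs
  · exact mul_nonneg (pow_nonneg h0 _) (pow_nonneg (by linarith) _)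
  · exact le_rfl

theorem djc_part (hCH2 : S_CH2) (hUNI : S_UNI) (hMON : S_MON) : S_DJC := by
  intro γ hγ
  refine ⟨6 / γ ^ 2, by positivity, ?_⟩
  intro c hc
  have hγ2 : 0 < γ ^ 2 := by positivity
  have hc0 : 0 < c := lt_of_lt_of_le (by positivity) hc
  have hc6 : 6 ≤ c * γ ^ 2 := by
    rw [div_le_iff₀ hγ2] at hc
    exact hc
  have hev : ∀ᶠ n : ℕ in atTop, 0 < (n : ℝ) ∧ c ≤ (n : ℝ) := by
    filter_upwards [eventually_ge_atTop (max 1 ⌈c⌉₊)] with n hn
    have h1 : 1 ≤ n := le_trans (le_max_left _ _) hn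
    have h2 : ⌈c⌉₊ ≤ n := le_trans (le_max_right _ _) hn
    exact ⟨by exact_mod_cast h1, le_trans (Nat.le_ceil c) (by exact_mod_cast h2)⟩
  refine squeeze_zero' (g := fun n : ℕ => Real.exp (-1) ^ n) ?_ ?_
    (tendsto_pow_atTop_nhds_zero_of_lt_one (Real.exp_pos _).le (by
      rw [Real.exp_lt_one_iff]; norm_num))
  · filter_upwards [hev] with n hn
    exact djc_mu_nonneg _ (by positivity) ((div_le_one hn.1).mpr hn.2) _
  · filter_upwards [hev] with n hn
    obtain ⟨hn0, hnc⟩ := hn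
    set p : ℝ := c / (n : ℝ) with hp
    have hp0 : 0 ≤ p := by positivity
    have hp1 : p ≤ 1 := (div_le_one hn0).mpr hnc
    set I : Finset (Finset (Fin n) × Finset (Fin n)) :=
      Finset.univ.filter (fun i => Disjoint i.1 i.2 ∧ γ * (n : ℝ) ≤ (i.1.card : ℝ) ∧
        γ * (n : ℝ) ≤ (i.2.card : ℝ)) with hI
    have h1 : mu p (fun B : Finset (E n) =>
        ∃ T S : Finset (Fin n), Disjoint T S ∧ γ * (n : ℝ) ≤ (T.card : ℝ) ∧
        γ * (n : ℝ) ≤ (S.card : ℝ) ∧ ∀ u ∈ T, ∀ v ∈ S, ¬ (gr B).Adj u v) ≤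
        mu p (fun B : Finset (E n) => ∃ i ∈ I, (∅ : Finset (E n)) ⊆ B ∧
          (B ∩ djcY i.1 i.2).card ≤ 0) := by
      refine hMON _ p hp0 hp1 _ _ ?_
      rintro B ⟨T, S, hd, hT, hS, hTS⟩
      refine ⟨(T, S), ?_, Finset.empty_subset _, djc_inter B T S hTS⟩
      rw [hI, Finset.mem_filter]
      exact ⟨Finset.mem_univ _, hd, hT, hS⟩
    have h2 := hUNI (E n) p hp0 hp1 _ I (fun i B => (∅ : Finset (E n)) ⊆ B ∧
          (B ∩ djcY i.1 i.2).card ≤ 0)
    have h3 : ∀ i ∈ I, mu p (fun B : Finset (E n) => (∅ : Finset (E n)) ⊆ B ∧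
          (B ∩ djcY i.1 i.2).card ≤ 0) ≤ Real.exp (-3) ^ n := by
      intro i hi
      rw [hI, Finset.mem_filter] at hi
      obtain ⟨_, hd, hT, hS⟩ := hi
      have h4' := hCH2 (E n) p ∅ (djcY i.1 i.2) 0 hp0 hp1 (Finset.disjoint_empty_left _)
      rw [Finset.card_empty, pow_zero, pow_zero, one_mul, one_mul] at h4'
      have h4 : mu p (fun B : Finset (E n) => (∅ : Finset (E n)) ⊆ B ∧
          (B ∩ djcY i.1 i.2).card ≤ 0) ≤ (1 - p / 2) ^ (djcY i.1 i.2).card := by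
        refine le_trans (le_of_eq ?_) h4'
        refine congrArg (mu p) ?_
        funext B
        have hCD : ∀ C D : Finset (E n), C = D →
            ((∅ : Finset (E n)) ⊆ B ∧ C.card ≤ 0) =
              ((∅ : Finset (E n)) ⊆ B ∧ D.card ≤ 0) := by
          rintro C _ rfl
          rfl
        exact hCD _ _ (by ext x; simp only [Finset.mem_inter])
      refine le_trans h4 ?_
      have h5 : 0 ≤ 1 - p / 2 := by linarith
      have h6 : 1 - p / 2 ≤ Real.exp (-(p / 2)) := Real.one_sub_le_exp_neg (p / 2)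
      refine le_trans (pow_le_pow_left₀ h5 h6 _) ?_
      rw [← Real.exp_nat_mul, ← Real.exp_nat_mul, Real.exp_le_exp]
      have h7 : (i.1.card : ℝ) * (i.2.card : ℝ) ≤ ((djcY i.1 i.2).card : ℝ) := by
        exact_mod_cast djcY_card i.1 i.2 hd
      have h8 : (γ * (n : ℝ)) * (γ * (n : ℝ)) ≤ (i.1.card : ℝ) * (i.2.card : ℝ) :=
        mul_le_mul hT hS (by positivity) (by positivity)
      have h9 : (γ * (n : ℝ)) * (γ * (n : ℝ)) * (p / 2) ≤
          ((djcY i.1 i.2).card : ℝ) * (p / 2) :=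
        mul_le_mul_of_nonneg_right (le_trans h8 h7) (by positivity)
      have h10 : (γ * (n : ℝ)) * (γ * (n : ℝ)) * (p / 2) = (c * γ ^ 2) / 2 * (n : ℝ) := by
        rw [hp]
        field_simp
      have h11 : 3 * (n : ℝ) ≤ (c * γ ^ 2) / 2 * (n : ℝ) :=
        mul_le_mul_of_nonneg_right (by linarith) hn0.le
      nlinarith [h9, h10, h11]
    have h4 : ∑ i ∈ I, mu p (fun B : Finset (E n) => (∅ : Finset (E n)) ⊆ B ∧
          (B ∩ djcY i.1 i.2).card ≤ 0) ≤ (4 : ℝ) ^ n * Real.exp (-3) ^ n := by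
      refine le_trans (Finset.sum_le_card_nsmul I _ _ h3) ?_
      rw [nsmul_eq_mul]
      refine mul_le_mul_of_nonneg_right ?_ (by positivity)
      have h5 : I.card ≤ 4 ^ n := by
        refine le_trans (Finset.card_le_univ I) ?_
        rw [Fintype.card_prod, Fintype.card_finset, Fintype.card_fin, ← mul_pow]
        norm_num
      exact_mod_cast h5
    refine le_trans h1 (le_trans h2 (le_trans h4 ?_))
    rw [← mul_pow]
    refine pow_le_pow_left₀ (by positivity) ?_ n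
    have h5 : (4 : ℝ) ≤ Real.exp 2 := by
      have h6 := Real.add_one_le_exp (1 : ℝ)
      have h7 : Real.exp 2 = Real.exp 1 * Real.exp 1 := by
        rw [← Real.exp_add]; norm_num
      nlinarith
    calc (4 : ℝ) * Real.exp (-3) ≤ Real.exp 2 * Real.exp (-3) :=
          mul_le_mul_of_nonneg_right h5 (Real.exp_pos _).le
      _ = Real.exp (-1) := by rw [← Real.exp_add]; norm_num

end Pool.Agent.H23.RG
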