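import Pool.Agent.H23.RG.Stm2

set_option autoImplicit false
open Classical Filter

namespace Pool.Agent.H23.RG

theorem end_part (hEX1 : S_EX1) (hCYC : S_CYC) (hCLO : S_CLO) (hEDG : S_EDG) : S_END := by
  intro d n m B A hd hR hmax hA hhalf h1 h2 h3 v hv
  have s1 : ∀ w, w ∉ A → (A.filter ((gr B).Adj w)).card < d := by
    intro w hw
    by_contra hc
    push Not at hc
    have h := hmax (insert w A) (Finset.subset_insert _ _) (hEX1 d n (gr B) A w hR hA hw hc)
    exact hw (h ▸ Finset.mem_insert_self w A)
  have degsum : ∀ S : Finset (Fin n), ∑ u ∈ S, (S.filter ((gr B).Adj u)).card = 2 * eS B S := by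
    intro S
    rw [← hEDG n B S, Finset.card_filter, Finset.sum_product]
    refine Finset.sum_congr rfl fun u _ => ?_
    rw [Finset.card_filter]
  have key : ∀ T : Finset (Fin n), T.Nonempty → T ⊆ Finset.univ \ A →
      eS B T ≤ T.card ∧ (T.card ≤ eS B T → T.card < m) := by
    intro T hT hTW
    obtain ⟨S, hTS, hSW, hcl, hcount⟩ := hCLO n B T (Finset.univ \ A) hTW
    have hfew : FewOut d (gr B) S := by
      intro u hu
      have huA : u ∉ A := (Finset.mem_sdiff.mp (hSW hu)).2
      have hsub : (Finset.univ \ S).filter ((gr B).Adj u) ⊆ A.filter ((gr B).Adj u) := by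
        intro w hw
        obtain ⟨hw1, hw2⟩ := Finset.mem_filter.mp hw
        by_contra hwA
        have hwA' : w ∉ A := fun h => hwA (Finset.mem_filter.mpr ⟨h, hw2⟩)
        exact (Finset.mem_sdiff.mp hw1).2
          (hcl u hu w (Finset.mem_sdiff.mpr ⟨Finset.mem_univ _, hwA'⟩) hw2)
      have e1 := Finset.card_le_card hsub
      have e2 := s1 u huA
      omega
    have hS2 : 2 * S.card ≤ n := by
      have := Finset.card_le_card hSW
      rw [Finset.card_sdiff_of_subset (Finset.subset_univ _), Finset.card_univ, Fintype.card_fin] at this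
      omega
    have a1 := h1 S (hT.mono hTS) hS2 hfew
    refine ⟨by omega, fun hle => ?_⟩
    by_contra hm
    push Not at hm
    have := h2 S (hm.trans (Finset.card_le_card hTS)) hS2 hfew
    omega
  have core : ∀ C' : Finset (Fin n), (∀ w ∈ C', d + 1 ≤ (C'.filter ((gr B).Adj w)).card) → C' ⊆ A := by
    intro C' hC'
    by_contra hnot
    obtain ⟨R, hRdef⟩ : ∃ R, R = C' \ A := ⟨_, rfl⟩
    have hRA : ∀ u ∈ R, u ∈ C' ∧ u ∉ A := by
      intro u hu
      rw [hRdef] at hu
      exact Finset.mem_sdiff.mp hu
    have hRne : R.Nonempty := by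
      rw [hRdef]
      exact Finset.sdiff_nonempty.mpr hnot
    have hRW : R ⊆ Finset.univ \ A := by
      intro u hu
      exact Finset.mem_sdiff.mpr ⟨Finset.mem_univ _, (hRA u hu).2⟩
    have hsplit : ∀ w, (C'.filter ((gr B).Adj w)).card ≤
        (R.filter ((gr B).Adj w)).card + (A.filter ((gr B).Adj w)).card := by
      intro w
      refine (Finset.card_le_card ?_).trans (Finset.card_union_le _ _)
      intro x hx
      obtain ⟨hx1, hx2⟩ := Finset.mem_filter.mp hx
      by_cases hxA : x ∈ A
      · exact Finset.mem_union_right _ (Finset.mem_filter.mpr ⟨hxA, hx2⟩)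
      · refine Finset.mem_union_left _ (Finset.mem_filter.mpr ⟨?_, hx2⟩)
        rw [hRdef]
        exact Finset.mem_sdiff.mpr ⟨hx1, hxA⟩
    have hdeg2 : ∀ w ∈ R, 2 ≤ (R.filter ((gr B).Adj w)).card := by
      intro w hw
      obtain ⟨hw1, hw2⟩ := hRA w hw
      have e1 := hC' w hw1
      have e2 := hsplit w
      have e3 := s1 w hw2
      omega
    obtain ⟨k1, k2⟩ := key R hRne hRW
    have hsum := degsum R
    have hge : ∑ u ∈ R, 2 ≤ ∑ u ∈ R, (R.filter ((gr B).Adj u)).card := Finset.sum_le_sum hdeg2
    have hge' : ∑ u ∈ R, 2 = 2 * R.card := by rw [Finset.sum_const, smul_eq_mul, mul_comm]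
    have heq : eS B R = R.card := by omega
    have hlt : R.card < m := k2 (by omega)
    have hdeg : ∀ u ∈ R, 2 = (R.filter ((gr B).Adj u)).card :=
      (Finset.sum_eq_sum_iff_of_le hdeg2).mp (by omega)
    have hdegA : ∀ u ∈ R, (A.filter ((gr B).Adj u)).card = d - 1 := by
      intro w hw
      obtain ⟨hw1, hw2⟩ := hRA w hw
      have e1 := hC' w hw1
      have e2 := hsplit w
      have e3 := s1 w hw2
      have e4 := hdeg w hw
      omega
    by_cases hex : ∃ r ∈ R, ∃ r' ∈ R, (gr B).Adj r r' ∧
        A.filter ((gr B).Adj r) ≠ A.filter ((gr B).Adj r')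
    · obtain ⟨r, hr, r', hr', hadj, hne⟩ := hex
      have hdis : Disjoint A R := by
        rw [Finset.disjoint_left]
        intro x hxA hxR
        exact (hRA x hxR).2 hxA
      obtain ⟨T, hTR, hTne, hTrig⟩ := hCYC d n (gr B) A R r r' hd hR hA hdis
        (fun u hu => (hdeg u hu).symm) hdegA hr hr' hadj hne
      have h := hmax (A ∪ T) Finset.subset_union_left hTrig
      obtain ⟨t, ht⟩ := hTne
      have : t ∈ A := h ▸ Finset.mem_union_right A ht
      exact (hRA t (hTR ht)).2 this
    · push Not at hex
      obtain ⟨r0, hr0⟩ := hRne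
      obtain ⟨N, hN⟩ : ∃ N, N = A.filter ((gr B).Adj r0) := ⟨_, rfl⟩
      have hNc : N.card = d - 1 := by rw [hN]; exact hdegA r0 hr0
      obtain ⟨T, hT⟩ : ∃ T, T = R.filter (fun r => A.filter ((gr B).Adj r) = N) := ⟨_, rfl⟩
      have hTm : ∀ u, u ∈ T ↔ u ∈ R ∧ A.filter ((gr B).Adj u) = N := by
        intro u
        rw [hT, Finset.mem_filter]
      have hTR : T ⊆ R := fun u hu => ((hTm u).mp hu).1
      have hTdeg : ∀ u ∈ T, (T.filter ((gr B).Adj u)).card = 2 := by
        intro u hu
        obtain ⟨hu1, hu2⟩ := (hTm u).mp hu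
        rw [hdeg u hu1]
        congr 1
        ext w
        rw [Finset.mem_filter, Finset.mem_filter]
        constructor
        · rintro ⟨h, h'⟩
          exact ⟨hTR h, h'⟩
        · rintro ⟨h, h'⟩
          refine ⟨(hTm w).mpr ⟨h, ?_⟩, h'⟩
          rw [← hex u hu1 w h h']
          exact hu2
      have hr0T : r0 ∈ T := (hTm r0).mpr ⟨hr0, hN.symm⟩
      have hT3 : 3 ≤ T.card := by
        have e1 := hTdeg r0 hr0T
        have hsub : insert r0 (T.filter ((gr B).Adj r0)) ⊆ T := by
          intro x hx
          rcases Finset.mem_insert.mp hx with rfl | hx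
          · exact hr0T
          · exact (Finset.mem_filter.mp hx).1
        have hnot : r0 ∉ T.filter ((gr B).Adj r0) := by
          intro h
          exact (gr B).loopless.irrefl r0 (Finset.mem_filter.mp h).2
        have e2 := Finset.card_le_card hsub
        rw [Finset.card_insert_of_notMem hnot, e1] at e2
        omega
      have hdisTN : Disjoint T N := by
        rw [Finset.disjoint_left]
        intro x hx hxN
        rw [hN] at hxN
        exact (hRA x (hTR hx)).2 (Finset.mem_filter.mp hxN).1
      have hcard : (T ∪ N).card = T.card + (d - 1) := by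
        rw [Finset.card_union_of_disjoint hdisTN, hNc]
      have hds := degsum (T ∪ N)
      rw [Finset.sum_union hdisTN] at hds
      have b1 : T.card * (d + 1) ≤ ∑ u ∈ T, ((T ∪ N).filter ((gr B).Adj u)).card := by
        rw [← smul_eq_mul, ← Finset.sum_const]
        refine Finset.sum_le_sum fun u hu => ?_
        obtain ⟨hu1, hu2⟩ := (hTm u).mp hu
        rw [Finset.filter_union, Finset.card_union_of_disjoint
          (Finset.disjoint_filter_filter hdisTN), hTdeg u hu]
        have : N.filter ((gr B).Adj u) = N := by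
          rw [Finset.filter_eq_self]
          intro x hx
          rw [← hu2] at hx
          exact (Finset.mem_filter.mp hx).2
        rw [this, hNc]
        omega
      have b2 : N.card * T.card ≤ ∑ u ∈ N, ((T ∪ N).filter ((gr B).Adj u)).card := by
        rw [← smul_eq_mul, ← Finset.sum_const]
        refine Finset.sum_le_sum fun u hu => ?_
        apply Finset.card_le_card
        intro x hx
        refine Finset.mem_filter.mpr ⟨Finset.mem_union_left _ hx, ?_⟩
        obtain ⟨hx1, hx2⟩ := (hTm x).mp hx
        rw [← hx2] at hu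
        exact SimpleGraph.Adj.symm (Finset.mem_filter.mp hu).2
      have hh3 := h3 (T ∪ N) (by omega) (by
        have := Finset.card_le_card hTR
        omega)
      rw [hNc] at b2
      obtain ⟨k, rfl⟩ : ∃ k, d = k + 2 := ⟨d - 2, by omega⟩
      have hk : k + 2 - 1 = k + 1 := by omega
      rw [hk] at b2 hcard
      rw [hcard] at hh3
      nlinarith
  refine hv A ?_ ?_
  · rintro u ⟨S, huS, hS⟩
    exact core S (fun w hw => by convert hS w hw) huS
  · intro w hw
    by_contra hwA
    have := s1 w hwA
    have hw' : d ≤ (A.filter ((gr B).Adj w)).card := by convert hw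
    omega

end Pool.Agent.H23.RG
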