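import Pool.Agent.H23.RG.Stm2

/-! Crew RG, stage 2, part EX1 (helper10): adding a vertex with `d` neighbours. -/

set_option autoImplicit false
open Classical Filter

namespace Pool.Agent.H23.RG

theorem ex1_part (hPRG : S_PRG) (hBLK : S_BLK) : S_EX1 := by
  intro d n G A v hA hcard hv hdeg
  obtain ⟨q, hq⟩ : ∃ q : Fin n → Fin d → ℝ, d * A.card - d * (d + 1) / 2 ≤ (RM d G A q).rank := by
    rcases hA with h | h
    · exact absurd h.1 (by omega)
    · exact h.2
  obtain ⟨q', hgen, hr⟩ := hPRG d n G A q
  obtain ⟨t, ht, htc⟩ := Finset.exists_subset_card_eq hdeg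
  set a : Fin d → Fin n := fun i => t.orderEmbOfFin htc i with ha
  have ha1 : ∀ i, a i ∈ A ∧ G.Adj v (a i) := fun i =>
    Finset.mem_filter.1 (ht (Finset.orderEmbOfFin_mem t htc i))
  have hinj : Function.Injective (Fin.cons v a : Fin (d + 1) → Fin n) := by
    rw [Fin.cons_injective_iff]
    refine ⟨?_, (t.orderEmbOfFin htc).injective⟩
    rintro ⟨i, hi⟩
    exact hv (hi ▸ (ha1 i).1)
  have haff := hgen _ hinj
  rw [affineIndependent_iff_linearIndependent_vsub ℝ _ (0 : Fin (d + 1))] at haff
  have hspan := haff.span_eq_top_of_card_eq_finrank' (by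
    rw [Module.finrank_fin_fun, Fintype.card_subtype_compl, Fintype.card_fin,
      Fintype.card_subtype_eq]
    rfl)
  have hdis : Disjoint A {v} := Finset.disjoint_singleton_right.2 hv
  have h1 := hBLK d n G A {v} q' hdis ?_
  · right
    have h2 : A ∪ {v} = insert v A := by rw [Finset.union_comm]; rfl
    rw [h2, Finset.card_singleton] at h1
    refine ⟨by rw [Finset.card_insert_of_notMem hv]; omega, q', ?_⟩
    rw [Finset.card_insert_of_notMem hv]
    have h3 : d * (A.card + 1) = d * A.card + d := by ring
    have h4 : d * (d + 1) / 2 ≤ d * A.card :=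
      (Nat.div_le_self _ _).trans (Nat.mul_le_mul_left d hcard)
    omega
  · intro y hy hflex
    have hyv : y v = 0 := by
      let f : (Fin d → ℝ) →ₗ[ℝ] ℝ := 
        { toFun := fun z => ∑ k, z k * y v k
          map_add' := fun z w => by
            rw [← Finset.sum_add_distrib]
            exact Finset.sum_congr rfl fun k _ => by rw [Pi.add_apply]; ring
          map_smul' := fun r z => by
            rw [RingHom.id_apply, smul_eq_mul, Finset.mul_sum]
            exact Finset.sum_congr rfl fun k _ => by rw [Pi.smul_apply, smul_eq_mul]; ring }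
      have hle : (⊤ : Submodule ℝ (Fin d → ℝ)) ≤ LinearMap.ker f := by
        rw [← hspan, Submodule.span_le]
        rintro z ⟨⟨i, hi⟩, rfl⟩
        obtain ⟨j, rfl⟩ := Fin.exists_succ_eq.2 hi
        rw [SetLike.mem_coe, LinearMap.mem_ker]
        have h5 := hflex v (by simp) (a j) (Finset.mem_union_left _ (ha1 j).1) (ha1 j).2
        have h6 : y (a j) = 0 := hy _ (by
          rw [Finset.mem_singleton]; intro h; exact hv (h ▸ (ha1 j).1))
        rw [h6] at h5
        have e1 : (Fin.cons v a : Fin (d + 1) → Fin n) (Fin.succ j) = a j := Fin.cons_succ _ _ _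
        have e2 : (Fin.cons v a : Fin (d + 1) → Fin n) 0 = v := Fin.cons_zero _ _
        show ∑ k, (q' ((Fin.cons v a : Fin (d + 1) → Fin n) (Fin.succ j)) k -
          q' ((Fin.cons v a : Fin (d + 1) → Fin n) 0) k) * y v k = 0
        rw [e1, e2]
        have h7 : ∑ k, (q' (a j) k - q' v k) * y v k =
            - ∑ k, (q' v k - q' (a j) k) * (y v k - (0 : Fin d → ℝ) k) := by
          rw [← Finset.sum_neg_distrib]
          exact Finset.sum_congr rfl fun k _ => by rw [Pi.zero_apply]; ring
        rw [h7, h5, neg_zero]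
      have h8 : f (y v) = 0 := LinearMap.mem_ker.1 (hle Submodule.mem_top)
      have h9 : dotProduct (y v) (y v) = 0 := h8
      exact dotProduct_self_eq_zero.1 h9
    funext u
    by_cases hu : u = v
    · rw [hu, hyv]; rfl
    · rw [hy u (by rw [Finset.mem_singleton]; exact hu)]; rfl

end Pool.Agent.H23.RG
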