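import Pool.Agent.H23.RG.BIG

/-! Crew RG, stage 2, part HIN (helper2). -/

set_option autoImplicit false
open Classical Filter

namespace Pool.Agent.H23.RG

theorem hin_part (hBIG : S_BIG) (hEND : S_END) (hLFA : S_LFA) (hLFB : S_LFB) (hMID : S_MID)
    (hCON : S_CON) : S_HIN := by
  intro d hd
  obtain ⟨c₁, hc₁, h1⟩ := hBIG d (1 / 4) hd (by norm_num)
  obtain ⟨c₂, hc₂, h2⟩ := hLFA d hd
  obtain ⟨c₃, hc₃, h3⟩ := hLFB d hd
  refine ⟨c₁ + c₂ + c₃, by positivity, ?_⟩
  intro c hc
  have hcpos : 0 < c := by linarith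
  obtain ⟨ε, hε, t4⟩ := hMID c hcpos
  have t1 := h1 c (by linarith)
  have t2 := h2 c (by linarith)
  have t3 := h3 c (ε / 2) (by linarith) (by positivity)
  have t5 := hCON d c hd hcpos
  have t := (((t1.add t2).add t3).add t4).add t5
  simp only [add_zero] at t
  refine tendsto_of_tendsto_of_tendsto_of_le_of_le' tendsto_const_nhds t ?_ ?_
  · filter_upwards [eventually_ge_atTop (⌈c⌉₊ + 1)] with n hn
    have hn1 : c ≤ n := (Nat.le_ceil c).trans (by exact_mod_cast (by omega : ⌈c⌉₊ ≤ n))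
    have hn0 : (0 : ℝ) < n := by linarith
    exact mu_nonneg_big _ (by positivity) (by rw [div_le_one hn0]; exact hn1) _
  · filter_upwards [eventually_ge_atTop (⌈c⌉₊ + 4 * d + 8 + ⌈2 * ((d : ℝ) + 1) / ε⌉₊)] with n hn
    have hn1 : c ≤ n := (Nat.le_ceil c).trans (by exact_mod_cast (by omega : ⌈c⌉₊ ≤ n))
    have hn0 : (0 : ℝ) < n := by linarith
    have hp0 : 0 ≤ c / (n : ℝ) := by positivity
    have hp1 : c / (n : ℝ) ≤ 1 := by rw [div_le_one hn0]; exact hn1
    have hn2 : 4 * (d : ℝ) + 8 ≤ n := by exact_mod_cast (by omega : 4 * d + 8 ≤ n)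
    have hn3 : 2 * ((d : ℝ) + 1) / ε ≤ n :=
      (Nat.le_ceil _).trans (by exact_mod_cast (by omega : ⌈2 * ((d : ℝ) + 1) / ε⌉₊ ≤ n))
    rw [div_le_iff₀ hε] at hn3
    refine le_trans (mu_mono_big _ hp0 hp1 _ _ ?_)
      ((mu_or_big _ hp0 hp1 _ _).trans (add_le_add_left
        ((mu_or_big _ hp0 hp1 _ _).trans (add_le_add_left
          ((mu_or_big _ hp0 hp1 _ _).trans (add_le_add_left (mu_or_big _ hp0 hp1 _ _) _)) _)) _))
    intro B hbad
    by_contra hno
    simp only [not_or] at hno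
    obtain ⟨⟨⟨⟨n1, n2⟩, n3⟩, n4⟩, n5⟩ := hno
    apply hbad
    rw [not_not] at n1
    obtain ⟨A₀, hA₀, hA₀c⟩ := n1
    obtain ⟨A, hA, hmax⟩ := Finset.exists_max_image
      ((Finset.univ : Finset (Finset (Fin n))).filter (fun T => A₀ ⊆ T ∧ Rig d (gr B) T))
      Finset.card ⟨A₀, by simp [hA₀]⟩
    rw [Finset.mem_filter] at hA
    obtain ⟨-, hAA, hAR⟩ := hA
    have hAc : (1 - 1 / 4) * (n : ℝ) ≤ (A.card : ℝ) :=
      hA₀c.trans (by exact_mod_cast Finset.card_le_card hAA)
    have hmax' : ∀ T : Finset (Fin n), A ⊆ T → Rig d (gr B) T → T = A := by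
      intro T hT hTR
      refine (Finset.eq_of_subset_of_card_le hT (hmax T ?_)).symm
      rw [Finset.mem_filter]
      exact ⟨Finset.mem_univ _, hAA.trans hT, hTR⟩
    have hAd : d + 1 ≤ A.card := by
      have : (d : ℝ) + 1 ≤ A.card := by linarith
      exact_mod_cast this
    have hA4 : 4 ≤ A.card := by
      have : (4 : ℝ) ≤ A.card := by
        have : (0 : ℝ) ≤ d := Nat.cast_nonneg d
        linarith
      exact_mod_cast this
    have hAn : 2 * (n - A.card) ≤ n := by
      have : (n : ℝ) ≤ 2 * A.card := by linarith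
      have : n ≤ 2 * A.card := by exact_mod_cast this
      omega
    have hsub := hEND d n ⌈ε / 2 * (n : ℝ)⌉₊ B A hd hAR hmax' hAd hAn ?_ ?_ ?_
    · have heq : Finset.univ.filter (Hat d (gr B)) = A := by
        ext v
        rw [Finset.mem_filter]
        constructor
        · intro h
          exact hsub v h.2
        · intro hv
          refine ⟨Finset.mem_univ _, ?_⟩
          by_contra hcon
          exact n5 ⟨A, hAR, hA4, fun hall => hcon (hall v hv)⟩
      rw [heq]
      exact hAR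
    · intro S hS hSn hF
      by_contra hcon
      push Not at hcon
      exact n2 ⟨S, hS, hSn, hF, hcon⟩
    · intro S hS hSn hF
      by_contra hcon
      push Not at hcon
      exact n3 ⟨S, (Nat.le_ceil _).trans (by exact_mod_cast hS), hSn, hF, hcon⟩
    · intro S hS4 hSm
      by_contra hcon
      push Not at hcon
      refine n4 ⟨S, hS4, ?_, hcon⟩
      have h1 : (S.card : ℝ) ≤ ⌈ε / 2 * (n : ℝ)⌉₊ + d := by exact_mod_cast hSm
      have h2 : (⌈ε / 2 * (n : ℝ)⌉₊ : ℝ) < ε / 2 * n + 1 := Nat.ceil_lt_add_one (by positivity)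
      nlinarith

end Pool.Agent.H23.RG
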