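import Pool.Agent.H23.RG.LFA

/-!
Part LFB of the crew RG (MP_264ef2_co).
-/

set_option autoImplicit false
open Classical Filter

namespace Pool.Agent.H23.RG

theorem lfb_part (hLFM : S_LFM) (hUNI : S_UNI) (hMON : S_MON) : S_LFB := by
  intro d hd
  obtain ⟨c₀, hc₀, hc⟩ := lf_c0 d
  refine ⟨c₀, hc₀, fun c ε hcc hε => ?_⟩
  have hc0 : 0 < c := lt_of_lt_of_le hc₀ hcc
  have hx := hc c hcc
  have hceil : Tendsto (fun n : ℕ => ⌈ε * (n : ℝ)⌉₊) atTop atTop :=
    tendsto_nat_ceil_atTop.comp (tendsto_natCast_atTop_atTop.const_mul_atTop hε)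
  have hlim : Tendsto (fun n : ℕ => 2 * (1 / 2 : ℝ) ^ ⌈ε * (n : ℝ)⌉₊) atTop (nhds 0) := by
    have h1 : Tendsto (fun k : ℕ => (1 / 2 : ℝ) ^ k) atTop (nhds 0) :=
      tendsto_pow_atTop_nhds_zero_of_lt_one (by norm_num) (by norm_num)
    have := (h1.comp hceil).const_mul 2
    rw [mul_zero] at this
    exact this
  refine squeeze_zero' ?_ ?_ hlim
  · filter_upwards [eventually_ge_atTop ⌈c⌉₊] with n hn
    have hn1 : c ≤ n := (Nat.le_ceil c).trans (by exact_mod_cast hn)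
    have hn0 : (0 : ℝ) < n := lt_of_lt_of_le hc0 hn1
    exact lf_nonneg _ (by positivity) (by rw [div_le_one hn0]; exact hn1) _
  · filter_upwards [eventually_ge_atTop ⌈c⌉₊] with n hn
    have hn1 : c ≤ n := (Nat.le_ceil c).trans (by exact_mod_cast hn)
    have hn0 : (0 : ℝ) < n := lt_of_lt_of_le hc0 hn1
    have hp0 : 0 ≤ c / (n : ℝ) := by positivity
    have hp1 : c / (n : ℝ) ≤ 1 := by rw [div_le_one hn0]; exact hn1
    set J := (Finset.Icc 1 n).filter (fun s : ℕ => 2 * s ≤ n ∧ ε * (n : ℝ) ≤ (s : ℝ)) with hJ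
    refine (hMON (E n) _ hp0 hp1 _ (fun B => ∃ s ∈ J, ∃ S : Finset (Fin n), S.card = s ∧
      s ≤ eS B S ∧ FewOut d (gr B) S) ?_).trans ?_
    · rintro B ⟨S, hS1, hS2, hS3, hS4⟩
      refine ⟨S.card, ?_, S, rfl, hS4, hS3⟩
      rw [hJ, Finset.mem_filter, Finset.mem_Icc]
      have h5 : (0 : ℝ) < S.card := lt_of_lt_of_le (by positivity) hS1
      have h6 : 0 < S.card := by exact_mod_cast h5
      exact ⟨⟨by omega, by omega⟩, hS2, hS1⟩
    · refine (hUNI (E n) _ hp0 hp1 ℕ J _).trans ?_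
      calc ∑ s ∈ J, mu (c / (n : ℝ)) (fun B : Finset (E n) => ∃ S : Finset (Fin n), S.card = s ∧
            s ≤ eS B S ∧ FewOut d (gr B) S)
          ≤ ∑ s ∈ J, (1 / 2 : ℝ) ^ ⌈ε * (n : ℝ)⌉₊ * (1 / 2) ^ s := by
            refine Finset.sum_le_sum fun s hs => ?_
            rw [hJ, Finset.mem_filter, Finset.mem_Icc] at hs
            refine (hLFM d n s s _ (by omega) hp0 hp1).trans ?_
            refine (lf_term d n s s c hc0 hn1 hs.1.1 hs.2.1 (Or.inl rfl)).trans ?_
            rw [Nat.sub_self, pow_zero, one_mul]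
            calc (Real.exp 3 * c * 2 ^ d * Real.exp (-(c / 4))) ^ s ≤ (1 / 4 : ℝ) ^ s :=
                  pow_le_pow_left₀ (by positivity) hx s
              _ = (1 / 2 : ℝ) ^ s * (1 / 2) ^ s := by rw [← mul_pow]; norm_num
              _ ≤ (1 / 2 : ℝ) ^ ⌈ε * (n : ℝ)⌉₊ * (1 / 2) ^ s := by
                  refine mul_le_mul_of_nonneg_right ?_ (by positivity)
                  exact pow_le_pow_of_le_one (by norm_num) (by norm_num)
                    (Nat.ceil_le.2 hs.2.2)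
        _ ≤ ∑ s ∈ Finset.range (n + 1), (1 / 2 : ℝ) ^ ⌈ε * (n : ℝ)⌉₊ * (1 / 2) ^ s := by
            refine Finset.sum_le_sum_of_subset_of_nonneg ?_ fun _ _ _ => by positivity
            intro s hs
            rw [hJ, Finset.mem_filter, Finset.mem_Icc] at hs
            rw [Finset.mem_range]
            omega
        _ ≤ 2 * (1 / 2 : ℝ) ^ ⌈ε * (n : ℝ)⌉₊ := by
            rw [← Finset.mul_sum, mul_comm 2]
            exact mul_le_mul_of_nonneg_left (sum_geometric_two_le _) (by positivity)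

end Pool.Agent.H23.RG
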