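import Pool.Agent.H23.RG.Stm2

set_option autoImplicit false
open Classical Filter

namespace Pool.Agent.H23.RG

/-- the pairs between `S` and its complement -/
noncomputable def lfmY {n : ℕ} (S : Finset (Fin n)) : Finset (E n) :=
  Finset.univ.filter (fun z : E n => ¬ ((z.1.1 ∈ S) ↔ (z.1.2 ∈ S)))

/-- orientation of a pair from `S` -/
noncomputable def lfmf {n : ℕ} (S : Finset (Fin n)) (z : E n) : Fin n × Fin n :=
  if z.1.1 ∈ S then (z.1.1, z.1.2) else (z.1.2, z.1.1)

theorem lfmf_inj {n : ℕ} (S : Finset (Fin n)) : Function.Injective (lfmf S) := by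
  rintro ⟨⟨a, b⟩, hz⟩ ⟨⟨a', b'⟩, hz'⟩ h
  have hz1 : a < b := hz
  have hz1' : a' < b' := hz'
  unfold lfmf at h
  simp only at h
  split_ifs at h with h1 h2 h2
  · rw [Prod.mk.injEq] at h
    obtain ⟨rfl, rfl⟩ := h
    rfl
  · rw [Prod.mk.injEq] at h
    obtain ⟨rfl, rfl⟩ := h
    exact absurd (hz1.trans hz1') (lt_irrefl _)
  · rw [Prod.mk.injEq] at h
    obtain ⟨rfl, rfl⟩ := h
    exact absurd (hz1.trans hz1') (lt_irrefl _)
  · rw [Prod.mk.injEq] at h
    obtain ⟨rfl, rfl⟩ := h
    rfl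

theorem lfmY_image {n : ℕ} (S : Finset (Fin n)) :
    (lfmY S).image (lfmf S) = S ×ˢ (Finset.univ \ S) := by
  ext ⟨u, v⟩
  rw [Finset.mem_image, Finset.mem_product, Finset.mem_sdiff]
  constructor
  · rintro ⟨⟨⟨a, b⟩, hz⟩, hY, hf⟩
    rw [lfmY, Finset.mem_filter] at hY
    have hY2 := hY.2
    simp only at hY2
    unfold lfmf at hf
    simp only at hf
    split_ifs at hf with h1
    · rw [Prod.mk.injEq] at hf
      obtain ⟨rfl, rfl⟩ := hf
      refine ⟨h1, Finset.mem_univ _, fun h2 => hY2 ⟨fun _ => h2, fun _ => h1⟩⟩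
    · rw [Prod.mk.injEq] at hf
      obtain ⟨rfl, rfl⟩ := hf
      refine ⟨?_, Finset.mem_univ _, h1⟩
      by_contra h2
      exact hY2 ⟨fun h => absurd h h1, fun h => absurd h h2⟩
  · rintro ⟨hu, -, hv⟩
    simp only at hu hv
    have hne : u ≠ v := fun h => hv (h ▸ hu)
    rcases lt_or_gt_of_ne hne with h | h
    · refine ⟨⟨(u, v), h⟩, ?_, ?_⟩
      · rw [lfmY, Finset.mem_filter]
        exact ⟨Finset.mem_univ _, fun hh => hv (hh.1 hu)⟩
      · unfold lfmf
        rw [if_pos hu]
    · refine ⟨⟨(v, u), h⟩, ?_, ?_⟩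
      · rw [lfmY, Finset.mem_filter]
        exact ⟨Finset.mem_univ _, fun hh => hv (hh.2 hu)⟩
      · unfold lfmf
        rw [if_neg hv]

theorem lfmY_card {n : ℕ} (S : Finset (Fin n)) : (lfmY S).card = S.card * (n - S.card) := by
  rw [← Finset.card_image_of_injective (lfmY S) (lfmf_inj S), lfmY_image, Finset.card_product,
    Finset.card_sdiff_of_subset (Finset.subset_univ S), Finset.card_univ, Fintype.card_fin]

theorem lfm_few {d n : ℕ} (B : Finset (E n)) (S : Finset (Fin n)) (h : FewOut d (gr B) S) :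
    (B ∩ lfmY S).card ≤ d * S.card := by
  rw [← Finset.card_image_of_injective (B ∩ lfmY S) (lfmf_inj S)]
  have hsub : (B ∩ lfmY S).image (lfmf S) ⊆
      S.biUnion (fun u => ((Finset.univ \ S).filter ((gr B).Adj u)).image (fun v => (u, v))) := by
    intro e he
    obtain ⟨z, hz, rfl⟩ := Finset.mem_image.1 he
    have hzB := (Finset.mem_inter.1 hz).1
    have hzY := (Finset.mem_inter.1 hz).2
    have h1 : lfmf S z ∈ S ×ˢ (Finset.univ \ S) := by
      rw [← lfmY_image]
      exact Finset.mem_image_of_mem _ hzY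
    rw [Finset.mem_product] at h1
    rw [Finset.mem_biUnion]
    refine ⟨(lfmf S z).1, h1.1, Finset.mem_image.2 ⟨(lfmf S z).2, ?_, rfl⟩⟩
    rw [Finset.mem_filter]
    refine ⟨h1.2, ?_⟩
    obtain ⟨⟨a, b⟩, hab⟩ := z
    unfold lfmf
    simp only
    split_ifs with h2
    · exact Or.inl ⟨hab, hzB⟩
    · exact Or.inr ⟨hab, hzB⟩
  refine (Finset.card_le_card hsub).trans (Finset.card_biUnion_le.trans ?_)
  have h3 : ∀ u ∈ S,
      (((Finset.univ \ S).filter ((gr B).Adj u)).image (fun v => (u, v))).card ≤ d := by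
    intro u hu
    refine Finset.card_image_le.trans ?_
    have := h u hu
    omega
  refine (Finset.sum_le_sum h3).trans ?_
  rw [Finset.sum_const, smul_eq_mul, mul_comm]

theorem lfm_part (hMON : S_MON) (hUNI : S_UNI) (hALL : S_ALL) (hCH2 : S_CH2) : S_LFM := by
  intro d n s m p hd h0 h1
  let J : Finset ((_ : Finset (Fin n)) × Finset (E n)) :=
    (Finset.powersetCard s (Finset.univ : Finset (Fin n))).sigma
      (fun S => Finset.powersetCard m (inS (Finset.univ : Finset (E n)) S))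
  have hinc : ∀ A : Finset (E n),
      (∃ S : Finset (Fin n), S.card = s ∧ m ≤ eS A S ∧ FewOut d (gr A) S) →
      ∃ i ∈ J, i.2 ⊆ A ∧ (A ∩ lfmY i.1).card ≤ d * s := by
    rintro A ⟨S, hS, hm, hfew⟩
    obtain ⟨F, hF, hFc⟩ := Finset.exists_subset_card_eq hm
    refine ⟨⟨S, F⟩, ?_, ?_, ?_⟩
    · rw [Finset.mem_sigma]
      refine ⟨Finset.mem_powersetCard.2 ⟨Finset.subset_univ _, hS⟩,
        Finset.mem_powersetCard.2 ⟨?_, hFc⟩⟩
      intro z hz
      have h2 := hF hz
      simp only [inS, Finset.mem_filter] at h2 ⊢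
      exact ⟨Finset.mem_univ _, h2.2⟩
    · intro z hz
      have h2 := hF hz
      simp only [inS, Finset.mem_filter] at h2
      exact h2.1
    · rw [← hS]
      exact lfm_few A S hfew
  have hstep1 := hMON (E n) p h0 h1 _
    (fun A => ∃ i ∈ J, i.2 ⊆ A ∧ (A ∩ lfmY i.1).card ≤ d * s) hinc
  have hstep2 := hUNI (E n) p h0 h1 _ J (fun i A => i.2 ⊆ A ∧ (A ∩ lfmY i.1).card ≤ d * s)
  have hstep3 : ∑ i ∈ J, mu p (fun A => i.2 ⊆ A ∧ (A ∩ lfmY i.1).card ≤ d * s) ≤
      (n.choose s : ℝ) * ((s.choose 2).choose m : ℝ) * p ^ m * 2 ^ (d * s) *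
        (1 - p / 2) ^ (s * (n - s)) := by
    have e1 : ∑ i ∈ J, mu p (fun A => i.2 ⊆ A ∧ (A ∩ lfmY i.1).card ≤ d * s) ≤
        ∑ i ∈ J, p ^ m * 2 ^ (d * s) * (1 - p / 2) ^ (s * (n - s)) := by
      refine Finset.sum_le_sum fun i hi => ?_
      have h2 := (Finset.mem_sigma.1 hi).2
      have h3 := (Finset.mem_sigma.1 hi).1
      have hdis : Disjoint i.2 (lfmY i.1) := by
        rw [Finset.disjoint_left]
        intro z hz hzY
        have h4 := (Finset.mem_powersetCard.1 h2).1 hz
        simp only [inS, Finset.mem_filter] at h4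
        rw [lfmY, Finset.mem_filter] at hzY
        exact hzY.2 ⟨fun _ => h4.2.2, fun _ => h4.2.1⟩
      have h5 := hCH2 (E n) p i.2 (lfmY i.1) (d * s) h0 h1 hdis
      rw [(Finset.mem_powersetCard.1 h2).2, lfmY_card, (Finset.mem_powersetCard.1 h3).2] at h5
      refine le_trans (le_of_eq ?_) h5
      congr 1
      funext A
      have hCD : ∀ C D : Finset (E n), C = D →
          (i.2 ⊆ A ∧ C.card ≤ d * s) = (i.2 ⊆ A ∧ D.card ≤ d * s) := by
        rintro C _ rfl
        rfl
      exact hCD _ _ (by ext x; simp only [Finset.mem_inter])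
    refine e1.trans (le_of_eq ?_)
    rw [Finset.sum_const, nsmul_eq_mul]
    have e2 : J.card = n.choose s * (s.choose 2).choose m := by
      rw [Finset.card_sigma]
      have e3 : ∀ S ∈ Finset.powersetCard s (Finset.univ : Finset (Fin n)),
          (Finset.powersetCard m (inS (Finset.univ : Finset (E n)) S)).card =
            (s.choose 2).choose m := by
        intro S hS
        rw [Finset.card_powersetCard]
        have h3 := hALL n S
        rw [(Finset.mem_powersetCard.1 hS).2] at h3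
        unfold eS at h3
        rw [h3]
      rw [Finset.sum_congr rfl e3, Finset.sum_const, Finset.card_powersetCard, Finset.card_univ,
        Fintype.card_fin, smul_eq_mul]
    rw [e2]
    push_cast
    ring
  exact hstep1.trans (hstep2.trans hstep3)

end Pool.Agent.H23.RG
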