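import Pool.Agent.H23.RG.Stm2

set_option autoImplicit false
open Classical Filter

namespace Pool.Agent.H23.RG

theorem par_part : S_PAR := by
  intro n G T Z r r' h2 hZT hr' hrT hrZ hadj hcl
  have hsplit : ∀ u ∈ Z, (T.filter (G.Adj u)).card
      = (Z.filter (G.Adj u)).card + if u = r' then 1 else 0 := by
    intro u hu
    by_cases h : u = r'
    · have e : T.filter (G.Adj u) = insert r (Z.filter (G.Adj u)) := by
        ext w
        simp only [Finset.mem_filter, Finset.mem_insert]
        constructor
        · rintro ⟨hw, ha⟩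
          rcases hcl u hu w hw ha with h' | ⟨h', -⟩
          · exact Or.inr ⟨h', ha⟩
          · exact Or.inl h'
        · rintro (rfl | ⟨hw, ha⟩)
          · exact ⟨hrT, by rw [h]; exact hadj.symm⟩
          · exact ⟨hZT hw, ha⟩
      rw [e, if_pos h, Finset.card_insert_of_notMem]
      simp only [Finset.mem_filter, not_and]
      exact fun h' => absurd h' hrZ
    · have e : T.filter (G.Adj u) = Z.filter (G.Adj u) := by
        ext w
        simp only [Finset.mem_filter]
        constructor
        · rintro ⟨hw, ha⟩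
          rcases hcl u hu w hw ha with h' | ⟨-, h'⟩
          · exact ⟨h', ha⟩
          · exact absurd h' h
        · rintro ⟨hw, ha⟩
          exact ⟨hZT hw, ha⟩
      rw [e, if_neg h, add_zero]
  have hsum : 2 * Z.card = ∑ u ∈ Z, (Z.filter (G.Adj u)).card + 1 := by
    calc 2 * Z.card = ∑ u ∈ Z, (T.filter (G.Adj u)).card := by
          rw [Finset.sum_congr rfl (fun u hu => h2 u (hZT hu)), Finset.sum_const, smul_eq_mul,
            mul_comm]
      _ = ∑ u ∈ Z, ((Z.filter (G.Adj u)).card + if u = r' then 1 else 0) :=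
          Finset.sum_congr rfl hsplit
      _ = _ := by rw [Finset.sum_add_distrib, Finset.sum_ite_eq' Z r', if_pos hr']
  have hev : ((∑ u ∈ Z, (Z.filter (G.Adj u)).card : ℕ) : ZMod 2) = 0 := by
    rw [Nat.cast_sum]
    have e : ∀ u ∈ Z, (((Z.filter (G.Adj u)).card : ℕ) : ZMod 2)
        = ∑ w ∈ Z, if G.Adj u w then (1 : ZMod 2) else 0 := by
      intro u _
      rw [Finset.card_filter, Nat.cast_sum]
      exact Finset.sum_congr rfl fun w _ => by split_ifs <;> simp
    rw [Finset.sum_congr rfl e, ← Finset.sum_product']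
    refine Finset.sum_involution (fun x _ => (x.2, x.1)) ?_ ?_ ?_ ?_
    · rintro ⟨u, w⟩ _
      show (if G.Adj u w then (1 : ZMod 2) else 0) + (if G.Adj w u then (1 : ZMod 2) else 0) = 0
      rw [G.adj_comm w u]
      split_ifs
      · decide
      · simp
    · rintro ⟨u, w⟩ _ h heq
      have h1 : w = u := (Prod.mk.inj heq).1
      subst h1
      simp at h
    · rintro ⟨u, w⟩ h
      rw [Finset.mem_product] at h ⊢
      exact ⟨h.2, h.1⟩
    · rintro ⟨u, w⟩ _
      rfl
  have h3 : ((2 * Z.card : ℕ) : ZMod 2) = 1 := by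
    rw [hsum, Nat.cast_add, hev]; simp
  rw [Nat.cast_mul] at h3
  have h4 : ((2 : ℕ) : ZMod 2) = 0 := by decide
  rw [h4, zero_mul] at h3
  exact absurd h3 (by decide)

end Pool.Agent.H23.RG
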