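import Pool.Agent.H23.RG.Stm2

set_option autoImplicit false
open Classical Filter

namespace Pool.Agent.H23.RG

theorem pel_part : S_PEL := by
  intro d n K G
  have main : ∀ C : Finset (Fin n),
      (∀ u, u ∉ C → ∃ j : Fin d, (C.filter (fun v => colr d v j ∧ G.Adj u v)).card < K) →
      (∀ m : ℕ, m + C.card ≤ n → ∃ U : Finset (Fin n), U.card = m ∧ ∀ u ∈ U, ∃ j : Fin d,
        ((Finset.univ \ U).filter (fun v => colr d v j ∧ G.Adj u v)).card < K) →
      ∃ A : Finset (Fin n),
        (∀ v ∈ A, ∀ j : Fin d, K ≤ (A.filter (fun w => colr d w j ∧ G.Adj v w)).card) ∧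
        ∀ m : ℕ, m + A.card ≤ n → ∃ U : Finset (Fin n), U.card = m ∧ ∀ u ∈ U, ∃ j : Fin d,
          ((Finset.univ \ U).filter (fun v => colr d v j ∧ G.Adj u v)).card < K := by
    intro C
    induction C using Finset.strongInduction with
    | H C ih =>
      intro h1 h2
      by_cases hC : ∀ v ∈ C, ∀ j : Fin d, K ≤ (C.filter (fun w => colr d w j ∧ G.Adj v w)).card
      · exact ⟨C, hC, h2⟩
      · push Not at hC
        obtain ⟨v, hv, j, hj⟩ := hC
        have hmono : ∀ (u : Fin n) (i : Fin d),
            ((C.erase v).filter (fun w => colr d w i ∧ G.Adj u w)).card ≤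
              (C.filter (fun w => colr d w i ∧ G.Adj u w)).card := fun u i =>
          Finset.card_le_card (Finset.filter_subset_filter _ (Finset.erase_subset _ _))
        have h1' : ∀ u, u ∉ C.erase v →
            ∃ j : Fin d, ((C.erase v).filter (fun w => colr d w j ∧ G.Adj u w)).card < K := by
          intro u hu
          by_cases huv : u = v
          · subst huv
            exact ⟨j, (hmono u j).trans_lt hj⟩
          · have hu' : u ∉ C := fun h => hu (Finset.mem_erase.2 ⟨huv, h⟩)
            obtain ⟨i, hi⟩ := h1 u hu'
            exact ⟨i, (hmono u i).trans_lt hi⟩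
        apply ih (C.erase v) (Finset.erase_ssubset hv) h1'
        intro m hm
        have hcard : (C.erase v).card + 1 = C.card := Finset.card_erase_add_one hv
        by_cases hm' : m + C.card ≤ n
        · exact h2 m hm'
        · refine ⟨Finset.univ \ (C.erase v), ?_, ?_⟩
          · rw [Finset.card_sdiff_of_subset (Finset.subset_univ _), Finset.card_univ,
              Fintype.card_fin]
            omega
          · intro u hu
            rw [Finset.mem_sdiff] at hu
            rw [Finset.sdiff_sdiff_eq_self (Finset.subset_univ _)]
            exact h1' u hu.2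
  apply main Finset.univ
  · intro u hu
    exact absurd (Finset.mem_univ u) hu
  · intro m hm
    rw [Finset.card_univ, Fintype.card_fin] at hm
    refine ⟨∅, ?_, ?_⟩
    · rw [Finset.card_empty]; omega
    · intro u hu
      simp at hu

end Pool.Agent.H23.RG
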