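import Pool.Agent.H23.RG.Stm2

set_option autoImplicit false
open Classical Filter

namespace Pool.Agent.H23.RG

/-- `det (1, x) ≠ 0` gives affine independence -/
theorem prg_aff (d : ℕ) (x : Fin (d + 1) → Fin d → ℝ)
    (h : (Matrix.of (fun i (j : Fin (d + 1)) => (Fin.cons 1 (x i) : Fin (d + 1) → ℝ) j)).det ≠ 0) :
    AffineIndependent ℝ x := by
  rw [affineIndependent_iff]
  intro s w hw0 hw1 e he
  let w' : Fin (d + 1) → ℝ := fun i => if i ∈ s then w i else 0
  have hv : Matrix.vecMul w'
      (Matrix.of (fun i (j : Fin (d + 1)) => (Fin.cons 1 (x i) : Fin (d + 1) → ℝ) j)) = 0 := by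
    funext j
    refine Fin.cases ?_ (fun k => ?_) j
    · simp only [Matrix.vecMul, dotProduct, Matrix.of_apply, Fin.cons_zero, mul_one,
        Pi.zero_apply, w']
      rw [← Finset.sum_filter]
      simpa using hw0
    · simp only [Matrix.vecMul, dotProduct, Matrix.of_apply, Fin.cons_succ, Pi.zero_apply, w',
        ite_mul, zero_mul]
      rw [← Finset.sum_filter]
      have := congrFun hw1 k
      simpa using this
  have h0 := Matrix.eq_zero_of_vecMul_eq_zero h hv
  have := congrFun h0 e
  simpa [w', he] using this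

theorem prg_part : S_PRG := by
  intro d n G S q
  let m : Fin n → Fin d → ℝ := fun v k => ((v : ℕ) : ℝ) ^ ((k : ℕ) + 1)
  let qt : ℝ → Fin n → Fin d → ℝ := fun t v j => q v j + t * (m v j - q v j)
  have hq0 : qt 0 = q := by
    funext v j
    simp [qt]
  have hq1 : qt 1 = m := by
    funext v j
    simp [qt]
  obtain ⟨κ, a, ha, hsp, hli⟩ := exists_linearIndependent' ℝ (RM d G S q).row
  have hfin : Finite κ := Finite.of_injective a ha
  have : Fintype κ := Fintype.ofFinite κ
  have hrow : ∀ q' : Fin n → Fin d → ℝ,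
      LinearIndependent ℝ (fun k => (RM d G S q').row (a k)) →
      (RM d G S q).rank ≤ (RM d G S q').rank := by
    intro q' h
    rw [Matrix.rank_eq_finrank_span_row, Matrix.rank_eq_finrank_span_row, ← hsp,
      finrank_span_eq_card hli, ← finrank_span_eq_card h]
    apply Submodule.finrank_mono
    apply Submodule.span_mono
    rintro _ ⟨k, rfl⟩
    exact ⟨a k, rfl⟩
  have hcont : Continuous (fun t : ℝ => fun k : κ => (RM d G S (qt t)).row (a k)) := by
    refine continuous_pi fun k => continuous_pi fun x => ?_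
    simp only [RM, Matrix.row, Matrix.of_apply, qt]
    split_ifs <;> fun_prop
  have hopen : IsOpen {t : ℝ | LinearIndependent ℝ (fun k : κ => (RM d G S (qt t)).row (a k))} :=
    isOpen_setOf_linearIndependent.preimage hcont
  have h0 : (0 : ℝ) ∈ {t : ℝ | LinearIndependent ℝ (fun k : κ => (RM d G S (qt t)).row (a k))} := by
    simp only [Set.mem_setOf_eq, hq0]
    exact hli
  obtain ⟨ε, hε, hball⟩ := Metric.isOpen_iff.mp hopen 0 h0
  let PM : (Fin (d + 1) → Fin n) → Matrix (Fin (d + 1)) (Fin (d + 1)) (Polynomial ℝ) := fun u =>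
    Matrix.of (fun i (j : Fin (d + 1)) => (Fin.cons 1 (fun k => Polynomial.C (q (u i) k) +
      Polynomial.X * Polynomial.C (m (u i) k - q (u i) k)) : Fin (d + 1) → Polynomial ℝ) j)
  have hdet : ∀ u t, (PM u).det.eval t =
      (Matrix.of (fun i (j : Fin (d + 1)) => (Fin.cons 1 (qt t (u i)) : Fin (d + 1) → ℝ) j)).det := by
    intro u t
    rw [← Polynomial.coe_evalRingHom, RingHom.map_det]
    congr 1
    ext i j
    refine Fin.cases ?_ (fun k => ?_) j
    · simp [PM]
    · simp [PM, qt]
  have hne : ∀ u, Function.Injective u → (PM u).det ≠ 0 := by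
    intro u hu h
    have h1 := hdet u 1
    rw [h, Polynomial.eval_zero, hq1] at h1
    have e : (Matrix.of (fun i (j : Fin (d + 1)) => (Fin.cons 1 (m (u i)) : Fin (d + 1) → ℝ) j))
        = Matrix.vandermonde (fun i => ((u i : ℕ) : ℝ)) := by
      ext i j
      refine Fin.cases ?_ (fun k => ?_) j
      · simp [Matrix.vandermonde_apply]
      · simp [Matrix.vandermonde_apply, m]
    rw [e] at h1
    refine (Matrix.det_vandermonde_ne_zero_iff.2 ?_) h1.symm
    intro i j hij
    exact hu (Fin.ext (Nat.cast_injective hij))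
  let F : Polynomial ℝ := ∏ u ∈ Finset.univ.filter (fun u : Fin (d + 1) → Fin n =>
    Function.Injective u), (PM u).det
  have hF : F ≠ 0 := Finset.prod_ne_zero_iff.2 fun u hu => hne u (Finset.mem_filter.1 hu).2
  have hinf : (Metric.ball (0 : ℝ) ε).Infinite := by
    rw [Real.ball_eq_Ioo]
    exact Set.Ioo_infinite (by linarith)
  have hroots : {t : ℝ | F.eval t = 0}.Finite := by
    refine (F.roots.toFinset).finite_toSet.subset ?_
    intro t ht
    simp only [Finset.mem_coe, Multiset.mem_toFinset]
    rw [Polynomial.mem_roots hF]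
    exact ht
  obtain ⟨t, ht1, ht2⟩ := hinf.exists_notMem_finite hroots
  refine ⟨qt t, fun u hu => ?_, hrow _ (hball ht1)⟩
  apply prg_aff
  rw [← hdet]
  intro h
  apply ht2
  show F.eval t = 0
  rw [Polynomial.eval_prod]
  exact Finset.prod_eq_zero (Finset.mem_filter.2 ⟨Finset.mem_univ u, hu⟩) h

end Pool.Agent.H23.RG
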