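import Pool.Agent.H23.RG.Stm2

/-! Part SRK: the kernel of the limit matrix of a strong rigid partition. -/

set_option autoImplicit false
open Classical Filter

namespace Pool.Agent.H23.RG

theorem srk_rowsum {n d : ℕ} (u v : Fin n) (huv : u ≠ v) (g : Fin d → ℝ)
    (y : Fin n × Fin d → ℝ) :
    ∑ x : Fin n × Fin d,
      ((if x.1 = u then (1 : ℝ) else if x.1 = v then -1 else 0) * g x.2) * y x =
    ∑ k, g k * (y (u, k) - y (v, k)) := by
  rw [Fintype.sum_prod_type, Finset.sum_comm]
  refine Finset.sum_congr rfl (fun k _ => ?_)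
  have h1 : ∀ x : Fin n, (if x = u then (1 : ℝ) else if x = v then -1 else 0) =
      (if x = u then (1 : ℝ) else 0) - (if x = v then (1 : ℝ) else 0) := by
    intro x
    by_cases h : x = u
    · have h' : x ≠ v := fun h2 => huv (h.symm.trans h2)
      simp [h, huv]
    · by_cases h2 : x = v
      · simp [h2, Ne.symm huv]
      · simp [h, h2]
  calc ∑ x : Fin n, ((if x = u then (1 : ℝ) else if x = v then -1 else 0) * g k) * y (x, k)
      = ∑ x : Fin n, ((if x = u then g k * y (x, k) else 0) -
          (if x = v then g k * y (x, k) else 0)) := by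
        refine Finset.sum_congr rfl (fun x _ => ?_)
        rw [h1 x]
        split_ifs <;> ring
    _ = g k * (y (u, k) - y (v, k)) := by
        rw [Finset.sum_sub_distrib, Finset.sum_ite_eq' , Finset.sum_ite_eq']
        simp only [Finset.mem_univ, if_true]
        ring

theorem srk_row_same {n d : ℕ} (G : SimpleGraph (Fin n)) (A : Finset (Fin n))
    (col : Fin n → Fin d) (y : Fin n × Fin d → ℝ)
    (hy : (LM d G A col).mulVec y = 0) (u v : Fin n) (hu : u ∈ A) (hv : v ∈ A)
    (huv : G.Adj u v) (hc : col u = col v) :
    y (u, col u) = y (v, col u) := by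
  have h1 : (LM d G A col).mulVec y (u, v) = 0 := by rw [hy]; rfl
  have h2 : (LM d G A col).mulVec y (u, v) =
      ∑ x : Fin n × Fin d,
      ((if x.1 = u then (1 : ℝ) else if x.1 = v then -1 else 0) *
        (fun k => if k = col u then (1 : ℝ) else 0) x.2) * y x := by
    unfold Matrix.mulVec dotProduct LM
    refine Finset.sum_congr rfl (fun x _ => ?_)
    simp only [Matrix.of_apply]
    rw [if_pos ⟨hu, hv, huv⟩, if_pos hc]
  rw [h2, srk_rowsum u v huv.ne (fun k => if k = col u then (1 : ℝ) else 0) y] at h1
  have h3 : ∑ k, (fun k => if k = col u then (1 : ℝ) else 0) k * (y (u, k) - y (v, k)) =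
      y (u, col u) - y (v, col u) := by
    simp only [ite_mul, one_mul, zero_mul]
    rw [Finset.sum_ite_eq']
    simp
  rw [h3] at h1
  linarith

theorem srk_row_diff {n d : ℕ} (G : SimpleGraph (Fin n)) (A : Finset (Fin n))
    (col : Fin n → Fin d) (y : Fin n × Fin d → ℝ)
    (hy : (LM d G A col).mulVec y = 0) (u v : Fin n) (hu : u ∈ A) (hv : v ∈ A)
    (huv : G.Adj u v) (hc : col u ≠ col v) :
    y (u, col u) - y (u, col v) = y (v, col u) - y (v, col v) := by
  have h1 : (LM d G A col).mulVec y (u, v) = 0 := by rw [hy]; rfl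
  have h2 : (LM d G A col).mulVec y (u, v) =
      ∑ x : Fin n × Fin d,
      ((if x.1 = u then (1 : ℝ) else if x.1 = v then -1 else 0) *
        (fun k => (if k = col u then (1 : ℝ) else 0) - (if k = col v then (1 : ℝ) else 0)) x.2) *
          y x := by
    unfold Matrix.mulVec dotProduct LM
    refine Finset.sum_congr rfl (fun x _ => ?_)
    simp only [Matrix.of_apply]
    rw [if_pos ⟨hu, hv, huv⟩, if_neg hc]
  rw [h2, srk_rowsum u v huv.ne
    (fun k => (if k = col u then (1 : ℝ) else 0) - (if k = col v then (1 : ℝ) else 0)) y] at h1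
  have h3 : ∑ k, (fun k => (if k = col u then (1 : ℝ) else 0) -
      (if k = col v then (1 : ℝ) else 0)) k * (y (u, k) - y (v, k)) =
      (y (u, col u) - y (v, col u)) - (y (u, col v) - y (v, col v)) := by
    simp only [sub_mul, ite_mul, one_mul, zero_mul]
    rw [Finset.sum_sub_distrib, Finset.sum_ite_eq', Finset.sum_ite_eq']
    simp
  rw [h3] at h1
  linarith

/-- a function constant along the edges is constant -/
theorem srk_const {n : ℕ} (H : Fin n → Fin n → Prop) (B : Finset (Fin n)) (hB : CutConn H B)
    (f : Fin n → ℝ) (hf : ∀ u ∈ B, ∀ v ∈ B, H u v → f u = f v) (r : Fin n) (hr : r ∈ B) :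
    ∀ u ∈ B, f u = f r := by
  have h := hB (B.filter (fun u => f u = f r)) (Finset.filter_subset _ _)
    ⟨r, Finset.mem_filter.2 ⟨hr, rfl⟩⟩ (by
      intro u hu v hv huv
      rw [Finset.mem_filter] at hu ⊢
      exact ⟨hv, (hf u hu.1 v hv huv).symm.trans hu.2⟩)
  intro u hu
  rw [← h] at hu
  exact (Finset.mem_filter.1 hu).2

theorem srk_part : S_SRK := by
  intro d n G A col hS
  obtain ⟨h1, h2, h3⟩ := hS
  choose r hrA hrc using h1
  -- the pairs j ≤ i
  let P : Type := Σ i : Fin d, Fin (i.1 + 1)
  let O : Type := {x : Fin n × Fin d // x.1 ∉ A}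
  let jj : P → Fin d := fun p => ⟨p.2.1, lt_of_lt_of_le p.2.2 p.1.2⟩
  let Φ : (Fin n × Fin d → ℝ) →ₗ[ℝ] ((O → ℝ) × (P → ℝ)) :=
    { toFun := fun y => (fun o => y o.1, fun p =>
        if p.1 = jj p then y (r p.1, p.1) else y (r p.1, p.1) - y (r p.1, jj p))
      map_add' := by
        intro y z
        ext p
        · simp
        · simp only [Pi.add_apply, Prod.snd_add]
          split_ifs <;> ring
      map_smul' := by
        intro c y
        ext p
        · simp
        · simp only [Pi.smul_apply, smul_eq_mul, Prod.smul_snd, RingHom.id_apply]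
          split_ifs <;> ring }
  let K := LinearMap.ker (LM d G A col).mulVecLin
  have hinj : Function.Injective (Φ.comp K.subtype) := by
    rw [← LinearMap.ker_eq_bot, LinearMap.ker_eq_bot']
    rintro ⟨y, hyK⟩ hy0
    have hyK' : (LM d G A col).mulVec y = 0 := by
      have := LinearMap.mem_ker.1 hyK
      simpa using this
    have hΦ : Φ y = 0 := hy0
    have hO : ∀ u k, u ∉ A → y (u, k) = 0 := by
      intro u k hu
      have := congrFun (congrArg Prod.fst hΦ) (⟨(u, k), hu⟩ : O)
      exact this
    have hP : ∀ p : P, (if p.1 = jj p then y (r p.1, p.1) else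
        y (r p.1, p.1) - y (r p.1, jj p)) = 0 := by
      intro p
      exact congrFun (congrArg Prod.snd hΦ) p
    have hdiag : ∀ i : Fin d, y (r i, i) = 0 := by
      intro i
      have := hP ⟨i, ⟨i.1, Nat.lt_succ_self _⟩⟩
      have he : i = jj ⟨i, ⟨i.1, Nat.lt_succ_self _⟩⟩ := rfl
      rw [if_pos he] at this
      exact this
    have hoff : ∀ i j : Fin d, j < i → y (r i, i) - y (r i, j) = 0 := by
      intro i j hij
      have hlt : j.1 < i.1 + 1 := Nat.lt_succ_of_lt hij
      have := hP ⟨i, ⟨j.1, hlt⟩⟩
      have he : ¬ (i = jj ⟨i, ⟨j.1, hlt⟩⟩) := by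
        intro h
        have : i = j := h
        exact absurd hij (by rw [this]; exact lt_irrefl _)
      rw [if_neg he] at this
      exact this
    have hA1 : ∀ u ∈ A, y (u, col u) = 0 := by
      intro u hu
      have := srk_const G.Adj (A.filter (fun v => col v = col u)) (h2 (col u))
        (fun v => y (v, col u)) (by
          intro a ha b hb hab
          rw [Finset.mem_filter] at ha hb
          have := srk_row_same G A col y hyK' a b ha.1 hb.1 hab (ha.2.trans hb.2.symm)
          rw [ha.2] at this
          exact this) (r (col u)) (Finset.mem_filter.2 ⟨hrA _, hrc _⟩) u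
        (Finset.mem_filter.2 ⟨hu, rfl⟩)
      rw [show y (u, col u) = y (r (col u), col u) from this]
      exact hdiag _
    have hA2 : ∀ i j : Fin d, j < i → ∀ u ∈ A, (col u = i ∨ col u = j) →
        y (u, i) - y (u, j) = 0 := by
      intro i j hij u hu hcu
      have := srk_const (fun u v => G.Adj u v ∧ col u ≠ col v)
        (A.filter (fun v => col v = i ∨ col v = j)) (h3 i j (ne_of_gt hij))
        (fun v => y (v, i) - y (v, j)) (by
          intro a ha b hb hab
          rw [Finset.mem_filter] at ha hb
          have hr := srk_row_diff G A col y hyK' a b ha.1 hb.1 hab.1 hab.2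
          rcases ha.2 with h | h <;> rcases hb.2 with h' | h'
          · exact absurd (h.trans h'.symm) hab.2
          · rw [h, h'] at hr
            exact hr
          · rw [h, h'] at hr
            show y (a, i) - y (a, j) = y (b, i) - y (b, j)
            linarith
          · exact absurd (h.trans h'.symm) hab.2) (r i)
        (Finset.mem_filter.2 ⟨hrA _, Or.inl (hrc _)⟩) u (Finset.mem_filter.2 ⟨hu, hcu⟩)
      rw [show y (u, i) - y (u, j) = y (r i, i) - y (r i, j) from this]
      exact hoff i j hij
    have hy : y = 0 := by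
      ext x
      obtain ⟨u, k⟩ := x
      by_cases hu : u ∈ A
      · rcases lt_trichotomy k (col u) with h | h | h
        · have h4 := hA2 (col u) k h u hu (Or.inl rfl)
          have h5 := hA1 u hu
          show y (u, k) = 0
          linarith
        · rw [h]
          exact hA1 u hu
        · have h4 := hA2 k (col u) h u hu (Or.inr rfl)
          have h5 := hA1 u hu
          show y (u, k) = 0
          linarith
      · exact hO u k hu
    exact Subtype.ext hy
  have hfin := LinearMap.finrank_le_finrank_of_injective hinj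
  have hcP : Fintype.card P = d * (d + 1) / 2 := by
    have h4 : Fintype.card P = ∑ i : Fin d, (i.1 + 1) := by
      show Fintype.card (Σ i : Fin d, Fin (i.1 + 1)) = _
      rw [Fintype.card_sigma]
      simp
    rw [h4, Fin.sum_univ_eq_sum_range (fun i => i + 1) d]
    have h5 : ∑ i ∈ Finset.range d, (i + 1) = ∑ i ∈ Finset.range (d + 1), i := by
      rw [Finset.sum_range_succ' (fun i => i) d]
      simp
    rw [h5]
    have h6 := Finset.sum_range_id_mul_two (d + 1)
    simp only [Nat.add_sub_cancel] at h6
    have h7 : (∑ i ∈ Finset.range (d + 1), i) * 2 = d * (d + 1) := by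
      rw [h6]; ring
    omega
  have hcO : Fintype.card O = (n - A.card) * d := by
    have h4 : Fintype.card O = (Finset.univ.filter (fun x : Fin n × Fin d => x.1 ∉ A)).card := by
      show Fintype.card {x : Fin n × Fin d // x.1 ∉ A} = _
      rw [Fintype.card_subtype]
    have h5 : (Finset.univ.filter (fun x : Fin n × Fin d => x.1 ∉ A)) =
        (Finset.univ \ A) ×ˢ (Finset.univ : Finset (Fin d)) := by
      ext x
      simp
    rw [h4, h5, Finset.card_product, Finset.card_sdiff_of_subset (Finset.subset_univ _)]
    simp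
  have hfin2 : Module.finrank ℝ ((O → ℝ) × (P → ℝ)) = (n - A.card) * d + d * (d + 1) / 2 := by
    rw [Module.finrank_prod, Module.finrank_fintype_fun_eq_card,
      Module.finrank_fintype_fun_eq_card, hcP, hcO]
  have hrk := LinearMap.finrank_range_add_finrank_ker (LM d G A col).mulVecLin
  have hV : Module.finrank ℝ (Fin n × Fin d → ℝ) = n * d := by
    rw [Module.finrank_fintype_fun_eq_card]
    simp
  rw [hV] at hrk
  rw [hfin2] at hfin
  have hr' : (LM d G A col).rank = Module.finrank ℝ (LinearMap.range (LM d G A col).mulVecLin) :=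
    rfl
  rw [hr']
  have hAn : A.card ≤ n := by
    simpa using Finset.card_le_univ A
  have h8 : (n - A.card) * d + d * A.card = n * d := by
    rw [mul_comm d A.card, ← add_mul, Nat.sub_add_cancel hAn]
  have hfin3 : Module.finrank ℝ (LinearMap.ker (LM d G A col).mulVecLin) ≤
      (n - A.card) * d + d * (d + 1) / 2 := hfin
  omega

end Pool.Agent.H23.RG
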