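import Pool.Agent.H23.RG.Stm2

/-! Crew RG, part SRL (helper61) -/

set_option autoImplicit false
open Classical Filter

namespace Pool.Agent.H23.RG

theorem srl_part : S_SRL := by
  intro d n G A col
  let qt : ℝ → Fin n → Fin d → ℝ :=
    fun t v k => (1 + t * ((v.1 : ℝ) + 1)) * (if k = col v then 1 else 0)
  let N : ℝ → Matrix (Fin n × Fin n) (Fin n × Fin d) ℝ := fun t => Matrix.of fun e x =>
    if col e.1 = col e.2 then LM d G A col e x else RM d G A (qt t) e x
  have hN0 : N 0 = LM d G A col := by
    ext e x
    by_cases hc : col e.1 = col e.2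
    · simp only [N, Matrix.of_apply, if_pos hc]
    · simp only [N, Matrix.of_apply, if_neg hc, RM, LM, qt, zero_mul, add_zero, one_mul]
      split_ifs <;> ring
  have hrowN : ∀ t : ℝ, t ≠ 0 → ∀ e, (N t).row e ∈
      Submodule.span ℝ (Set.range (RM d G A (qt t)).row) := by
    intro t ht e
    by_cases hc : col e.1 = col e.2
    · by_cases he : e.1 = e.2
      · have h0 : (N t).row e = 0 := by
          funext x
          simp only [N, Matrix.row, Matrix.of_apply, if_pos hc, LM]
          have : ¬ G.Adj e.1 e.2 := by rw [he]; exact G.loopless.irrefl _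
          rw [if_neg (fun h => this h.2.2)]
          rfl
        rw [h0]
        exact Submodule.zero_mem _
      · have hne : ((e.1.1 : ℝ) - (e.2.1 : ℝ)) ≠ 0 := by
          intro h
          apply he
          have h1 : (e.1.1 : ℝ) = (e.2.1 : ℝ) := by linarith
          exact Fin.ext (by exact_mod_cast h1)
        have h1 : (N t).row e =
            (t * ((e.1.1 : ℝ) - (e.2.1 : ℝ)))⁻¹ • (RM d G A (qt t)).row e := by
          funext x
          have h2 : t * ((e.1.1 : ℝ) - (e.2.1 : ℝ)) ≠ 0 := mul_ne_zero ht hne
          rw [Pi.smul_apply, smul_eq_mul, inv_mul_eq_div, eq_div_iff h2]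
          simp only [N, Matrix.row, Matrix.of_apply, if_pos hc, LM, RM, qt, ← hc]
          split_ifs <;> ring
        rw [h1]
        exact Submodule.smul_mem _ _ (Submodule.subset_span ⟨e, rfl⟩)
    · have h1 : (N t).row e = (RM d G A (qt t)).row e := by
        funext x
        simp only [N, Matrix.row, Matrix.of_apply, if_neg hc]
      rw [h1]
      exact Submodule.subset_span ⟨e, rfl⟩
  obtain ⟨κ, a, ha, hsp, hli⟩ := exists_linearIndependent' ℝ (LM d G A col).row
  have hfin : Finite κ := Finite.of_injective a ha
  have : Fintype κ := Fintype.ofFinite κ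
  have hcont : Continuous (fun t : ℝ => fun k : κ => (N t).row (a k)) := by
    refine continuous_pi fun k => continuous_pi fun x => ?_
    simp only [N, RM, Matrix.row, Matrix.of_apply, qt]
    split_ifs <;> fun_prop
  have hopen : IsOpen {t : ℝ | LinearIndependent ℝ (fun k : κ => (N t).row (a k))} :=
    isOpen_setOf_linearIndependent.preimage hcont
  have h0 : (0 : ℝ) ∈ {t : ℝ | LinearIndependent ℝ (fun k : κ => (N t).row (a k))} := by
    show LinearIndependent ℝ (fun k : κ => (N 0).row (a k))
    rw [hN0]
    exact hli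
  obtain ⟨ε, hε, hball⟩ := Metric.isOpen_iff.mp hopen 0 h0
  have ht : (ε / 2) ∈ Metric.ball (0 : ℝ) ε := by
    rw [Metric.mem_ball, Real.dist_eq, sub_zero, abs_of_pos (by linarith)]
    linarith
  have h : LinearIndependent ℝ (fun k : κ => (N (ε / 2)).row (a k)) := hball ht
  refine ⟨qt (ε / 2), ?_⟩
  rw [Matrix.rank_eq_finrank_span_row, Matrix.rank_eq_finrank_span_row, ← hsp]
  have h3 : Module.finrank ℝ (Submodule.span ℝ (Set.range ((LM d G A col).row ∘ a))) =
      Fintype.card κ := finrank_span_eq_card hli
  rw [h3, ← finrank_span_eq_card h]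
  apply Submodule.finrank_mono
  rw [Submodule.span_le]
  rintro _ ⟨k, rfl⟩
  exact hrowN (ε / 2) (by linarith) (a k)

end Pool.Agent.H23.RG
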