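import Pool.Agent.H23.RG.Asm
import Pool.Agent.H23.RG.HIN
import Pool.Agent.H23.RG.SRK
import Pool.Agent.H23.RG.SRL
import Pool.Agent.H23.RG.PRG
import Pool.Agent.H23.RG.BLK
import Pool.Agent.H23.RG.EX1
import Pool.Agent.H23.RG.PAR
import Pool.Agent.H23.RG.CYC
import Pool.Agent.H23.RG.CLO
import Pool.Agent.H23.RG.END
import Pool.Agent.H23.RG.CH2
import Pool.Agent.H23.RG.LFM
import Pool.Agent.H23.RG.LFB
import Pool.Agent.H23.RG.COR
import Pool.Agent.H23.RG.SPS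
import Pool.Agent.H23.RG.BIP
import Pool.Agent.H23.RG.DJC
import Pool.Agent.H23.RG.PEL
import Pool.Agent.H23.RG.CCN
import Pool.Agent.H14.RG.PLC

set_option autoImplicit false
open Classical Filter

namespace Pool.Agent.H23.RG

theorem p_SRK : S_SRK := srk_part
theorem p_SRL : S_SRL := srl_part
theorem p_PRG : S_PRG := prg_part
theorem p_BLK : S_BLK := blk_part
theorem p_EX1 : S_EX1 := ex1_part p_PRG p_BLK
theorem p_PLC : S_PLC := PLC_part
theorem p_PAR : S_PAR := par_part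
theorem p_CYC : S_CYC := cyc_part p_PRG p_PLC p_BLK p_PAR
theorem p_CLO : S_CLO := clo_part p_DEG
theorem p_END : S_END := end_part p_EX1 p_CYC p_CLO p_EDG
theorem p_CH2 : S_CH2 := ch2_part
theorem p_LFM : S_LFM := lfm_part p_MON p_UNI p_ALL p_CH2
theorem p_LFA : S_LFA := lfa_part p_LFM p_UNI p_MON
theorem p_LFB : S_LFB := lfb_part p_LFM p_UNI p_MON
theorem p_COR : S_COR := cor_part p_CH2 p_UNI p_MON
theorem p_SPS : S_SPS := sps_part p_FM p_MON p_UNI p_ALL p_MS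
theorem p_BIP : S_BIP := bip_part p_UNI p_SUB p_MON
theorem p_DJC : S_DJC := djc_part p_CH2 p_UNI p_MON
theorem p_PEL : S_PEL := pel_part
theorem p_CCN : S_CCN := ccn_part p_EDG
theorem p_BIG : S_BIG := big_part p_PEL p_CCN p_COR p_SPS p_BIP p_DJC p_SRK p_SRL
theorem p_HIN : S_HIN := hin_part p_BIG p_END p_LFA p_LFB p_MID p_CON

/-- for large c the hat core is a.a.s. rigid and has linear size -/
theorem T5 (d : ℕ) (hd : 2 ≤ d) : ∃ c₀ : ℝ, 0 < c₀ ∧ ∀ c : ℝ, c₀ ≤ c →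
    (∃ ε : ℝ, 0 < ε ∧ AAS c (fun n G => ε * (n : ℝ) ≤ ((hatF d G).card : ℝ))) ∧
    AAS c (fun n G => Rig d G (hatF d G)) := by
  obtain ⟨c₁, hc₁, h1⟩ := p_HIN d hd
  obtain ⟨c₂, hc₂, h2⟩ := p_BIG d (1 / 2) hd (by norm_num)
  refine ⟨max c₁ c₂, lt_max_of_lt_left hc₁, fun c hc => ?_⟩
  have hcc₁ : c₁ ≤ c := le_trans (le_max_left _ _) hc
  have hcc₂ : c₂ ≤ c := le_trans (le_max_right _ _) hc
  have hc0 : 0 < c := lt_of_lt_of_le hc₁ hcc₁
  refine ⟨⟨1 / 2, by norm_num, ?_⟩, ?_⟩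
  · rw [aas_iff p_TRN]
    apply compl1 p_NOT _ (fun n (A : Finset (E n)) =>
      ¬ (1 / 2 : ℝ) * (n : ℝ) ≤ ((hatF d (gr A)).card : ℝ)) (fun n A => Iff.rfl)
    refine tend0 p_MON hc0 _ _ _ ?_ (h2 c hcc₂) (p_CON d c hd hc0)
    filter_upwards [eventually_ge_atTop 8] with n hn A hA
    by_contra hcon
    push Not at hcon
    obtain ⟨⟨S, hS, hSc⟩, hsub⟩ := hcon
    apply hA
    have hn' : (8 : ℝ) ≤ (n : ℝ) := by exact_mod_cast hn
    have h4 : (4 : ℝ) ≤ (S.card : ℝ) := by linarith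
    have h4' : 4 ≤ S.card := by exact_mod_cast h4
    have h5 : S ⊆ hatF d (gr A) := by
      intro v hv
      simp only [hatF, Finset.mem_filter, Finset.mem_univ, true_and]
      exact hsub S hS h4' v hv
    have h6 : (S.card : ℝ) ≤ ((hatF d (gr A)).card : ℝ) := by
      exact_mod_cast Finset.card_le_card h5
    linarith
  · rw [aas_iff p_TRN]
    exact compl1 p_NOT _ (fun n (A : Finset (E n)) =>
      ¬ Rig d (gr A) (hatF d (gr A))) (fun n A => Iff.rfl) (h1 c hcc₁)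

end Pool.Agent.H23.RG
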