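import Pool.Agent.H23.RG.Stm2

/-! Crew RG, stage 2, part BIG (helper2). -/

set_option autoImplicit false
open Classical Filter

namespace Pool.Agent.H23.RG

theorem mu_or_big {X : Type} [Fintype X] (p : ℝ) (hp0 : 0 ≤ p) (hp1 : p ≤ 1)
    (Q R : Finset X → Prop) : mu p (fun A => Q A ∨ R A) ≤ mu p Q + mu p R := by
  unfold mu
  rw [← Finset.sum_add_distrib]
  refine Finset.sum_le_sum (fun A _ => ?_)
  have hw : 0 ≤ wt p A := by
    unfold wt
    exact mul_nonneg (pow_nonneg hp0 _) (pow_nonneg (by linarith) _)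
  by_cases h1 : Q A <;> by_cases h2 : R A <;> simp [h1, h2, hw]

theorem mu_nonneg_big {X : Type} [Fintype X] (p : ℝ) (hp0 : 0 ≤ p) (hp1 : p ≤ 1)
    (Q : Finset X → Prop) : 0 ≤ mu p Q := by
  unfold mu
  refine Finset.sum_nonneg (fun A _ => ?_)
  have hw : 0 ≤ wt p A := by
    unfold wt
    exact mul_nonneg (pow_nonneg hp0 _) (pow_nonneg (by linarith) _)
  split_ifs
  · exact hw
  · exact le_refl _

theorem mu_mono_big {X : Type} [Fintype X] (p : ℝ) (hp0 : 0 ≤ p) (hp1 : p ≤ 1)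
    (Q R : Finset X → Prop) (h : ∀ A, Q A → R A) : mu p Q ≤ mu p R := by
  unfold mu
  refine Finset.sum_le_sum (fun A _ => ?_)
  have hw : 0 ≤ wt p A := by
    unfold wt
    exact mul_nonneg (pow_nonneg hp0 _) (pow_nonneg (by linarith) _)
  by_cases h1 : Q A
  · simp [h1, h A h1]
  · by_cases h2 : R A <;> simp [h1, h2, hw]

theorem big_part (hPEL : S_PEL) (hCCN : S_CCN) (hCOR : S_COR) (hSPS : S_SPS) (hBIP : S_BIP)
    (hDJC : S_DJC) (hSRK : S_SRK) (hSRL : S_SRL) : S_BIG := by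
  intro d η hd hη
  have hdR : (2 : ℝ) ≤ d := by exact_mod_cast hd
  have hd0 : (0 : ℝ) < d := by linarith
  set η₁ : ℝ := min η (1 / (4 * d)) with hη₁
  have hη₁0 : 0 < η₁ := lt_min hη (by positivity)
  have hη₁a : η₁ ≤ η := min_le_left _ _
  have hη₁b : 4 * (d : ℝ) * η₁ ≤ 1 := by
    have h : η₁ ≤ 1 / (4 * d) := min_le_right _ _
    calc 4 * (d : ℝ) * η₁ ≤ 4 * (d : ℝ) * (1 / (4 * d)) := by gcongr
      _ = 1 := by field_simp
  have hη₁c : η₁ ≤ 1 / 8 := by nlinarith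
  obtain ⟨γ, hγ, hS⟩ := hSPS d hd
  obtain ⟨γ', c₁, hγ', hc₁, hB⟩ := hBIP d (γ / 2) hd (by positivity)
  set δ : ℝ := min (γ / 2) γ' with hδ
  have hδ0 : 0 < δ := lt_min (by positivity) hγ'
  have hδ1 : δ ≤ γ / 2 := min_le_left _ _
  have hδ2 : δ ≤ γ' := min_le_right _ _
  obtain ⟨c₂, hc₂, hD⟩ := hDJC δ hδ0
  obtain ⟨c₃, hc₃, hC⟩ := hCOR d η₁ hd hη₁0 hη₁b
  refine ⟨c₁ + c₂ + c₃ + 32 * d, by positivity, ?_⟩
  intro c hc
  have hcpos : 0 < c := by linarith
  set K : ℕ := ⌊c / (8 * d)⌋₊ with hK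
  have hK1 : (K : ℝ) ≤ c / (8 * d) := Nat.floor_le (by positivity)
  have hK2 : c / (8 * d) < K + 1 := Nat.lt_floor_add_one _
  have hKa : 8 * (d : ℝ) * K ≤ c := by
    rw [le_div_iff₀ (by positivity)] at hK1
    linarith
  have hKb' : c < (K + 1) * (8 * d) := by
    rwa [div_lt_iff₀ (by positivity)] at hK2
  have hKb : c ≤ 16 * (d : ℝ) * K := by nlinarith
  have hK4 : 4 ≤ K := by
    have : (4 : ℝ) ≤ c / (8 * d) := by
      rw [le_div_iff₀ (by positivity)]
      linarith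
    exact Nat.le_floor (by exact_mod_cast this)
  have t1 := hC c K (by linarith) hKa
  have t2 := hS c K hcpos hKb hK4
  have t3 := hB c K (by linarith) hKb
  have t4 := hD c (by linarith)
  have t := ((t1.add t2).add t3).add t4
  simp only [add_zero] at t
  refine tendsto_of_tendsto_of_tendsto_of_le_of_le' tendsto_const_nhds t ?_ ?_
  · filter_upwards [eventually_ge_atTop (⌈c⌉₊ + 1)] with n hn
    have hn1 : c ≤ n := (Nat.le_ceil c).trans (by exact_mod_cast (by omega : ⌈c⌉₊ ≤ n))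
    have hn0 : (0 : ℝ) < n := by linarith
    exact mu_nonneg_big _ (by positivity) (by rw [div_le_one hn0]; exact hn1) _
  · filter_upwards [eventually_ge_atTop (⌈c⌉₊ + 2 * d + 2)] with n hn
    have hn1 : c ≤ n := (Nat.le_ceil c).trans (by exact_mod_cast (by omega : ⌈c⌉₊ ≤ n))
    have hn0 : (0 : ℝ) < n := by linarith
    have hp0 : 0 ≤ c / (n : ℝ) := by positivity
    have hp1 : c / (n : ℝ) ≤ 1 := by rw [div_le_one hn0]; exact hn1
    have hn2 : 2 * (d : ℝ) + 2 ≤ n := by exact_mod_cast (by omega : 2 * d + 2 ≤ n)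
    refine le_trans (mu_mono_big _ hp0 hp1 _ _ ?_)
      ((mu_or_big _ hp0 hp1 _ _).trans (add_le_add_left
        ((mu_or_big _ hp0 hp1 _ _).trans (add_le_add_left (mu_or_big _ hp0 hp1 _ _) _)) _))
    intro B hbad
    by_contra hno
    simp only [not_or] at hno
    obtain ⟨⟨⟨n1, n2⟩, n3⟩, n4⟩ := hno
    apply hbad
    obtain ⟨A, hA1, hA2⟩ := hPEL d n K (gr B)
    have hAc : (1 - η₁) * (n : ℝ) ≤ (A.card : ℝ) := by
      by_contra hlt
      push Not at hlt
      have hm : ⌈η₁ * (n : ℝ)⌉₊ + A.card ≤ n := by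
        by_contra hgt
        push Not at hgt
        have h1 : (n : ℝ) + 1 ≤ (⌈η₁ * (n : ℝ)⌉₊ : ℝ) + A.card := by exact_mod_cast hgt
        have h2 : (⌈η₁ * (n : ℝ)⌉₊ : ℝ) < η₁ * n + 1 := Nat.ceil_lt_add_one (by positivity)
        nlinarith
      obtain ⟨U, hU1, hU2⟩ := hA2 _ hm
      exact n1 ⟨U, hU1, hU2⟩
    have hAhalf : (d : ℝ) + 1 ≤ A.card := by nlinarith
    have hAd : d + 1 ≤ A.card := by exact_mod_cast hAhalf
    have hAne : A.Nonempty := Finset.card_pos.mp (by omega)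
    have hdpos : 0 < d := by omega
    set col : Fin n → Fin d := fun v => ⟨v.1 % d, Nat.mod_lt _ hdpos⟩ with hcol
    have hstrong : Strong d (gr B) A col := by
      refine hCCN d n K γ γ' δ B A col hd (by omega) hγ hγ' hδ0 hδ1 hδ2 ?_ hAne hA1 ?_ ?_ ?_
      · intro v
        rfl
      · intro T hT1 hT2
        by_contra hcon
        push Not at hcon
        exact n2 ⟨T, hT1, hT2, hcon⟩
      · intro T S hTS hT hSc
        by_contra hcon
        push Not at hcon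
        exact n3 ⟨T, S, hTS, hT, hSc, hcon⟩
      · intro T S hTS hT hSc
        by_contra hcon
        push Not at hcon
        exact n4 ⟨T, S, hTS, hT, hSc, hcon⟩
    have hr1 := hSRK d n (gr B) A col hstrong
    obtain ⟨q, hq⟩ := hSRL d n (gr B) A col
    refine ⟨A, Or.inr ⟨hAd, q, by omega⟩, ?_⟩
    refine le_trans ?_ hAc
    gcongr
    
end Pool.Agent.H23.RG
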