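import Pool.Agent.H23.RG.Stm

set_option autoImplicit false
open Classical Filter

namespace Pool.Agent.H23.RG

theorem pn_bounds {c : ℝ} (hc : 0 < c) : ∀ᶠ n : ℕ in atTop, 0 ≤ c / (n : ℝ) ∧ c / (n : ℝ) ≤ 1 := by
  obtain ⟨N, hN⟩ := exists_nat_ge c
  filter_upwards [eventually_ge_atTop (max N 1)] with n hn
  have h1 : (N : ℝ) ≤ (n : ℝ) := by exact_mod_cast le_trans (le_max_left _ _) hn
  have h2 : (1 : ℝ) ≤ (n : ℝ) := by exact_mod_cast le_trans (le_max_right _ _) hn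
  refine ⟨by positivity, ?_⟩
  rw [div_le_one (by linarith)]
  linarith

theorem mu_nonneg {X : Type} [Fintype X] {p : ℝ} (h0 : 0 ≤ p) (h1 : p ≤ 1)
    (Q : Finset X → Prop) : 0 ≤ mu p Q := by
  unfold mu
  apply Finset.sum_nonneg
  intro A _
  split_ifs
  · unfold wt
    exact mul_nonneg (pow_nonneg h0 _) (pow_nonneg (by linarith) _)
  · exact le_rfl

theorem mu_or {X : Type} [Fintype X] {p : ℝ} (h0 : 0 ≤ p) (h1 : p ≤ 1)
    (Q R : Finset X → Prop) : mu p (fun A => Q A ∨ R A) ≤ mu p Q + mu p R := by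
  unfold mu
  rw [← Finset.sum_add_distrib]
  apply Finset.sum_le_sum
  intro A _
  have h : 0 ≤ wt p A := by
    unfold wt
    exact mul_nonneg (pow_nonneg h0 _) (pow_nonneg (by linarith) _)
  by_cases hQ : Q A <;> by_cases hR : R A <;> simp [hQ, hR] <;> linarith

/-- an event eventually contained in a union of two null events is null -/
theorem tend0 (hMON : S_MON) {c : ℝ} (hc : 0 < c) (R B₁ B₂ : ∀ n : ℕ, Finset (E n) → Prop)
    (h : ∀ᶠ n : ℕ in atTop, ∀ A : Finset (E n), R n A → B₁ n A ∨ B₂ n A)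
    (h1 : Tendsto (fun n : ℕ => mu (c / (n : ℝ)) (B₁ n)) atTop (nhds 0))
    (h2 : Tendsto (fun n : ℕ => mu (c / (n : ℝ)) (B₂ n)) atTop (nhds 0)) :
    Tendsto (fun n : ℕ => mu (c / (n : ℝ)) (R n)) atTop (nhds 0) := by
  have h3 := h1.add h2
  rw [add_zero] at h3
  refine tendsto_of_tendsto_of_tendsto_of_le_of_le' tendsto_const_nhds h3 ?_ ?_
  · filter_upwards [pn_bounds hc] with n hn
    exact mu_nonneg hn.1 hn.2 _
  · filter_upwards [pn_bounds hc, h] with n hn hA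
    exact le_trans (hMON (E n) _ hn.1 hn.2 _ _ hA) (mu_or hn.1 hn.2 _ _)

/-- complements -/
theorem compl1 (hNOT : S_NOT) {c : ℝ} (Q R : ∀ n : ℕ, Finset (E n) → Prop)
    (hQR : ∀ n A, R n A ↔ ¬ Q n A)
    (h : Tendsto (fun n : ℕ => mu (c / (n : ℝ)) (R n)) atTop (nhds 0)) :
    Tendsto (fun n : ℕ => mu (c / (n : ℝ)) (Q n)) atTop (nhds 1) := by
  have h1 : (fun n : ℕ => mu (c / (n : ℝ)) (Q n)) = fun n : ℕ => 1 - mu (c / (n : ℝ)) (R n) := by
    funext n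
    have h2 : R n = fun A => ¬ Q n A := by
      funext A
      exact propext (hQR n A)
    rw [h2, hNOT]
    ring
  rw [h1]
  have h3 := (tendsto_const_nhds (x := (1 : ℝ))).sub h
  rwa [sub_zero] at h3

theorem compl0 (hNOT : S_NOT) {c : ℝ} (Q R : ∀ n : ℕ, Finset (E n) → Prop)
    (hQR : ∀ n A, R n A ↔ ¬ Q n A)
    (h : Tendsto (fun n : ℕ => mu (c / (n : ℝ)) (Q n)) atTop (nhds 1)) :
    Tendsto (fun n : ℕ => mu (c / (n : ℝ)) (R n)) atTop (nhds 0) := by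
  have h1 : (fun n : ℕ => mu (c / (n : ℝ)) (R n)) = fun n : ℕ => 1 - mu (c / (n : ℝ)) (Q n) := by
    funext n
    have h2 : R n = fun A => ¬ Q n A := by
      funext A
      exact propext (hQR n A)
    rw [h2, hNOT]
  rw [h1]
  have h3 := (tendsto_const_nhds (x := (1 : ℝ))).sub h
  rwa [sub_self] at h3

/-- no vertex set spans more than `d |S|` edges (ordered pairs are counted) -/
def Sparse (d : ℕ) {n : ℕ} (G : SimpleGraph (Fin n)) : Prop :=
  ∀ S : Finset (Fin n), ((S ×ˢ S).filter (fun e => G.Adj e.1 e.2)).card ≤ 2 * d * S.card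

/-- the `((d+1)+d)`-core as a set -/
noncomputable def hatF (d : ℕ) {n : ℕ} (G : SimpleGraph (Fin n)) : Finset (Fin n) :=
  Finset.univ.filter (Hat d G)

/-- inclusion-maximal rigid vertex sets -/
def Comp (d : ℕ) {n : ℕ} (G : SimpleGraph (Fin n)) (S : Finset (Fin n)) : Prop :=
  Rig d G S ∧ ∀ T : Finset (Fin n), S ⊆ T → Rig d G T → T = S

/-- asymptotically almost surely in `G(n, c/n)` -/
def AAS (c : ℝ) (Q : ∀ n : ℕ, SimpleGraph (Fin n) → Prop) : Prop :=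
  Tendsto (fun n : ℕ => P n (c / (n : ℝ)) (Q n)) atTop (nhds 1)

theorem aas_iff (hTRN : S_TRN) (c : ℝ) (Q : ∀ n : ℕ, SimpleGraph (Fin n) → Prop) :
    AAS c Q ↔ Tendsto (fun n : ℕ => mu (c / (n : ℝ)) (fun A : Finset (E n) => Q n (gr A)))
      atTop (nhds 1) := by
  unfold AAS
  have h : (fun n : ℕ => P n (c / (n : ℝ)) (Q n)) =
      fun n : ℕ => mu (c / (n : ℝ)) (fun A : Finset (E n) => Q n (gr A)) := by
    funext n
    exact hTRN n _ _
  rw [h]

theorem sparse_iff (hEDG : S_EDG) (d n : ℕ) (A : Finset (E n)) :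
    ¬ Sparse d (gr A) ↔ ∃ S : Finset (Fin n), d * S.card < eS A S := by
  unfold Sparse
  push Not
  refine exists_congr fun S => ?_
  rw [hEDG, mul_assoc]
  omega

/-- T1: rigid sets are tiny or giant, and the giant ones are in the hat core -/
theorem t1 (hMON : S_MON) (hNOT : S_NOT) (hTRN : S_TRN) (hDIC : S_DIC) (hCON : S_CON)
    (d : ℕ) (c : ℝ) (hd : 2 ≤ d) (hc : 0 < c) :
    ∃ ε : ℝ, 0 < ε ∧ AAS c (fun n G => ∀ S : Finset (Fin n), Rig d G S →
      S.card ≤ 3 ∨ (ε * (n : ℝ) < (S.card : ℝ) ∧ S ⊆ hatF d G)) := by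
  obtain ⟨ε, hε, h1⟩ := hDIC d c hd hc
  refine ⟨ε, hε, ?_⟩
  rw [aas_iff hTRN]
  apply compl1 hNOT _ (fun n A => ¬ ∀ S : Finset (Fin n), Rig d (gr A) S →
      S.card ≤ 3 ∨ (ε * (n : ℝ) < (S.card : ℝ) ∧ S ⊆ hatF d (gr A))) (fun n A => Iff.rfl)
  refine tend0 hMON hc _ _ _ (Eventually.of_forall ?_) h1 (hCON d c hd hc)
  intro n A hA
  push Not at hA
  obtain ⟨S, hS, h3, h4⟩ := hA
  by_cases h5 : ε * (n : ℝ) < (S.card : ℝ)
  · right
    refine ⟨S, hS, by omega, ?_⟩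
    intro h6
    apply h4 h5
    intro v hv
    simp only [hatF, Finset.mem_filter, Finset.mem_univ, true_and]
    exact h6 v hv
  · left
    exact ⟨S, hS, by omega, not_lt.mp h5⟩

/-- T2: part (a) -/
theorem t2 (hMON : S_MON) (hNOT : S_NOT) (hTRN : S_TRN) (hEDG : S_EDG) (hDIC : S_DIC)
    (hLRG : S_LRG) (d : ℕ) (c c' : ℝ) (hd : 2 ≤ d) (hc : 0 < c) (hcc : c < c')
    (h : AAS c' (fun n G => Sparse d G)) :
    AAS c (fun n G => ∀ S : Finset (Fin n), Rig d G S → S.card ≤ 3) := by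
  obtain ⟨ε, hε, h1⟩ := hDIC d c hd hc
  rw [aas_iff hTRN] at h ⊢
  have h2 := compl0 hNOT _ (fun n A => ∃ S : Finset (Fin n), d * S.card < eS A S)
    (fun n A => (sparse_iff hEDG d n A).symm) h
  have h3 := hLRG d c c' ε hd hc hcc hε h2
  apply compl1 hNOT _ (fun n A => ¬ ∀ S : Finset (Fin n), Rig d (gr A) S → S.card ≤ 3)
    (fun n A => Iff.rfl)
  refine tend0 hMON hc _ _ _ (Eventually.of_forall ?_) h1 h3
  intro n A hA
  push Not at hA
  obtain ⟨S, hS, h4⟩ := hA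
  rcases le_total (S.card : ℝ) (ε * (n : ℝ)) with h5 | h5
  · left
    exact ⟨S, hS, by omega, h5⟩
  · right
    exact ⟨S, hS, h5⟩

/-- T3: the hat core is large above the threshold -/
theorem t3 (hNOT : S_NOT) (hTRN : S_TRN) (hEDG : S_EDG)
    (hGIA : S_GIA) (d : ℕ) (c : ℝ) (hd : 2 ≤ d) (hc : 0 < c)
    (h : Tendsto (fun n : ℕ => P n (c / (n : ℝ)) (fun G => Sparse d G)) atTop (nhds 0)) :
    ∃ ε : ℝ, 0 < ε ∧ AAS c (fun n G => ε * (n : ℝ) ≤ ((hatF d G).card : ℝ)) := by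
  have h0 : (fun n : ℕ => P n (c / (n : ℝ)) (fun G => Sparse d G)) =
      fun n : ℕ => mu (c / (n : ℝ)) (fun A : Finset (E n) => Sparse d (gr A)) := by
    funext n
    exact hTRN n _ _
  rw [h0] at h
  have h1 := compl1 hNOT (fun n A => ∃ S : Finset (Fin n), d * S.card < eS A S)
    (fun n (A : Finset (E n)) => Sparse d (gr A)) (fun n A => by
      rw [← sparse_iff hEDG, not_not]) h
  obtain ⟨ε, hε, h2⟩ := hGIA d c hd hc h1
  exact ⟨ε, hε, (aas_iff hTRN c _).mpr h2⟩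

/-- T4: if the hat core is rigid then it is the only large component -/
theorem t4 (hMON : S_MON) (hNOT : S_NOT) (hTRN : S_TRN)
    (hCON : S_CON) (d : ℕ) (c : ℝ) (hd : 2 ≤ d) (hc : 0 < c)
    (h : ∃ ε : ℝ, 0 < ε ∧ AAS c (fun n G => ε * (n : ℝ) ≤ ((hatF d G).card : ℝ)))
    (hr : AAS c (fun n G => Rig d G (hatF d G))) :
    AAS c (fun n G => Comp d G (hatF d G) ∧
      ∀ S : Finset (Fin n), Comp d G S → S ≠ hatF d G → S.card ≤ 3) := by
  obtain ⟨ε, hε, h1⟩ := h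
  rw [aas_iff hTRN] at h1 hr ⊢
  have hr' := compl0 hNOT _ (fun n (A : Finset (E n)) => ¬ Rig d (gr A) (hatF d (gr A)))
    (fun n A => Iff.rfl) hr
  have h1' := compl0 hNOT _ (fun n (A : Finset (E n)) =>
    ¬ ε * (n : ℝ) ≤ ((hatF d (gr A)).card : ℝ)) (fun n A => Iff.rfl) h1
  have h2 := hCON d c hd hc
  have h3 : Tendsto (fun n : ℕ => mu (c / (n : ℝ)) (fun A : Finset (E n) =>
      ¬ Rig d (gr A) (hatF d (gr A)) ∨ ¬ ε * (n : ℝ) ≤ ((hatF d (gr A)).card : ℝ)))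
      atTop (nhds 0) :=
    tend0 hMON hc _ _ _ (Eventually.of_forall fun n A hA => hA) hr' h1'
  apply compl1 hNOT _ (fun n A => ¬ (Comp d (gr A) (hatF d (gr A)) ∧
      ∀ S : Finset (Fin n), Comp d (gr A) S → S ≠ hatF d (gr A) → S.card ≤ 3))
    (fun n A => Iff.rfl)
  refine tend0 hMON hc _ _ _ ?_ h3 h2
  obtain ⟨N, hN⟩ := exists_nat_gt (4 / ε)
  filter_upwards [eventually_ge_atTop N] with n hn A hA
  by_contra hcon
  push Not at hcon
  obtain ⟨⟨hrig, hbig⟩, hsub⟩ := hcon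
  apply hA
  have hsub' : ∀ T : Finset (Fin n), Rig d (gr A) T → 4 ≤ T.card → T ⊆ hatF d (gr A) := by
    intro T hT h4 v hv
    simp only [hatF, Finset.mem_filter, Finset.mem_univ, true_and]
    exact hsub T hT h4 v hv
  have h4 : 4 ≤ (hatF d (gr A)).card := by
    have h5 : 4 / ε < (n : ℝ) := lt_of_lt_of_le hN (by exact_mod_cast hn)
    rw [div_lt_iff₀ hε] at h5
    have h6 : (4 : ℝ) < ((hatF d (gr A)).card : ℝ) := by linarith
    have h7 : 4 < (hatF d (gr A)).card := by exact_mod_cast h6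
    omega
  refine ⟨⟨hrig, ?_⟩, ?_⟩
  · intro T hT hTr
    exact Finset.Subset.antisymm (hsub' T hTr (le_trans h4 (Finset.card_le_card hT))) hT
  · intro S hS hne
    by_contra h8
    exact hne (hS.2 _ (hsub' S hS.1 (by omega)) hrig).symm

theorem aas_mono (hMON : S_MON) (hNOT : S_NOT) (hTRN : S_TRN) {c : ℝ} (hc : 0 < c)
    (Q R : ∀ n : ℕ, SimpleGraph (Fin n) → Prop)
    (hQR : ∀ᶠ n : ℕ in atTop, ∀ G : SimpleGraph (Fin n), Q n G → R n G) (hQ : AAS c Q) :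
    AAS c R := by
  rw [aas_iff hTRN] at hQ ⊢
  have h1 := compl0 hNOT _ (fun n (A : Finset (E n)) => ¬ Q n (gr A)) (fun n A => Iff.rfl) hQ
  apply compl1 hNOT _ (fun n (A : Finset (E n)) => ¬ R n (gr A)) (fun n A => Iff.rfl)
  refine tend0 hMON hc _ _ _ ?_ h1 h1
  filter_upwards [hQR] with n hn A hA
  exact Or.inl fun h => hA (hn _ h)

end Pool.Agent.H23.RG
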