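import Pool.Agent.H23.RG.Stm2

/-!
Part LFA of the crew RG (MP_264ef2_co).
-/

set_option autoImplicit false
open Classical Filter

namespace Pool.Agent.H23.RG

lemma lf_fact (s m : ℕ) (hm : m = s ∨ m = s + 1) :
    (s : ℝ) ^ (2 * m) ≤ Real.exp (3 * s) * ((s.factorial : ℝ) * m.factorial) := by
  have hs0 : (0 : ℝ) ≤ s := Nat.cast_nonneg s
  have hf : (0 : ℝ) < s.factorial := by exact_mod_cast Nat.factorial_pos s
  have h1 : (s : ℝ) ^ s ≤ Real.exp s * s.factorial := by
    have := Real.pow_div_factorial_le_exp (s : ℝ) hs0 s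
    rwa [div_le_iff₀ hf] at this
  have h2 : (s : ℝ) ^ (2 * s) ≤ Real.exp (2 * s) * ((s.factorial : ℝ) * s.factorial) := by
    calc (s : ℝ) ^ (2 * s) = (s : ℝ) ^ s * (s : ℝ) ^ s := by rw [← pow_add]; congr 1; ring
      _ ≤ (Real.exp s * s.factorial) * (Real.exp s * s.factorial) :=
          mul_le_mul h1 h1 (by positivity) (by positivity)
      _ = Real.exp (2 * s) * ((s.factorial : ℝ) * s.factorial) := by
          have : Real.exp (2 * (s : ℝ)) = Real.exp s * Real.exp s := by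
            rw [← Real.exp_add]; congr 1; ring
          rw [this]; ring
  have h3 : (s : ℝ) ≤ Real.exp s := by linarith [Real.add_one_le_exp (s : ℝ)]
  have h4 : Real.exp (3 * (s : ℝ)) = Real.exp (2 * s) * Real.exp s := by
    rw [← Real.exp_add]; congr 1; ring
  rcases hm with rfl | rfl
  · refine h2.trans (mul_le_mul_of_nonneg_right (Real.exp_le_exp.2 (by linarith)) (by positivity))
  · have h5 : ((s + 1).factorial : ℝ) = ((s : ℝ) + 1) * s.factorial := by
      rw [Nat.factorial_succ]; push_cast; ring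
    have h6 : (s : ℝ) ^ (2 * (s + 1)) = (s : ℝ) ^ (2 * s) * ((s : ℝ) * s) := by
      rw [show 2 * (s + 1) = 2 * s + 2 by ring, pow_add]; ring
    rw [h6, h5, h4]
    calc (s : ℝ) ^ (2 * s) * ((s : ℝ) * s)
        ≤ (Real.exp (2 * s) * ((s.factorial : ℝ) * s.factorial)) * (Real.exp s * ((s : ℝ) + 1)) := by
          refine mul_le_mul h2 ?_ (by positivity) (by positivity)
          exact mul_le_mul h3 (by linarith) hs0 (by positivity)
      _ = _ := by ring

lemma lf_term (d n s m : ℕ) (c : ℝ) (hc : 0 < c) (hn : c ≤ n) (hs : 1 ≤ s) (h2 : 2 * s ≤ n)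
    (hm : m = s ∨ m = s + 1) :
    (n.choose s : ℝ) * ((s.choose 2).choose m : ℝ) * (c / (n : ℝ)) ^ m * 2 ^ (d * s) *
      (1 - c / (n : ℝ) / 2) ^ (s * (n - s)) ≤
      (c / (n : ℝ)) ^ (m - s) * (Real.exp 3 * c * 2 ^ d * Real.exp (-(c / 4))) ^ s := by
  have hn0 : (0 : ℝ) < n := lt_of_lt_of_le hc hn
  have hms : s ≤ m := by omega
  have hsn : s ≤ n := by omega
  have hfs : (0 : ℝ) < s.factorial := by exact_mod_cast Nat.factorial_pos s
  have hfm : (0 : ℝ) < m.factorial := by exact_mod_cast Nat.factorial_pos m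
  have h3 : (n.choose s : ℝ) ≤ (n : ℝ) ^ s / s.factorial := Nat.choose_le_pow_div s n
  have h4 : ((s.choose 2).choose m : ℝ) ≤ (s : ℝ) ^ (2 * m) / m.factorial := by
    refine (Nat.choose_le_pow_div m (s.choose 2)).trans ?_
    refine div_le_div_of_nonneg_right ?_ hfm.le
    rw [pow_mul]
    refine pow_le_pow_left₀ (Nat.cast_nonneg _) ?_ m
    have : s.choose 2 ≤ s ^ 2 := Nat.choose_le_pow s 2
    exact_mod_cast this
  have h5 : (1 - c / (n : ℝ) / 2) ^ (s * (n - s)) ≤ Real.exp (-(c / 4)) ^ s := by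
    have h6 : 0 ≤ 1 - c / (n : ℝ) / 2 := by
      have : c / (n : ℝ) ≤ 1 := by rw [div_le_one hn0]; exact hn
      linarith
    have h7 : 1 - c / (n : ℝ) / 2 ≤ Real.exp (-(c / (n : ℝ) / 2)) := by
      have := Real.add_one_le_exp (-(c / (n : ℝ) / 2))
      linarith
    calc (1 - c / (n : ℝ) / 2) ^ (s * (n - s)) ≤ Real.exp (-(c / (n : ℝ) / 2)) ^ (s * (n - s)) :=
          pow_le_pow_left₀ h6 h7 _
      _ = Real.exp ((s * (n - s) : ℕ) * (-(c / (n : ℝ) / 2))) := by rw [Real.exp_nat_mul]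
      _ ≤ Real.exp ((s : ℝ) * (-(c / 4))) := by
          refine Real.exp_le_exp.2 ?_
          rw [Nat.cast_mul, Nat.cast_sub hsn]
          have h8 : (2 : ℝ) * s ≤ n := by exact_mod_cast h2
          have h9 : c / 4 ≤ ((n : ℝ) - s) * (c / (n : ℝ) / 2) := by
            have : ((n : ℝ) - s) * (c / (n : ℝ) / 2) = c / 4 * (2 * ((n : ℝ) - s) / n) := by
              field_simp
              ring
            rw [this]
            have h10 : 1 ≤ 2 * ((n : ℝ) - s) / n := by
              rw [le_div_iff₀ hn0]; linarith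
            have : 0 < c / 4 := by positivity
            nlinarith
          have hs0 : (0 : ℝ) ≤ s := Nat.cast_nonneg s
          have := mul_le_mul_of_nonneg_left h9 hs0
          nlinarith
      _ = Real.exp (-(c / 4)) ^ s := by rw [Real.exp_nat_mul]
  have h60 : 0 ≤ (1 - c / (n : ℝ) / 2) ^ (s * (n - s)) := by
    refine pow_nonneg ?_ _
    have : c / (n : ℝ) ≤ 1 := by rw [div_le_one hn0]; exact hn
    linarith
  calc (n.choose s : ℝ) * ((s.choose 2).choose m : ℝ) * (c / (n : ℝ)) ^ m * 2 ^ (d * s) *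
      (1 - c / (n : ℝ) / 2) ^ (s * (n - s))
      ≤ ((n : ℝ) ^ s / s.factorial) * ((s : ℝ) ^ (2 * m) / m.factorial) * (c / (n : ℝ)) ^ m *
        2 ^ (d * s) * Real.exp (-(c / 4)) ^ s := by
        gcongr
    _ = ((s : ℝ) ^ (2 * m) / ((s.factorial : ℝ) * m.factorial)) *
        ((c / (n : ℝ)) ^ (m - s) * (c ^ s * 2 ^ (d * s) * Real.exp (-(c / 4)) ^ s)) := by
        have h7 : (c / (n : ℝ)) ^ m = (c / (n : ℝ)) ^ (m - s) * (c / (n : ℝ)) ^ s := by
          rw [← pow_add]; congr 1; omega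
        have h8 : (c / (n : ℝ)) ^ s = c ^ s / (n : ℝ) ^ s := div_pow _ _ _
        rw [h7, h8]
        have h9 : (n : ℝ) ^ s ≠ 0 := (pow_pos hn0 s).ne'
        field_simp
    _ ≤ Real.exp (3 * s) *
        ((c / (n : ℝ)) ^ (m - s) * (c ^ s * 2 ^ (d * s) * Real.exp (-(c / 4)) ^ s)) := by
        refine mul_le_mul_of_nonneg_right ?_ (by positivity)
        rw [div_le_iff₀ (by positivity)]
        exact lf_fact s m hm
    _ = (c / (n : ℝ)) ^ (m - s) * (Real.exp 3 * c * 2 ^ d * Real.exp (-(c / 4))) ^ s := by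
        have h7 : Real.exp (3 * (s : ℝ)) = Real.exp 3 ^ s := by
          rw [← Real.exp_nat_mul]; congr 1; ring
        rw [h7, mul_pow, mul_pow, mul_pow, ← pow_mul 2 d s]
        ring

lemma lf_c0 (d : ℕ) : ∃ c₀ : ℝ, 0 < c₀ ∧ ∀ c : ℝ, c₀ ≤ c →
    Real.exp 3 * c * 2 ^ d * Real.exp (-(c / 4)) ≤ 1 / 4 := by
  have h1 : Tendsto (fun x : ℝ => x ^ 1 * Real.exp (-x)) atTop (nhds 0) :=
    Real.tendsto_pow_mul_exp_neg_atTop_nhds_zero 1
  have h2 : Tendsto (fun c : ℝ => c / 4) atTop atTop :=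
    tendsto_id.atTop_div_const (by norm_num)
  have h3 := (h1.comp h2).const_mul (Real.exp 3 * 2 ^ d * 4)
  rw [mul_zero] at h3
  have h4 := (h3.eventually_le_const (show (0 : ℝ) < 1 / 4 by norm_num)).exists_forall_of_atTop
  obtain ⟨c₁, hc₁⟩ := h4
  refine ⟨max 1 c₁, lt_of_lt_of_le one_pos (le_max_left _ _), fun c hc => ?_⟩
  have h5 := hc₁ c ((le_max_right _ _).trans hc)
  refine le_trans (le_of_eq ?_) h5
  simp only [Function.comp, pow_one]
  ring

lemma lf_nonneg {X : Type} [Fintype X] (p : ℝ) (h0 : 0 ≤ p) (h1 : p ≤ 1)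
    (Q : Finset X → Prop) : 0 ≤ mu p Q := by
  unfold mu wt
  refine Finset.sum_nonneg fun A _ => ?_
  have : 0 ≤ 1 - p := by linarith
  split_ifs
  · positivity
  · exact le_rfl

theorem lfa_part (hLFM : S_LFM) (hUNI : S_UNI) (hMON : S_MON) : S_LFA := by
  intro d hd
  obtain ⟨c₀, hc₀, hc⟩ := lf_c0 d
  refine ⟨c₀, hc₀, fun c hcc => ?_⟩
  have hc0 : 0 < c := lt_of_lt_of_le hc₀ hcc
  have hx := hc c hcc
  have hlim : Tendsto (fun n : ℕ => 2 * (c / (n : ℝ))) atTop (nhds 0) := by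
    have := (tendsto_const_div_atTop_nhds_zero_nat c).const_mul 2
    rwa [mul_zero] at this
  refine squeeze_zero' ?_ ?_ hlim
  · filter_upwards [eventually_ge_atTop ⌈c⌉₊] with n hn
    have hn1 : c ≤ n := (Nat.le_ceil c).trans (by exact_mod_cast hn)
    have hn0 : (0 : ℝ) < n := lt_of_lt_of_le hc0 hn1
    exact lf_nonneg _ (by positivity) (by rw [div_le_one hn0]; exact hn1) _
  · filter_upwards [eventually_ge_atTop ⌈c⌉₊] with n hn
    have hn1 : c ≤ n := (Nat.le_ceil c).trans (by exact_mod_cast hn)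
    have hn0 : (0 : ℝ) < n := lt_of_lt_of_le hc0 hn1
    have hp0 : 0 ≤ c / (n : ℝ) := by positivity
    have hp1 : c / (n : ℝ) ≤ 1 := by rw [div_le_one hn0]; exact hn1
    set J := (Finset.Icc 1 n).filter (fun s => 2 * s ≤ n) with hJ
    refine (hMON (E n) _ hp0 hp1 _ (fun B => ∃ s ∈ J, ∃ S : Finset (Fin n), S.card = s ∧
      s + 1 ≤ eS B S ∧ FewOut d (gr B) S) ?_).trans ?_
    · rintro B ⟨S, hS1, hS2, hS3, hS4⟩
      refine ⟨S.card, ?_, S, rfl, hS4, hS3⟩
      rw [hJ, Finset.mem_filter, Finset.mem_Icc]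
      have := hS1.card_pos
      omega
    · refine (hUNI (E n) _ hp0 hp1 ℕ J _).trans ?_
      calc ∑ s ∈ J, mu (c / (n : ℝ)) (fun B : Finset (E n) => ∃ S : Finset (Fin n), S.card = s ∧
            s + 1 ≤ eS B S ∧ FewOut d (gr B) S)
          ≤ ∑ s ∈ J, (c / (n : ℝ)) * (1 / 2) ^ s := by
            refine Finset.sum_le_sum fun s hs => ?_
            rw [hJ, Finset.mem_filter, Finset.mem_Icc] at hs
            refine (hLFM d n s (s + 1) _ (by omega) hp0 hp1).trans ?_
            refine (lf_term d n s (s + 1) c hc0 hn1 hs.1.1 hs.2 (Or.inr rfl)).trans ?_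
            rw [Nat.add_sub_cancel_left, pow_one]
            refine mul_le_mul_of_nonneg_left ?_ hp0
            exact pow_le_pow_left₀ (by positivity) (hx.trans (by norm_num)) s
        _ ≤ ∑ s ∈ Finset.range (n + 1), (c / (n : ℝ)) * (1 / 2) ^ s := by
            refine Finset.sum_le_sum_of_subset_of_nonneg ?_ fun _ _ _ => by positivity
            intro s hs
            rw [hJ, Finset.mem_filter, Finset.mem_Icc] at hs
            rw [Finset.mem_range]
            omega
        _ ≤ 2 * (c / (n : ℝ)) := by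
            rw [← Finset.mul_sum, mul_comm 2]
            exact mul_le_mul_of_nonneg_left (sum_geometric_two_le _) hp0

end Pool.Agent.H23.RG
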