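import Pool.Agent.H23.RG.Stm

set_option autoImplicit false
open Classical Filter

namespace Pool.Agent.H23.RG

theorem ms_part : S_MS := by
  intro C ε₁ hC hε₁
  set ε : ℝ := min ε₁ ((1 / (2 * C)) ^ 2) with hε
  have hεpos : 0 < ε := lt_min hε₁ (by positivity)
  have hCε : C * Real.sqrt ε ≤ 1 / 2 := by
    have h1 : Real.sqrt ε ≤ 1 / (2 * C) := by
      rw [Real.sqrt_le_left (by positivity)]
      exact min_le_right _ _
    calc C * Real.sqrt ε ≤ C * (1 / (2 * C)) := mul_le_mul_of_nonneg_left h1 hC.le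
      _ = 1 / 2 := by field_simp
  refine ⟨ε, hεpos, min_le_left _ _, ?_⟩
  let f : ℕ → ℕ → ℝ := fun n s =>
    if s ∈ Finset.Icc 4 ⌊ε * (n : ℝ)⌋₊ then (C * Real.sqrt ((s : ℝ) / (n : ℝ))) ^ s else 0
  have hsum : ∀ n : ℕ, ∑ s ∈ Finset.Icc 4 ⌊ε * (n : ℝ)⌋₊,
      (C * Real.sqrt ((s : ℝ) / (n : ℝ))) ^ s = ∑' s, f n s := by
    intro n
    rw [tsum_eq_sum (s := Finset.Icc 4 ⌊ε * (n : ℝ)⌋₊)]
    · exact Finset.sum_congr rfl (fun s hs => by simp only [f]; rw [if_pos hs])
    · intro s hs
      simp only [f]; rw [if_neg hs]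
  simp_rw [hsum]
  have hz : (0 : ℝ) = ∑' _ : ℕ, (0 : ℝ) := by simp
  rw [hz]
  refine tendsto_tsum_of_dominated_convergence (bound := fun s : ℕ => (1 / 2 : ℝ) ^ s) ?_ ?_ ?_
  · exact summable_geometric_of_lt_one (by norm_num) (by norm_num)
  · intro s
    by_cases hs : 4 ≤ s
    · have h1 : Tendsto (fun n : ℕ => (C * Real.sqrt ((s : ℝ) / (n : ℝ))) ^ s) atTop (nhds 0) := by
        have h2 : Tendsto (fun n : ℕ => (s : ℝ) / (n : ℝ)) atTop (nhds 0) :=
          tendsto_const_div_atTop_nhds_zero_nat _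
        have h3 := (Real.continuous_sqrt.tendsto 0).comp h2
        have h4 := (h3.const_mul C).pow s
        have h5 : (C * Real.sqrt 0) ^ s = 0 := by
          rw [Real.sqrt_zero, mul_zero, zero_pow (by omega)]
        rw [h5] at h4
        exact h4
      refine squeeze_zero_norm (fun n => ?_) h1
      simp only [f]
      split_ifs with h
      · rw [Real.norm_of_nonneg (by positivity)]
      · rw [norm_zero]; positivity
    · have : ∀ n, f n s = 0 := by
        intro n
        simp only [f]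
        rw [if_neg]
        intro h
        exact hs (Finset.mem_Icc.1 h).1
      simp [this]
  · refine Filter.Eventually.of_forall (fun n s => ?_)
    simp only [f]
    split_ifs with h
    · rw [Real.norm_of_nonneg (by positivity)]
      refine pow_le_pow_left₀ (by positivity) ?_ s
      obtain ⟨h1, h2⟩ := Finset.mem_Icc.1 h
      have h3 : (s : ℝ) ≤ ε * n := (Nat.le_floor_iff (by positivity)).1 h2
      have hn : (0 : ℝ) < n := by
        by_contra hn
        have : (n : ℝ) = 0 := le_antisymm (not_lt.1 hn) (Nat.cast_nonneg n)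
        rw [this, mul_zero] at h3
        have : (4 : ℝ) ≤ s := by exact_mod_cast h1
        linarith
      refine le_trans (mul_le_mul_of_nonneg_left (Real.sqrt_le_sqrt ?_) hC.le) hCε
      rw [div_le_iff₀ hn]; exact h3
    · rw [norm_zero]; positivity

end Pool.Agent.H23.RG
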