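import Pool.Agent.H23.RG.Stm2

/-! Crew RG, part SPS: small sets are sparse. -/

set_option autoImplicit false
open Classical Filter

namespace Pool.Agent.H23.RG

theorem choose_le56 (n k : ℕ) (hk : 1 ≤ k) :
    (n.choose k : ℝ) ≤ (Real.exp 1 * ((n : ℝ) / (k : ℝ))) ^ k := by
  have h1 : (n.choose k : ℝ) ≤ (n : ℝ) ^ k / (k.factorial : ℝ) := Nat.choose_le_pow_div k n
  have h2 : (k : ℝ) ^ k / (k.factorial : ℝ) ≤ Real.exp k :=
    Real.pow_div_factorial_le_exp (k : ℝ) (by positivity) k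
  have hk0 : (0 : ℝ) < k := by exact_mod_cast hk
  have h3 : (n : ℝ) ^ k / (k.factorial : ℝ) =
      ((n : ℝ) / (k : ℝ)) ^ k * ((k : ℝ) ^ k / (k.factorial : ℝ)) := by
    rw [div_pow]
    field_simp
  have h4 : Real.exp (k : ℝ) = (Real.exp 1) ^ k := by
    rw [← Real.exp_nat_mul, mul_one]
  rw [mul_pow, ← h4, mul_comm]
  calc (n.choose k : ℝ) ≤ (n : ℝ) ^ k / (k.factorial : ℝ) := h1
    _ = ((n : ℝ) / (k : ℝ)) ^ k * ((k : ℝ) ^ k / (k.factorial : ℝ)) := h3
    _ ≤ ((n : ℝ) / (k : ℝ)) ^ k * Real.exp k := by gcongr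

theorem term56 (d : ℕ) (hd : 2 ≤ d) (c : ℝ) (K : ℕ) (hc : 0 < c) (hcK : c ≤ 16 * (d : ℝ) * K)
    (hK : 4 ≤ K) (n s m : ℕ) (hs : 1 ≤ s) (hm : K * s ≤ 2 * m)
    (hsn : 16 * Real.exp 1 * (d : ℝ) * (s : ℝ) ≤ (n : ℝ)) (hn : 0 < n) :
    (n.choose s : ℝ) * ((s.choose 2).choose m : ℝ) * (c / (n : ℝ)) ^ m ≤
      (256 * Real.exp 1 ^ 3 * (d : ℝ) ^ 2 * Real.sqrt ((s : ℝ) / (n : ℝ))) ^ s := by
  obtain ⟨e, he⟩ : ∃ e, e = Real.exp 1 := ⟨_, rfl⟩
  have he0 : 0 < e := by rw [he]; exact Real.exp_pos 1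
  have hd0 : (0 : ℝ) < d := by
    have : 0 < d := by omega
    exact_mod_cast this
  have hs0 : (0 : ℝ) < s := by exact_mod_cast hs
  have hn0 : (0 : ℝ) < n := by exact_mod_cast hn
  have hK0 : (0 : ℝ) < K := by
    have : 0 < K := by omega
    exact_mod_cast this
  have h2sm : 2 * s ≤ m := by nlinarith
  have hm1 : 1 ≤ m := by omega
  have hm0 : (0 : ℝ) < m := by exact_mod_cast hm1
  have hm' : (K : ℝ) * s ≤ 2 * m := by exact_mod_cast hm
  have h1 : (n.choose s : ℝ) ≤ (e * ((n : ℝ) / (s : ℝ))) ^ s := by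
    rw [he]; exact choose_le56 n s hs
  have h2 : ((s.choose 2).choose m : ℝ) ≤ (e * ((s : ℝ) / K)) ^ m := by
    rw [he]
    refine (choose_le56 _ m hm1).trans ?_
    have h3 : ((s.choose 2 : ℕ) : ℝ) ≤ (s : ℝ) ^ 2 / 2 := by
      have := Nat.choose_le_pow_div (α := ℝ) 2 s
      simpa using this
    have h4 : ((s.choose 2 : ℕ) : ℝ) / (m : ℝ) ≤ (s : ℝ) / K := by
      rw [div_le_div_iff₀ hm0 hK0]
      nlinarith
    gcongr
  rw [← he] at hsn ⊢
  have hx1 : 16 * e * d * ((s : ℝ) / n) ≤ 1 := by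
    rw [← mul_div_assoc, div_le_one hn0]
    exact hsn
  have hx0 : 0 ≤ 16 * e * d * ((s : ℝ) / n) := by positivity
  have h5 : (e * ((s : ℝ) / K)) ^ m * (c / (n : ℝ)) ^ m ≤
      (16 * e * d * ((s : ℝ) / n)) ^ (2 * s) := by
    rw [← mul_pow]
    have h6 : e * ((s : ℝ) / K) * (c / (n : ℝ)) ≤ 16 * e * d * ((s : ℝ) / n) := by
      have h7 : e * ((s : ℝ) / K) * (c / (n : ℝ)) = c / K * (e * ((s : ℝ) / n)) := by
        field_simp
      have h8 : c / K ≤ 16 * d := by
        rw [div_le_iff₀ hK0]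
        exact hcK
      rw [h7]
      calc c / K * (e * ((s : ℝ) / n)) ≤ 16 * d * (e * ((s : ℝ) / n)) :=
            mul_le_mul_of_nonneg_right h8 (by positivity)
        _ = 16 * e * d * ((s : ℝ) / n) := by ring
    calc (e * ((s : ℝ) / K) * (c / (n : ℝ))) ^ m ≤ (16 * e * d * ((s : ℝ) / n)) ^ m :=
          pow_le_pow_left₀ (by positivity) h6 m
      _ ≤ (16 * e * d * ((s : ℝ) / n)) ^ (2 * s) := pow_le_pow_of_le_one hx0 hx1 h2sm
  have hsn1 : (s : ℝ) / n ≤ 1 := by
    have he1 : 1 ≤ e := by rw [he]; exact Real.one_le_exp (by norm_num)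
    have hd1 : (1 : ℝ) ≤ d := by
      have : 1 ≤ d := by omega
      exact_mod_cast this
    have h9 : (1 : ℝ) ≤ 16 * e * d := by nlinarith
    have h10 : 0 ≤ (s : ℝ) / n := by positivity
    nlinarith
  have hsq : (s : ℝ) / n ≤ Real.sqrt ((s : ℝ) / n) := by
    apply Real.le_sqrt_of_sq_le
    have h10 : 0 ≤ (s : ℝ) / n := by positivity
    nlinarith
  calc (n.choose s : ℝ) * ((s.choose 2).choose m : ℝ) * (c / (n : ℝ)) ^ m
      ≤ (e * ((n : ℝ) / (s : ℝ))) ^ s * (e * ((s : ℝ) / K)) ^ m * (c / (n : ℝ)) ^ m := by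
        gcongr
    _ = (e * ((n : ℝ) / (s : ℝ))) ^ s * ((e * ((s : ℝ) / K)) ^ m * (c / (n : ℝ)) ^ m) := by ring
    _ ≤ (e * ((n : ℝ) / (s : ℝ))) ^ s * (16 * e * d * ((s : ℝ) / n)) ^ (2 * s) := by
        apply mul_le_mul_of_nonneg_left h5 (by positivity)
    _ = (256 * e ^ 3 * (d : ℝ) ^ 2 * ((s : ℝ) / n)) ^ s := by
        rw [pow_mul, ← mul_pow]
        congr 1
        field_simp
        ring
    _ ≤ (256 * e ^ 3 * (d : ℝ) ^ 2 * Real.sqrt ((s : ℝ) / (n : ℝ))) ^ s := by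
        apply pow_le_pow_left₀ (by positivity)
        exact mul_le_mul_of_nonneg_left hsq (by positivity)

theorem mu_nonneg56 {X : Type} [Fintype X] (p : ℝ) (h0 : 0 ≤ p) (h1 : p ≤ 1)
    (Q : Finset X → Prop) : 0 ≤ mu p Q := by
  unfold mu
  refine Finset.sum_nonneg fun A _ => ?_
  split_ifs
  · unfold wt
    have : 0 ≤ 1 - p := by linarith
    positivity
  · exact le_refl _

theorem sps_part (hFM : S_FM) (hMON : S_MON) (hUNI : S_UNI) (hALL : S_ALL) (hMS : S_MS) :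
    S_SPS := by
  intro d hd
  have hd0 : (0 : ℝ) < d := by
    have : 0 < d := by omega
    exact_mod_cast this
  have hC : 0 < 256 * Real.exp 1 ^ 3 * (d : ℝ) ^ 2 := by positivity
  obtain ⟨ε, hε, hε1, hT⟩ := hMS (256 * Real.exp 1 ^ 3 * (d : ℝ) ^ 2)
    (1 / (16 * Real.exp 1 * (d : ℝ))) hC (by positivity)
  refine ⟨ε, hε, ?_⟩
  intro c K hc hcK hK
  have hn' : ∀ n : ℕ, ⌈c⌉₊ + 1 ≤ n → 0 < n ∧ (0 : ℝ) ≤ c / n ∧ c / (n : ℝ) ≤ 1 := by
    intro n hn
    have hn0 : 0 < n := by omega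
    have hn1 : (0 : ℝ) < n := by exact_mod_cast hn0
    have hcn : c ≤ n := by
      have h1 := Nat.le_ceil c
      have h2 : ((⌈c⌉₊ : ℕ) : ℝ) ≤ n := by
        have : ⌈c⌉₊ ≤ n := by omega
        exact_mod_cast this
      linarith
    exact ⟨hn0, by positivity, by rw [div_le_one hn1]; exact hcn⟩
  refine squeeze_zero' ?_ ?_ hT
  · filter_upwards [eventually_ge_atTop (⌈c⌉₊ + 1)] with n hn
    obtain ⟨hn0, hp0, hp1⟩ := hn' n hn
    exact mu_nonneg56 _ hp0 hp1 _
  · filter_upwards [eventually_ge_atTop (⌈c⌉₊ + 1)] with n hn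
    obtain ⟨hn0, hp0, hp1⟩ := hn' n hn
    have hn1 : (0 : ℝ) < n := by exact_mod_cast hn0
    calc mu (c / (n : ℝ)) (fun B : Finset (E n) =>
          ∃ T : Finset (Fin n), T.Nonempty ∧ (T.card : ℝ) ≤ ε * (n : ℝ) ∧ K * T.card ≤ 2 * eS B T)
        ≤ mu (c / (n : ℝ)) (fun A : Finset (E n) => ∃ s ∈ Finset.Icc 4 ⌊ε * (n : ℝ)⌋₊,
            (fun (s : ℕ) (A : Finset (E n)) => ∃ S : Finset (Fin n), S.card = s ∧
              (K * s + 1) / 2 ≤ eS A S) s A) := by
          apply hMON _ _ hp0 hp1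
          rintro A ⟨S, hne, hS, h3⟩
          have h1 : 1 ≤ S.card := hne.card_pos
          have h2 : eS A S ≤ S.card.choose 2 := by
            rw [← hALL n S]
            unfold eS inS
            exact Finset.card_le_card (Finset.filter_subset_filter _ (Finset.subset_univ A))
          have h4 : 4 ≤ S.card := by
            by_contra h5
            have h6 : 4 * S.card ≤ K * S.card := Nat.mul_le_mul_right _ hK
            have h7 : S.card = 1 ∨ S.card = 2 ∨ S.card = 3 := by omega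
            rcases h7 with h | h | h
            · rw [h] at h2 h6 h3
              simp at h2
              omega
            · rw [h] at h2 h6 h3
              simp at h2
              omega
            · rw [h] at h2 h6 h3
              have h8 : Nat.choose 3 2 = 3 := by decide
              omega
          refine ⟨S.card, Finset.mem_Icc.mpr ⟨h4, Nat.le_floor hS⟩, S, rfl, ?_⟩
          omega
      _ ≤ ∑ s ∈ Finset.Icc 4 ⌊ε * (n : ℝ)⌋₊, mu (c / (n : ℝ))
            ((fun (s : ℕ) (A : Finset (E n)) => ∃ S : Finset (Fin n), S.card = s ∧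
              (K * s + 1) / 2 ≤ eS A S) s) :=
          hUNI _ _ hp0 hp1 _ _ _
      _ ≤ _ := by
          refine Finset.sum_le_sum fun s hs => ?_
          obtain ⟨hs4, hsf⟩ := Finset.mem_Icc.mp hs
          have hsε : (s : ℝ) ≤ ε * n := by
            have := (Nat.le_floor_iff (by positivity)).mp hsf
            exact this
          refine (hFM n s ((K * s + 1) / 2) _ hp0 hp1).trans ?_
          apply term56 d hd c K hc hcK hK n s ((K * s + 1) / 2)
          · omega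
          · omega
          · have hpos : 0 < 16 * Real.exp 1 * (d : ℝ) := by positivity
            calc 16 * Real.exp 1 * (d : ℝ) * (s : ℝ)
                ≤ 16 * Real.exp 1 * (d : ℝ) * (ε * n) := mul_le_mul_of_nonneg_left hsε hpos.le
              _ ≤ 16 * Real.exp 1 * (d : ℝ) * (1 / (16 * Real.exp 1 * (d : ℝ)) * n) := by
                  apply mul_le_mul_of_nonneg_left _ hpos.le
                  exact mul_le_mul_of_nonneg_right hε1 hn1.le
              _ = n := by field_simp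
          · exact hn0

end Pool.Agent.H23.RG
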