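import Mathlib

/-! Crew RG (MP_264ef2_co): d-rigid components of G(n, c/n).  Interface: definitions and the
statements `S_...` of the parts. -/

set_option autoImplicit false
open Classical Filter

namespace Pool.Agent.H23.RG

/-- Probability of `Q` under `G(n,p)`. -/
noncomputable def P (n : ℕ) (p : ℝ) (Q : SimpleGraph (Fin n) → Prop) : ℝ :=
  ∑ G : SimpleGraph (Fin n),
    if Q G then p ^ G.edgeFinset.card * (1 - p) ^ (n.choose 2 - G.edgeFinset.card) else 0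

/-- Rigidity matrix of the subgraph of `G` induced on `S`, at the placement `q`. -/
noncomputable def RM (d : ℕ) {n : ℕ} (G : SimpleGraph (Fin n)) (S : Finset (Fin n))
    (q : Fin n → Fin d → ℝ) : Matrix (Fin n × Fin n) (Fin n × Fin d) ℝ :=
  Matrix.of (fun (e : Fin n × Fin n) (x : Fin n × Fin d) =>
    if e.1 ∈ S ∧ e.2 ∈ S ∧ G.Adj e.1 e.2 then
      (if x.1 = e.1 then q e.1 x.2 - q e.2 x.2
       else if x.1 = e.2 then q e.2 x.2 - q e.1 x.2 else 0)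
    else 0)

/-- `G[S]` is d-rigid. -/
def Rig (d : ℕ) {n : ℕ} (G : SimpleGraph (Fin n)) (S : Finset (Fin n)) : Prop :=
  (S.card ≤ d ∧ ∀ u ∈ S, ∀ v ∈ S, u ≠ v → G.Adj u v) ∨
  (d + 1 ≤ S.card ∧ ∃ q : Fin n → Fin d → ℝ,
    d * S.card - d * (d + 1) / 2 ≤ (RM d G S q).rank)

/-- `v` lies in the `((d+1)+d)`-core. -/
def Hat (d : ℕ) {n : ℕ} (G : SimpleGraph (Fin n)) (v : Fin n) : Prop :=
  ∀ T : Finset (Fin n),
    (∀ u : Fin n, (∃ S : Finset (Fin n), u ∈ S ∧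
      ∀ w ∈ S, d + 1 ≤ (S.filter (G.Adj w)).card) → u ∈ T) →
    (∀ w : Fin n, d ≤ (T.filter (G.Adj w)).card → w ∈ T) → v ∈ T

/-- weight of the set `A` in the p-biased product measure -/
noncomputable def wt {X : Type} [Fintype X] (p : ℝ) (A : Finset X) : ℝ :=
  p ^ A.card * (1 - p) ^ (Fintype.card X - A.card)

/-- p-biased product measure of the family `Q` -/
noncomputable def mu {X : Type} [Fintype X] (p : ℝ) (Q : Finset X → Prop) : ℝ :=
  ∑ A : Finset X, if Q A then wt p A else 0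

/-- the potential edges -/
abbrev E (n : ℕ) := {z : Fin n × Fin n // z.1 < z.2}

/-- the graph with edge set `A` -/
def gr {n : ℕ} (A : Finset (E n)) : SimpleGraph (Fin n) where
  Adj u v := (∃ h : u < v, (⟨(u, v), h⟩ : E n) ∈ A) ∨ (∃ h : v < u, (⟨(v, u), h⟩ : E n) ∈ A)
  symm := ⟨fun _ _ h => h.symm⟩
  loopless := ⟨fun u h => by
    rcases h with ⟨h, _⟩ | ⟨h, _⟩ <;> exact absurd h (lt_irrefl u)⟩

/-- the edges of `A` inside `S` -/
noncomputable def inS {n : ℕ} (A : Finset (E n)) (S : Finset (Fin n)) : Finset (E n) :=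
  A.filter (fun z => z.1.1 ∈ S ∧ z.1.2 ∈ S)

/-- the number of edges of `A` inside `S` -/
noncomputable def eS {n : ℕ} (A : Finset (E n)) (S : Finset (Fin n)) : ℕ := (inS A S).card

/-! ### measure -/

/-- TOT: total mass 1 (any real p) -/
def S_TOT : Prop := ∀ (X : Type) [Fintype X] (p : ℝ), mu (X := X) p (fun _ => True) = 1

/-- MON: monotonicity -/
def S_MON : Prop := ∀ (X : Type) [Fintype X] (p : ℝ), 0 ≤ p → p ≤ 1 →
  ∀ Q R : Finset X → Prop, (∀ A, Q A → R A) → mu p Q ≤ mu p R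

/-- NOT: complement -/
def S_NOT : Prop := ∀ (X : Type) [Fintype X] (p : ℝ) (Q : Finset X → Prop),
  mu p (fun A => ¬ Q A) = 1 - mu p Q

/-- UNI: union bound -/
def S_UNI : Prop := ∀ (X : Type) [Fintype X] (p : ℝ), 0 ≤ p → p ≤ 1 →
  ∀ (I : Type) (s : Finset I) (Q : I → Finset X → Prop),
    mu p (fun A => ∃ i ∈ s, Q i A) ≤ ∑ i ∈ s, mu p (Q i)

/-- SUB: probability of containing a fixed set -/
def S_SUB : Prop := ∀ (X : Type) [Fintype X] (p : ℝ) (F : Finset X),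
  mu p (fun A => F ⊆ A) = p ^ F.card

/-- SPR: sprinkling identity (product over the elements; any reals p, q) -/
def S_SPR : Prop := ∀ (X : Type) [Fintype X] (p q : ℝ) (Q : Finset X → Prop),
  mu (1 - (1 - p) * (1 - q)) Q = ∑ A : Finset X, wt p A * mu q (fun B => Q (A ∪ B))

/-- EXP: exponential moment -/
def S_EXP : Prop := ∀ (X : Type) [Fintype X] (q : ℝ) (Y : Finset X),
  ∑ B : Finset X, wt q B * (1 / 2 : ℝ) ^ (B ∩ Y).card = (1 - q / 2) ^ Y.card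

/-- TAIL: from EXP and Markov: `mu q (|B ∩ Y| ≤ K) ≤ 2^K (1 - q/2)^|Y| ≤ 2^K exp (-δ κ n / 2)` -/
def S_TAIL : Prop := ∀ (κ δ η : ℝ) (K : ℕ), 0 < κ → 0 < δ → 0 < η →
  ∃ N : ℕ, ∀ n : ℕ, N ≤ n → ∀ Y : Finset (E n), κ * (n : ℝ) ^ 2 ≤ (Y.card : ℝ) →
    ∀ q : ℝ, δ / (n : ℝ) ≤ q → q ≤ 1 → mu q (fun B : Finset (E n) => (B ∩ Y).card ≤ K) ≤ η

/-! ### graphs and edge sets -/

/-- TRN: `G(n,p)` is the product measure -/
def S_TRN : Prop := ∀ (n : ℕ) (p : ℝ) (Q : SimpleGraph (Fin n) → Prop),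
  P n p Q = mu p (fun A : Finset (E n) => Q (gr A))

/-- EDG: ordered adjacent pairs in `S` -/
def S_EDG : Prop := ∀ (n : ℕ) (A : Finset (E n)) (S : Finset (Fin n)),
  ((S ×ˢ S).filter (fun e => (gr A).Adj e.1 e.2)).card = 2 * eS A S

/-- ALL: number of pairs inside `S` -/
def S_ALL : Prop := ∀ (n : ℕ) (S : Finset (Fin n)),
  eS (Finset.univ : Finset (E n)) S = S.card.choose 2

/-- DEG: removing a vertex -/
def S_DEG : Prop := ∀ (n : ℕ) (A : Finset (E n)) (S : Finset (Fin n)), ∀ w ∈ S,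
  eS A S = eS A (S.erase w) + (S.filter ((gr A).Adj w)).card

/-- CPL: from ALL: if `S` has all its `|S| choose 2` edges then it is a clique, and conversely -/
def S_CPL : Prop := ∀ (n : ℕ) (A : Finset (E n)) (S : Finset (Fin n)),
  S.card.choose 2 ≤ eS A S ↔ ∀ u ∈ S, ∀ v ∈ S, u ≠ v → (gr A).Adj u v

/-- MIN: a minimal dense set has minimum degree at least `d+1` (from DEG) -/
def S_MIN : Prop := ∀ (d n : ℕ) (A : Finset (E n)),
  (∃ S : Finset (Fin n), d * S.card < eS A S) →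
  ∃ S : Finset (Fin n), d * S.card < eS A S ∧
    ∀ w ∈ S, d + 1 ≤ (S.filter ((gr A).Adj w)).card

/-! ### the rigidity matrix -/

/-- RNK: rank at most number of edges (rows (u,v) and (v,u) are equal) -/
def S_RNK : Prop := ∀ (d n : ℕ) (A : Finset (E n)) (S : Finset (Fin n))
  (q : Fin n → Fin d → ℝ), (RM d (gr A) S q).rank ≤ eS A S

/-- RMV: removing a vertex lowers the rank by at most its degree -/
def S_RMV : Prop := ∀ (d n : ℕ) (G : SimpleGraph (Fin n)) (S : Finset (Fin n))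
  (q : Fin n → Fin d → ℝ), ∀ v ∈ S,
  (RM d G S q).rank ≤ (RM d G (S.erase v) q).rank + (S.filter (G.Adj v)).card

/-- TRI: trivial motions.  If the vectors `q (u 1), ..., q (u d)` (u i distinct, in S) are linearly
independent, then the kernel contains the motions supported outside `S` (dimension d (n - |S|))
and the trivial motions `x (i, ·) = M q_i + b`, M skew (dimension d (d+1) / 2), independently. -/
def S_TRI : Prop := ∀ (d n : ℕ) (G : SimpleGraph (Fin n)) (S : Finset (Fin n))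
  (q : Fin n → Fin d → ℝ) (u : Fin d → Fin n), Function.Injective u → (∀ i, u i ∈ S) →
  LinearIndependent ℝ (fun i => q (u i)) →
  (RM d G S q).rank + d * (d + 1) / 2 ≤ d * S.card

/-- PRT: perturbation.  Rows independent at `q` stay so at `q + t e`, `t` small (e (u i) = e_i), and
`det (Q + t I) ≠ 0` for all but finitely many `t`. -/
def S_PRT : Prop := ∀ (d n : ℕ) (G : SimpleGraph (Fin n)) (S : Finset (Fin n))
  (q : Fin n → Fin d → ℝ) (u : Fin d → Fin n), Function.Injective u →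
  ∃ q' : Fin n → Fin d → ℝ, LinearIndependent ℝ (fun i => q' (u i)) ∧
    (RM d G S q).rank ≤ (RM d G S q').rank

/-- TRV: from TRI and PRT -/
def S_TRV : Prop := ∀ (d n : ℕ) (G : SimpleGraph (Fin n)) (S : Finset (Fin n))
  (q : Fin n → Fin d → ℝ), d ≤ S.card → (RM d G S q).rank + d * (d + 1) / 2 ≤ d * S.card

/-- RGE: edges of rigid sets (from RNK, CPL) -/
def S_RGE : Prop := ∀ (d n : ℕ), 2 ≤ d → ∀ (A : Finset (E n)) (S : Finset (Fin n)),
  Rig d (gr A) S → 4 ≤ S.card →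
  S.card + 1 ≤ eS A S ∧ (d * (d + 1) ≤ S.card → 3 * S.card ≤ 2 * eS A S) ∧
    (d + 1 ≤ S.card → d * S.card ≤ eS A S + d * (d + 1) / 2)

/-- RGD: degrees in rigid sets (from RMV, TRV) -/
def S_RGD : Prop := ∀ (d n : ℕ) (G : SimpleGraph (Fin n)) (S : Finset (Fin n)),
  Rig d G S → d + 1 ≤ S.card → ∀ v ∈ S, d ≤ (S.filter (G.Adj v)).card

/-- RGR: removing a vertex of degree at most d (from RMV) -/
def S_RGR : Prop := ∀ (d n : ℕ) (G : SimpleGraph (Fin n)) (S : Finset (Fin n)),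
  Rig d G S → d + 2 ≤ S.card → ∀ v ∈ S, (S.filter (G.Adj v)).card ≤ d → Rig d G (S.erase v)

/-- PEEL: if there are no rigid sets of sizes in `[4, M)` then all rigid sets with more than 3
vertices are in the hat core (from RGD, RGR; induction on |S|) -/
def S_PEEL : Prop := ∀ (d n M : ℕ) (G : SimpleGraph (Fin n)), d + 2 ≤ M → 5 ≤ M →
  (∀ S : Finset (Fin n), Rig d G S → S.card ≤ 3 ∨ M ≤ S.card) →
  ∀ S : Finset (Fin n), Rig d G S → 4 ≤ S.card → ∀ v ∈ S, Hat d G v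

/-! ### first moments -/

/-- FM: first moment (from UNI, SUB, ALL, MON) -/
def S_FM : Prop := ∀ (n s m : ℕ) (p : ℝ), 0 ≤ p → p ≤ 1 →
  mu p (fun A : Finset (E n) => ∃ S : Finset (Fin n), S.card = s ∧ m ≤ eS A S) ≤
    (n.choose s : ℝ) * ((s.choose 2).choose m : ℝ) * p ^ m

/-- SM: fixed size (from FM): `n^s * const * (c/n)^(s+1) → 0` -/
def S_SM : Prop := ∀ (c : ℝ) (s : ℕ), 0 < c →
  Tendsto (fun n : ℕ => mu (c / (n : ℝ)) (fun A : Finset (E n) =>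
    ∃ S : Finset (Fin n), S.card = s ∧ s + 1 ≤ eS A S)) atTop (nhds 0)

/-- MT: term bound. `C(n,s) ≤ (e n / s)^s`, `C(C(s,2),m) ≤ (e s / 3)^m`
(as `C(s,2) ≤ s^2/2`, `m ≥ 3 s / 2`), so the product is at most `(e n / s)^s (e c s / (3 n))^m ≤
(e n / s * (e c s / (3 n))^(3/2))^s` when `e c s / (3 n) ≤ 1`. -/
def S_MT : Prop := ∀ c : ℝ, 0 < c → ∃ C : ℝ, 0 < C ∧ ∀ n s m : ℕ, 1 ≤ s → s ≤ n →
  3 * s ≤ 2 * m → 2 * m ≤ 3 * s + 1 → C * (s : ℝ) ≤ (n : ℝ) →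
  (n.choose s : ℝ) * ((s.choose 2).choose m : ℝ) * (c / (n : ℝ)) ^ m ≤
    (C * Real.sqrt ((s : ℝ) / (n : ℝ))) ^ s

/-- MS: the sum of the bounds.  `s ≤ √n`: `(C n^(-1/4))^s`; `s > √n`: `2^(-s)` if `C √ε ≤ 1/2`. -/
def S_MS : Prop := ∀ C ε₁ : ℝ, 0 < C → 0 < ε₁ → ∃ ε : ℝ, 0 < ε ∧ ε ≤ ε₁ ∧
  Tendsto (fun n : ℕ => ∑ s ∈ Finset.Icc 4 ⌊ε * (n : ℝ)⌋₊,
    (C * Real.sqrt ((s : ℝ) / (n : ℝ))) ^ s) atTop (nhds 0)

/-- MID: from FM, UNI, MT, MS (m = ⌈3 s / 2⌉) -/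
def S_MID : Prop := ∀ c : ℝ, 0 < c → ∃ ε : ℝ, 0 < ε ∧
  Tendsto (fun n : ℕ => mu (c / (n : ℝ)) (fun A : Finset (E n) =>
    ∃ S : Finset (Fin n), 4 ≤ S.card ∧ (S.card : ℝ) ≤ ε * (n : ℝ) ∧
      3 * S.card ≤ 2 * eS A S)) atTop (nhds 0)

/-- DIC: no rigid sets with between 4 and εn vertices (from MID, SM, RGE) -/
def S_DIC : Prop := ∀ (d : ℕ) (c : ℝ), 2 ≤ d → 0 < c → ∃ ε : ℝ, 0 < ε ∧
  Tendsto (fun n : ℕ => mu (c / (n : ℝ)) (fun A : Finset (E n) =>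
    ∃ S : Finset (Fin n), Rig d (gr A) S ∧ 4 ≤ S.card ∧ (S.card : ℝ) ≤ ε * (n : ℝ)))
    atTop (nhds 0)

/-- CON: a.a.s. all rigid sets with more than 3 vertices are in the hat core (DIC, PEEL) -/
def S_CON : Prop := ∀ (d : ℕ) (c : ℝ), 2 ≤ d → 0 < c →
  Tendsto (fun n : ℕ => mu (c / (n : ℝ)) (fun A : Finset (E n) =>
    ∃ S : Finset (Fin n), Rig d (gr A) S ∧ 4 ≤ S.card ∧ ¬ (∀ v ∈ S, Hat d (gr A) v)))
    atTop (nhds 0)

/-- GIA: the hat core is large when dense sets exist (MIN, MID) -/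
def S_GIA : Prop := ∀ (d : ℕ) (c : ℝ), 2 ≤ d → 0 < c →
  Tendsto (fun n : ℕ => mu (c / (n : ℝ)) (fun A : Finset (E n) =>
    ∃ S : Finset (Fin n), d * S.card < eS A S)) atTop (nhds 1) →
  ∃ ε : ℝ, 0 < ε ∧ Tendsto (fun n : ℕ => mu (c / (n : ℝ)) (fun A : Finset (E n) =>
    ε * (n : ℝ) ≤ ((Finset.univ.filter (Hat d (gr A))).card : ℝ))) atTop (nhds 1)

/-- LRG: no large rigid sets below the threshold.  With p = c/n, r = c'/n, q = (r-p)/(1-p) ≥ (c'-c)/n: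
if `A` has a rigid `S`, |S| ≥ εn, then `e_A(S) ≥ d |S| - d (d+1) / 2`; if also `e_A(S) ≤ d |S|` there
are ≥ ε² n² / 4 non-edges inside S, so a q-random `B` has more than `d (d+1) / 2` of them with
probability ≥ 1/2 (TAIL), and then `e_(A ∪ B)(S) > d |S|`.  So (SPR)
`mu p (∃ rigid S large) ≤ 2 mu r (∃ S, d |S| < e(S))` for n large.  From SPR, TAIL, RGE, ALL, NOT. -/
def S_LRG : Prop := ∀ (d : ℕ) (c c' ε : ℝ), 2 ≤ d → 0 < c → c < c' → 0 < ε →
  Tendsto (fun n : ℕ => mu (c' / (n : ℝ)) (fun A : Finset (E n) =>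
    ∃ S : Finset (Fin n), d * S.card < eS A S)) atTop (nhds 0) →
  Tendsto (fun n : ℕ => mu (c / (n : ℝ)) (fun A : Finset (E n) =>
    ∃ S : Finset (Fin n), Rig d (gr A) S ∧ ε * (n : ℝ) ≤ (S.card : ℝ))) atTop (nhds 0)

/-- LR1: the deterministic part of LRG (from RGE, ALL): Y = the pairs inside S that are not in A -/
def S_LR1 : Prop := ∀ (d n : ℕ) (ε : ℝ) (A : Finset (E n)) (S : Finset (Fin n)), 2 ≤ d → 0 < ε →
  Rig d (gr A) S → ε * (n : ℝ) ≤ (S.card : ℝ) → 4 * d + 4 ≤ S.card →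
  d * S.card < eS A S ∨
  ∃ Y : Finset (E n), ε ^ 2 / 4 * (n : ℝ) ^ 2 ≤ (Y.card : ℝ) ∧
    ∀ B : Finset (E n), d * (d + 1) / 2 < (B ∩ Y).card → d * S.card < eS (A ∪ B) S

end Pool.Agent.H23.RG
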