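import Pool.Agent.H23.RG.Stm

/-! Crew RG, second stage (MP_264ef2_co): part (b) for all large c.  Statements of the parts. -/

set_option autoImplicit false
open Classical Filter

namespace Pool.Agent.H23.RG

/-- cut-connectedness of the (symmetric) relation `H` on `B` -/
def CutConn {n : ℕ} (H : Fin n → Fin n → Prop) (B : Finset (Fin n)) : Prop :=
  ∀ T : Finset (Fin n), T ⊆ B → T.Nonempty → (∀ u ∈ T, ∀ v ∈ B, H u v → v ∈ T) → T = B

/-- the limit matrix for the colouring `col`: edge direction `e_i` inside colour `i`, `e_i - e_j`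
between colours `i` and `j` -/
noncomputable def LM (d : ℕ) {n : ℕ} (G : SimpleGraph (Fin n)) (A : Finset (Fin n))
    (col : Fin n → Fin d) : Matrix (Fin n × Fin n) (Fin n × Fin d) ℝ :=
  Matrix.of (fun (e : Fin n × Fin n) (x : Fin n × Fin d) =>
    if e.1 ∈ A ∧ e.2 ∈ A ∧ G.Adj e.1 e.2 then
      ((if x.1 = e.1 then (1 : ℝ) else if x.1 = e.2 then -1 else 0) *
        (if col e.1 = col e.2 then (if x.2 = col e.1 then (1 : ℝ) else 0)
         else ((if x.2 = col e.1 then (1 : ℝ) else 0) - (if x.2 = col e.2 then (1 : ℝ) else 0))))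
    else 0)

/-- `A` with the colouring `col` is a strong rigid partition -/
def Strong (d : ℕ) {n : ℕ} (G : SimpleGraph (Fin n)) (A : Finset (Fin n)) (col : Fin n → Fin d) :
    Prop :=
  (∀ i, ∃ v ∈ A, col v = i) ∧
  (∀ i, CutConn G.Adj (A.filter (fun v => col v = i))) ∧
  (∀ i j, i ≠ j → CutConn (fun u v => G.Adj u v ∧ col u ≠ col v)
    (A.filter (fun v => col v = i ∨ col v = j)))

/-- SRK: kernel of the limit matrix.  A kernel vector y (restricted to A): the i-th coordinate is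
constant =: a_i on A_i (connected); `(y u)_i - (y u)_j` is constant on A_i ∪ A_j; so y u depends only
on col u and the a_i and c_ij (i<j) determine everything on A: the kernel has dimension at most
`d (n - |A|) + d (d+1) / 2`. -/
def S_SRK : Prop := ∀ (d n : ℕ) (G : SimpleGraph (Fin n)) (A : Finset (Fin n))
  (col : Fin n → Fin d), Strong d G A col → d * A.card ≤ (LM d G A col).rank + d * (d + 1) / 2

/-- SRL: limit.  `q_t v = (1 + t (v+1)) e_(col v)`; rows of RM at q_t, those inside a colour divided by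
`t (u - v)`, converge to those of LM; independent rows stay independent
(isOpen_setOf_linearIndependent). -/
def S_SRL : Prop := ∀ (d n : ℕ) (G : SimpleGraph (Fin n)) (A : Finset (Fin n))
  (col : Fin n → Fin d), ∃ q : Fin n → Fin d → ℝ, (LM d G A col).rank ≤ (RM d G A q).rank

/-- PRG: general position.  q' = q + t * moment curve (x, x^2, ..., x^d), x = v + 1; for each injective
u the determinant of (1, q'(u i)) is a polynomial in t with nonzero leading coefficient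
(Vandermonde), so only finitely many t are bad; rows independent at q stay so for small t. -/
def S_PRG : Prop := ∀ (d n : ℕ) (G : SimpleGraph (Fin n)) (S : Finset (Fin n))
  (q : Fin n → Fin d → ℝ), ∃ q' : Fin n → Fin d → ℝ,
    (∀ u : Fin (d + 1) → Fin n, Function.Injective u →
      AffineIndependent ℝ (fun i => q' (u i))) ∧
    (RM d G S q).rank ≤ (RM d G S q').rank

/-- BLK: if the flexes vanishing outside T are 0 then T adds d |T| to the rank: ker RM(A) contains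
ker RM(A ∪ T) and the vectors supported on T, which meet in 0. -/
def S_BLK : Prop := ∀ (d n : ℕ) (G : SimpleGraph (Fin n)) (A T : Finset (Fin n))
  (q : Fin n → Fin d → ℝ), Disjoint A T →
  (∀ y : Fin n → Fin d → ℝ, (∀ v, v ∉ T → y v = 0) →
    (∀ u ∈ A ∪ T, ∀ v ∈ A ∪ T, G.Adj u v →
      ∑ k, (q u k - q v k) * (y u k - y v k) = 0) → y = 0) →
  (RM d G A q).rank + d * T.card ≤ (RM d G (A ∪ T) q).rank

/-- EX1: adding a vertex with d neighbours (from PRG with the d neighbours and v, BLK) -/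
def S_EX1 : Prop := ∀ (d n : ℕ) (G : SimpleGraph (Fin n)) (A : Finset (Fin n)) (v : Fin n),
  Rig d G A → d + 1 ≤ A.card → v ∉ A → d ≤ (A.filter (G.Adj v)).card → Rig d G (insert v A)

/-- PLC: special placement.  q in general position; choose `a ∈ N r`, `a ∉ N r'`, and put
`q'' r' = q r + s (q a - q r)`, s ≠ 1 near 1.  For (u,w) with u,w ≠ r' general position; u = r': true at
s = 1, hence near it; w = r', u ≠ r: the line from q r to q a is not in the hyperplane of (q u, N u),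
as q r is not, so at most one s is bad. -/
def S_PLC : Prop := ∀ (d n : ℕ) (q : Fin n → Fin d → ℝ) (R : Finset (Fin n))
  (N : Fin n → Finset (Fin n)) (r r' : Fin n), 2 ≤ d →
  (∀ u : Fin (d + 1) → Fin n, Function.Injective u → AffineIndependent ℝ (fun i => q (u i))) →
  (∀ u ∈ R, Disjoint (N u) R ∧ (N u).card = d - 1) → r ∈ R → r' ∈ R → r ≠ r' → N r ≠ N r' →
  ∃ q' : Fin n → Fin d → ℝ, (∀ v, v ≠ r' → q' v = q v) ∧
    (∀ u ∈ R, ∀ w ∈ R, u ≠ w → ¬ (u = r ∧ w = r') → ∀ y : Fin d → ℝ,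
      (∀ a ∈ N u, ∑ k, (q' u k - q' a k) * y k = 0) →
      ∑ k, (q' u k - q' w k) * y k = 0 → y = 0) ∧
    (∀ y : Fin d → ℝ, (∀ a ∈ N r, ∑ k, (q' r k - q' a k) * y k = 0) →
      ∑ k, (q' r k - q' r' k) * y k = 0)

/-- PAR: parity: Z would have exactly one edge leaving it inside the 2-regular graph on T:
`2 |Z| = 2 e(Z) + 1` -/
def S_PAR : Prop := ∀ (n : ℕ) (G : SimpleGraph (Fin n)) (T Z : Finset (Fin n)) (r r' : Fin n),
  (∀ u ∈ T, (T.filter (G.Adj u)).card = 2) → Z ⊆ T → r' ∈ Z → r ∈ T → r ∉ Z → G.Adj r r' →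
  (∀ u ∈ Z, ∀ w ∈ T, G.Adj u w → w ∈ Z ∨ (w = r ∧ u = r')) → False

/-- CYC: adding a cycle.  T := smallest subset of R containing r and closed under adjacency in R.
By PRG, PLC (N u = A.filter (G.Adj u)) and BLK it is enough that a flex y supported on T is 0: by the
third property of PLC and the second for (r', r), y r' = 0; Z = {u ∈ T | y u = 0} satisfies the
hypotheses of PAR if r ∉ Z; so r ∈ Z and Z is closed, Z = T. -/
def S_CYC : Prop := ∀ (d n : ℕ) (G : SimpleGraph (Fin n)) (A R : Finset (Fin n)) (r r' : Fin n),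
  2 ≤ d → Rig d G A → d + 1 ≤ A.card → Disjoint A R →
  (∀ u ∈ R, (R.filter (G.Adj u)).card = 2) → (∀ u ∈ R, (A.filter (G.Adj u)).card = d - 1) →
  r ∈ R → r' ∈ R → G.Adj r r' → A.filter (G.Adj r) ≠ A.filter (G.Adj r') →
  ∃ T : Finset (Fin n), T ⊆ R ∧ T.Nonempty ∧ Rig d G (A ∪ T)

/-- CLO: closure of T in W under adjacency (add the vertices one by one; induction on |W \ T|) -/
def S_CLO : Prop := ∀ (n : ℕ) (A : Finset (E n)) (T W : Finset (Fin n)), T ⊆ W →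
  ∃ S : Finset (Fin n), T ⊆ S ∧ S ⊆ W ∧ (∀ u ∈ S, ∀ v ∈ W, (gr A).Adj u v → v ∈ S) ∧
    eS A T + S.card ≤ eS A S + T.card

/-- every vertex of `S` has fewer than `d` neighbours outside `S` -/
def FewOut (d : ℕ) {n : ℕ} (G : SimpleGraph (Fin n)) (S : Finset (Fin n)) : Prop :=
  ∀ u ∈ S, ((Finset.univ \ S).filter (G.Adj u)).card + 1 ≤ d

/-- END: deterministic end.  A a rigid component, W = complement, C = (d+1)-core, R = C \ A.
All w ∉ A have fewer than d neighbours in A (EX1).  If R ≠ ∅: vertices of R have ≥ 2 neighbours in R, so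
e(R) ≥ |R|; for T ⊆ W the closure S (CLO) satisfies FewOut, so e(T) ≤ |T| by h1, and |R| ≤ |S| < m by
h2; so R is 2-regular and every r ∈ R has exactly d-1 neighbours in A.  If adjacent r, r' ∈ R have
different neighbourhoods in A: CYC contradicts maximality.  Otherwise T = {r ∈ R with the same
neighbourhood N in A as r0} is closed in R, so 2-regular, |T| ≥ 3, e(T ∪ N) ≥ d |T|, contradiction to h3.
So C ⊆ A, and A is closed under adding vertices with d neighbours, so Hat ⊆ A. -/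
def S_END : Prop := ∀ (d n m : ℕ) (B : Finset (E n)) (A : Finset (Fin n)), 2 ≤ d →
  Rig d (gr B) A → (∀ T : Finset (Fin n), A ⊆ T → Rig d (gr B) T → T = A) →
  d + 1 ≤ A.card → 2 * (n - A.card) ≤ n →
  (∀ S : Finset (Fin n), S.Nonempty → 2 * S.card ≤ n → FewOut d (gr B) S → eS B S ≤ S.card) →
  (∀ S : Finset (Fin n), m ≤ S.card → 2 * S.card ≤ n → FewOut d (gr B) S → eS B S < S.card) →
  (∀ S : Finset (Fin n), 4 ≤ S.card → S.card ≤ m + d → 2 * eS B S < 3 * S.card) →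
  ∀ v, Hat d (gr B) v → v ∈ A

/-- CH2: exponential Markov bound together with containing F (weights factor over F and its
complement; as EXP) -/
def S_CH2 : Prop := ∀ (X : Type) [Fintype X] (p : ℝ) (F Y : Finset X) (k : ℕ), 0 ≤ p → p ≤ 1 →
  Disjoint F Y → mu p (fun B => F ⊆ B ∧ (B ∩ Y).card ≤ k) ≤
    p ^ F.card * 2 ^ k * (1 - p / 2) ^ Y.card

/-- LFM: union bound over S and the m-subsets F of the pairs inside S (FewOut implies that at most
(d-1) |S| of the |S| (n-|S|) pairs between S and its complement are present; CH2) -/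
def S_LFM : Prop := ∀ (d n s m : ℕ) (p : ℝ), 1 ≤ d → 0 ≤ p → p ≤ 1 →
  mu p (fun B : Finset (E n) => ∃ S : Finset (Fin n), S.card = s ∧ m ≤ eS B S ∧
    FewOut d (gr B) S) ≤
  (n.choose s : ℝ) * ((s.choose 2).choose m : ℝ) * p ^ m * 2 ^ (d * s) *
    (1 - p / 2) ^ (s * (n - s))

/-- LFA: from LFM with m = s + 1 and UNI: for 2s ≤ n the term is at most
`(e n/s)^s (e s/2)^(s+1) (c/n)^(s+1) (2^d e^(-c/4))^s ≤ (e c s / n) (e^2 c 2^d e^(-c/4))^s`; sum → 0 -/
def S_LFA : Prop := ∀ d : ℕ, 2 ≤ d → ∃ c₀ : ℝ, 0 < c₀ ∧ ∀ c : ℝ, c₀ ≤ c →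
  Tendsto (fun n : ℕ => mu (c / (n : ℝ)) (fun B : Finset (E n) =>
    ∃ S : Finset (Fin n), S.Nonempty ∧ 2 * S.card ≤ n ∧ FewOut d (gr B) S ∧ S.card < eS B S))
    atTop (nhds 0)

/-- LFB: the same with m = s, s ≥ εn: terms `(e^2 c 2^d e^(-c/4))^s ≤ 2^(-s)` -/
def S_LFB : Prop := ∀ d : ℕ, 2 ≤ d → ∃ c₀ : ℝ, 0 < c₀ ∧ ∀ c ε : ℝ, c₀ ≤ c → 0 < ε →
  Tendsto (fun n : ℕ => mu (c / (n : ℝ)) (fun B : Finset (E n) =>
    ∃ S : Finset (Fin n), ε * (n : ℝ) ≤ (S.card : ℝ) ∧ 2 * S.card ≤ n ∧ FewOut d (gr B) S ∧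
      S.card ≤ eS B S)) atTop (nhds 0)

/-- colour classes modulo d -/
def colr (d : ℕ) {n : ℕ} (v : Fin n) (j : Fin d) : Prop := v.1 % d = j.1

/-- COR: union over U (|U| = m ≈ ηn) and j : U → Fin d; then fewer than K m of at least `m n / (2 d)`
pairs are present (CH2 with F = ∅): `((e d/η) 2^K e^(-c/(4d)))^m`, `2^K ≤ e^(0.09 c/d)`. -/
def S_COR : Prop := ∀ (d : ℕ) (η : ℝ), 2 ≤ d → 0 < η → 4 * (d : ℝ) * η ≤ 1 →
  ∃ c₀ : ℝ, 0 < c₀ ∧ ∀ (c : ℝ) (K : ℕ), c₀ ≤ c → 8 * (d : ℝ) * K ≤ c →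
  Tendsto (fun n : ℕ => mu (c / (n : ℝ)) (fun B : Finset (E n) =>
    ∃ U : Finset (Fin n), U.card = ⌈η * (n : ℝ)⌉₊ ∧ ∀ u ∈ U, ∃ j : Fin d,
      ((Finset.univ \ U).filter (fun v => colr d v j ∧ (gr B).Adj u v)).card < K))
    atTop (nhds 0)

/-- SPS: small sets are sparse (FM with m = ⌈K s / 2⌉ ≥ 2 s): the term is at most
`(e n/s)^s (16 e d s/n)^(2s) = (256 e^3 d^2 s/n)^s`. -/
def S_SPS : Prop := ∀ d : ℕ, 2 ≤ d → ∃ γ : ℝ, 0 < γ ∧ ∀ (c : ℝ) (K : ℕ), 0 < c →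
  c ≤ 16 * (d : ℝ) * K → 4 ≤ K →
  Tendsto (fun n : ℕ => mu (c / (n : ℝ)) (fun B : Finset (E n) =>
    ∃ T : Finset (Fin n), T.Nonempty ∧ (T.card : ℝ) ≤ γ * (n : ℝ) ∧ K * T.card ≤ 2 * eS B T))
    atTop (nhds 0)

/-- BIP: `4^n (e |T| c / (K n))^(K |S|) ≤ 4^n (16 e d γ')^(K γ n)` -/
def S_BIP : Prop := ∀ (d : ℕ) (γ : ℝ), 2 ≤ d → 0 < γ → ∃ γ' c₀ : ℝ, 0 < γ' ∧ 0 < c₀ ∧
  ∀ (c : ℝ) (K : ℕ), c₀ ≤ c → c ≤ 16 * (d : ℝ) * K →
  Tendsto (fun n : ℕ => mu (c / (n : ℝ)) (fun B : Finset (E n) =>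
    ∃ T S : Finset (Fin n), Disjoint T S ∧ (T.card : ℝ) ≤ γ' * (n : ℝ) ∧
      γ * (n : ℝ) ≤ (S.card : ℝ) ∧ ∀ v ∈ S, K ≤ (T.filter ((gr B).Adj v)).card))
    atTop (nhds 0)

/-- DJC: `4^n (1 - c/n)^(γ^2 n^2)` -/
def S_DJC : Prop := ∀ γ : ℝ, 0 < γ → ∃ c₀ : ℝ, 0 < c₀ ∧ ∀ c : ℝ, c₀ ≤ c →
  Tendsto (fun n : ℕ => mu (c / (n : ℝ)) (fun B : Finset (E n) =>
    ∃ T S : Finset (Fin n), Disjoint T S ∧ γ * (n : ℝ) ≤ (T.card : ℝ) ∧
      γ * (n : ℝ) ≤ (S.card : ℝ) ∧ ∀ u ∈ T, ∀ v ∈ S, ¬ (gr B).Adj u v)) atTop (nhds 0)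

/-- PEL: peeling (remove a vertex with fewer than K neighbours in some colour class of the current set
as long as possible; U = the first m removed vertices) -/
def S_PEL : Prop := ∀ (d n K : ℕ) (G : SimpleGraph (Fin n)), ∃ A : Finset (Fin n),
  (∀ v ∈ A, ∀ j : Fin d, K ≤ (A.filter (fun w => colr d w j ∧ G.Adj v w)).card) ∧
  ∀ m : ℕ, m + A.card ≤ n → ∃ U : Finset (Fin n), U.card = m ∧ ∀ u ∈ U, ∃ j : Fin d,
    ((Finset.univ \ U).filter (fun v => colr d v j ∧ G.Adj u v)).card < K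

/-- CCN: deterministic: minimum degree K to all colour classes and the negations of the events of SPS
(γ), BIP (γ/2, γ'), DJC (δ ≤ γ/2, γ') give a strong rigid partition.  T closed and proper, T' its
complement: inside a colour both have more than γn vertices by h1, contradiction to h3; between
colours i, j: |T| > γn, so one side of T, and then by h2 both sides have more than δ n vertices; the same
for T'; h3 for T_i and T'_j. -/
def S_CCN : Prop := ∀ (d n K : ℕ) (γ γ' δ : ℝ) (B : Finset (E n)) (A : Finset (Fin n))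
  (col : Fin n → Fin d), 2 ≤ d → 1 ≤ K → 0 < γ → 0 < γ' → 0 < δ → δ ≤ γ / 2 → δ ≤ γ' →
  (∀ v, colr d v (col v)) → A.Nonempty →
  (∀ v ∈ A, ∀ j : Fin d, K ≤ (A.filter (fun w => colr d w j ∧ (gr B).Adj v w)).card) →
  (∀ T : Finset (Fin n), T.Nonempty → (T.card : ℝ) ≤ γ * (n : ℝ) → 2 * eS B T < K * T.card) →
  (∀ T S : Finset (Fin n), Disjoint T S → (T.card : ℝ) ≤ γ' * (n : ℝ) →
    γ / 2 * (n : ℝ) ≤ (S.card : ℝ) → ∃ v ∈ S, (T.filter ((gr B).Adj v)).card < K) →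
  (∀ T S : Finset (Fin n), Disjoint T S → δ * (n : ℝ) ≤ (T.card : ℝ) →
    δ * (n : ℝ) ≤ (S.card : ℝ) → ∃ u ∈ T, ∃ v ∈ S, (gr B).Adj u v) →
  Strong d (gr B) A col

/-- BIG: from PEL, CCN, COR, SPS, BIP, DJC, SRK, SRL: a rigid set with (1-η) n vertices -/
def S_BIG : Prop := ∀ (d : ℕ) (η : ℝ), 2 ≤ d → 0 < η → ∃ c₀ : ℝ, 0 < c₀ ∧ ∀ c : ℝ, c₀ ≤ c →
  Tendsto (fun n : ℕ => mu (c / (n : ℝ)) (fun B : Finset (E n) =>
    ¬ ∃ A : Finset (Fin n), Rig d (gr B) A ∧ (1 - η) * (n : ℝ) ≤ (A.card : ℝ))) atTop (nhds 0)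

/-- HIN: a.a.s. the hat core is rigid, for c large (from BIG with η = 1/4, END, LFA, LFB, MID, CON) -/
def S_HIN : Prop := ∀ d : ℕ, 2 ≤ d → ∃ c₀ : ℝ, 0 < c₀ ∧ ∀ c : ℝ, c₀ ≤ c →
  Tendsto (fun n : ℕ => mu (c / (n : ℝ)) (fun B : Finset (E n) =>
    ¬ Rig d (gr B) (Finset.univ.filter (Hat d (gr B))))) atTop (nhds 0)

end Pool.Agent.H23.RG
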