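import Pool.Agent.H23.RG.Stm

/-! Crew RG, part TRN (helper10): `G(n,p)` is the product measure on the edge sets. -/

set_option autoImplicit false

namespace Pool.Agent.H23.RG

theorem gr_adj_lt {n : ℕ} (A : Finset (E n)) (z : E n) :
    (gr A).Adj z.1.1 z.1.2 ↔ z ∈ A := by
  constructor
  · rintro (⟨_, h⟩ | ⟨h, _⟩)
    · exact h
    · exact absurd h (not_lt.2 z.2.le)
  · intro h
    exact Or.inl ⟨z.2, h⟩

theorem gr_bij (n : ℕ) : Function.Bijective (gr : Finset (E n) → SimpleGraph (Fin n)) := by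
  classical
  constructor
  · intro A B h
    ext z
    rw [← gr_adj_lt, ← gr_adj_lt, h]
  · intro G
    refine ⟨Finset.univ.filter (fun z : E n => G.Adj z.1.1 z.1.2), ?_⟩
    ext u v
    constructor
    · rintro (⟨_, h⟩ | ⟨_, h⟩)
      · exact (Finset.mem_filter.1 h).2
      · exact (Finset.mem_filter.1 h).2.symm
    · intro h
      rcases lt_trichotomy u v with h1 | h1 | h1
      · exact Or.inl ⟨h1, Finset.mem_filter.2 ⟨Finset.mem_univ _, h⟩⟩
      · exact absurd (h1 ▸ h) (G.loopless.irrefl _)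
      · exact Or.inr ⟨h1, Finset.mem_filter.2 ⟨Finset.mem_univ _, h.symm⟩⟩

theorem gr_card {n : ℕ} (A : Finset (E n)) [Fintype (gr A).edgeSet] :
    (gr A).edgeFinset.card = A.card := by
  classical
  symm
  refine Finset.card_bij (fun z _ => s(z.1.1, z.1.2)) ?_ ?_ ?_
  · intro z hz
    rw [SimpleGraph.mem_edgeFinset, SimpleGraph.mem_edgeSet]
    exact (gr_adj_lt A z).2 hz
  · intro z _ w _ h
    rcases Sym2.eq_iff.1 h with ⟨h1, h2⟩ | ⟨h1, h2⟩
    · exact Subtype.ext (Prod.ext h1 h2)
    · exfalso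
      have h3 := z.2
      have h4 := w.2
      rw [h1, h2] at h3
      exact absurd h3 (not_lt.2 h4.le)
  · intro e
    refine Sym2.ind (fun u v => ?_) e
    intro he
    rw [SimpleGraph.mem_edgeFinset, SimpleGraph.mem_edgeSet] at he
    rcases he with ⟨h, h1⟩ | ⟨h, h1⟩
    · exact ⟨_, h1, rfl⟩
    · exact ⟨_, h1, Sym2.eq_swap⟩

theorem card_E (n : ℕ) : Fintype.card (E n) = n.choose 2 := by
  classical
  have h1 : gr (Finset.univ : Finset (E n)) = ⊤ := by
    ext u v
    rw [SimpleGraph.top_adj]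
    constructor
    · intro h; exact h.ne
    · intro h
      rcases lt_or_gt_of_ne h with h1 | h1
      · exact Or.inl ⟨h1, Finset.mem_univ _⟩
      · exact Or.inr ⟨h1, Finset.mem_univ _⟩
  have h2 := gr_card (Finset.univ : Finset (E n))
  rw [Finset.card_univ] at h2
  rw [← h2]
  have h3 := SimpleGraph.card_edgeFinset_top_eq_card_choose_two (V := Fin n)
  rw [Fintype.card_fin] at h3
  rw [← h3]
  congr 1
  ext e
  simp only [SimpleGraph.mem_edgeFinset, h1]

theorem t_TRN : S_TRN := by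
  intro n p Q
  unfold P mu
  rw [← (gr_bij n).sum_comp]
  refine Finset.sum_congr rfl fun A _ => ?_
  rw [gr_card, ← card_E]
  rfl

end Pool.Agent.H23.RG
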